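import Mathlib.Topology.Algebra.Module.ModuleTopology
import Mathlib.Algebra.Order.Ring.Star
import Mathlib.Analysis.SpecialFunctions.Pow.Real
import Mathlib.Analysis.InnerProductSpace.Basic
import Mathlib.Analysis.Calculus.ContDiff.Defs
import Mathlib.Tactic.Algebra.Basic
import Mathlib.Algebra.Ring.IsFormallyReal
import Pool.Agent.MP_187b32_an.Prof.Side

-- ======== part 0: formerly Pool.Agent.MP_187b32_an.PD.Spec
section MrgPart0

/-!
Interfaces for the imploding profile in every dimension `d`.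
Variables: `e = 1 / d`, `x = R ^ 2 / ((d + 2) C ^ 2)`, `W = U / R`, `mu = 2 (d + 2) C C_z` with
`z = R ^ 2`; outer variables `q = x ^ (-1/2)`, `y = W / q`.
-/

set_option autoImplicit false

open Set
open scoped ContDiff

namespace Pool.Agent.MP_187b32_an.PD

/-- The radial derivative `U_R` of the velocity in terms of `W` and `mu`. -/
noncomputable def AA (W mu : ℝ → ℝ) (x : ℝ) : ℝ := W x + 2 * x * (1 - x * mu x) * deriv W x

/-- The two profile equations at the point `x`. -/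
def Eqs (e r : ℝ) (W mu : ℝ → ℝ) (x : ℝ) : Prop :=
  (r - 1) * W x + (1 + W x) * AA W mu x + mu x = 0 ∧
    (r - 1) + (1 + W x) * x * mu x + e * AA W mu x + (1 - e) * W x = 0

/-- Monotonicity of `x` along the profile and repulsivity at the point `x`. -/
def Rep (lam : ℝ) (W mu : ℝ → ℝ) (x : ℝ) : Prop :=
  0 < 1 - x * mu x ∧ lam < 1 + AA W mu x ∧ lam < 1 + W x ∧
    4 / 3 * x * mu x ^ 2 ≤ (1 + AA W mu x - lam) ^ 2 ∧
    4 / 3 * x * mu x ^ 2 ≤ (1 + W x - lam) ^ 2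

/-- The inner part of the profile, up to `x = q1 ^ (-2)`, where `W = q1 * y1`. -/
def Inner (e r q1 y1 : ℝ) : Prop :=
  ∃ (δ lam : ℝ) (W mu : ℝ → ℝ), 0 < δ ∧ 0 < lam ∧
    ContDiffOn ℝ ∞ W (Ioo (-δ) ((q1 ^ 2)⁻¹ + δ)) ∧ ContDiffOn ℝ ∞ mu (Ioo (-δ) ((q1 ^ 2)⁻¹ + δ)) ∧
    (∀ x ∈ Ioo (-δ) ((q1 ^ 2)⁻¹ + δ), Eqs e r W mu x) ∧
    (∀ x ∈ Icc (0 : ℝ) (q1 ^ 2)⁻¹, Rep lam W mu x) ∧ W (q1 ^ 2)⁻¹ = q1 * y1

/-- The polynomial `G`. -/
def GG (e r w : ℝ) : ℝ := (1 + w) * (r + 2 * w) - e * (w * (r + w))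

/-- The polynomial `H`. -/
def HH (r w : ℝ) : ℝ := w * ((1 + w) * (r + w))

/-- Denominator of the outer equation. -/
def dO (e r q y : ℝ) : ℝ := GG e r (q * y) - e * q ^ 2

/-- Numerator of the outer equation. -/
def nO (e r q y : ℝ) : ℝ := (1 - e * r) * y ^ 2 + (1 - e) * (q * y * (1 + y ^ 2)) + (r - 1)

/-- The sonic factor in the outer variables. -/
def sO (e q y : ℝ) : ℝ := (1 + q * y) ^ 2 - e * q ^ 2

/-- `mu = -q ^ 2 * bO / sO`. -/
def bO (e r q y : ℝ) : ℝ := r - 1 + (1 - e) * (q * y * (r + q * y))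

/-- `U_R = aO / sO`. -/
def aO (e r q y : ℝ) : ℝ :=
  q ^ 2 * (r - 1 + (1 - e) * (q * y)) - (r - 1) * (q * y * (1 + q * y))

/-- The inequalities along the outer part. -/
def RepO (lam e r q y : ℝ) : Prop :=
  0 < dO e r q y ∧ 0 < sO e q y ∧ 0 < (1 - lam) * sO e q y + aO e r q y ∧ lam < 1 + q * y ∧
    4 / 3 * (q * bO e r q y) ^ 2 ≤ ((1 - lam) * sO e q y + aO e r q y) ^ 2 ∧
    4 / 3 * (q * bO e r q y) ^ 2 ≤ ((1 + q * y - lam) * sO e q y) ^ 2

/-- A solution of the outer equation on `[a, b]` with the values `ya` at `a` and `yb` at `b`. -/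
def Seg (lam e r a b ya yb : ℝ) : Prop :=
  ∃ Y : ℝ → ℝ, Y a = ya ∧ Y b = yb ∧ ∀ q ∈ Icc a b,
    HasDerivWithinAt Y (-nO e r q (Y q) / dO e r q (Y q)) (Icc a b) q ∧ RepO lam e r q (Y q)

/-- The outer part of the profile, from `q = q1` down to `q = -1/10`. -/
def Outer (e r q1 y1 : ℝ) : Prop :=
  ∃ lam y0 : ℝ, 0 < lam ∧ Seg lam e r (-1 / 10) q1 y0 y1

/-- The profile as a function of `x` on the whole half-line. -/
def Glob (e r : ℝ) : Prop :=
  ∃ (δ lam : ℝ) (W mu Y M : ℝ → ℝ), 0 < δ ∧ 0 < lam ∧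
    ContDiffOn ℝ ∞ W (Ioi (-δ)) ∧ ContDiffOn ℝ ∞ mu (Ioi (-δ)) ∧
    (∀ x, -δ < x → 0 < 1 - x * mu x) ∧ (∀ x, 0 ≤ x → Eqs e r W mu x ∧ Rep lam W mu x) ∧
    ContDiffOn ℝ ∞ Y (Ioo (-1 / 10) (1 / 2)) ∧ ContDiffOn ℝ ∞ M (Ioo (-1 / 10) (1 / 2)) ∧
    M 0 = r ∧ (∀ q ∈ Ioo (-1 / 10 : ℝ) (1 / 2), 0 < M q) ∧
    ∀ x, 4 < x → W x = (√x)⁻¹ * Y (√x)⁻¹ ∧ 1 - x * mu x = M (√x)⁻¹

/-- Symbols of order `a` in the variable `z`. -/
def SymZ (δ a : ℝ) (f : ℝ → ℝ) : Prop :=
  ContDiffOn ℝ ∞ f (Ioi (-δ)) ∧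
    ∀ n : ℕ, ∃ K : ℝ, ∀ z, 0 ≤ z → |deriv^[n] f z| ≤ K * (1 + z) ^ (a - n)

/-- The radial form of the profile statement in dimension `d`: `U = w (|y| ^ 2) y`. -/
def Rad (d r : ℝ) : Prop :=
  ∃ (lam c0 δ : ℝ) (w C : ℝ → ℝ), 0 < lam ∧ 0 < c0 ∧ 0 < δ ∧
    SymZ δ (-r / 2) w ∧ SymZ δ ((1 - r) / 2) C ∧
    (∀ z, 0 ≤ z → (r - 1) * w z + (1 + w z) * (w z + 2 * z * deriv w z)
      + 2 * (d + 2) * C z * deriv C z = 0) ∧
    (∀ z, 0 ≤ z → (r - 1) * C z + 2 * z * (1 + w z) * deriv C z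
      + 1 / d * C z * (d * w z + 2 * z * deriv w z) = 0) ∧
    (∀ z, 0 ≤ z → c0 * (1 + z) ^ ((1 - r) / 2) ≤ C z) ∧
    ∀ z, 0 ≤ z → lam ≤ 1 + w z - √(4 / 3 * (d + 2)) * √(4 * z * deriv C z ^ 2) ∧
      lam ≤ 1 + w z + 2 * z * deriv w z - √(4 / 3 * (d + 2)) * √(4 * z * deriv C z ^ 2)

/-- Both parts in dimension `d = 1 / e`. -/
def Both (e : ℝ) : Prop :=
  ∃ r q1 y1 : ℝ, 1036 / 1000 < r ∧ r < 7 / 5 ∧ 1 / 2 ≤ q1 ∧ Inner e r q1 y1 ∧ Outer e r q1 y1

/-- Gluing (PD1). -/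
def GlueStmt : Prop :=
  ∀ e r q1 y1 : ℝ, 0 < e → 1 / 2 ≤ q1 → Inner e r q1 y1 → Outer e r q1 y1 → Glob e r

/-- Passage to the variable `z` (PD2). -/
def QuadStmt : Prop := ∀ d r : ℝ, 0 < d → 1 < r → Glob (1 / d) r → Rad d r

/-- The final statement of the profile module. -/
def ProfStmt : Prop :=
  ∀ d : ℕ, 2 ≤ d → ∃ r : ℝ, 1036 / 1000 < r ∧ r < 7 / 5 ∧ Rad d r

theorem prof_of (h1 : GlueStmt) (h2 : QuadStmt) (h3 : ∀ d : ℕ, 2 ≤ d → Both (1 / d)) :
    ProfStmt := fun d hd => by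
  obtain ⟨r, q1, y1, a1, a2, a3, a4, a5⟩ := h3 d hd
  have h0 : (0 : ℝ) < d := by exact_mod_cast (by omega : 0 < d)
  exact ⟨r, a1, a2, h2 d r h0 (by linarith) (h1 _ r q1 y1 (by positivity) a3 a4 a5)⟩

end Pool.Agent.MP_187b32_an.PD

end MrgPart0

-- ======== part 1: formerly Pool.Agent.MP_187b32_an.Prof.Spec
section MrgPart1

/-!
Interface between the inner part (origin, sonic point) and the outer part of the imploding profile.
Variables: `s = R ^ 2 / c ^ 2`, `W = U / R`, `nu = c_R / sqrt s`.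
-/

set_option autoImplicit false

open Set
open scoped ContDiff

namespace Pool.Agent.MP_187b32_an.Prof

/-- The radial derivative `U_R` of the velocity in terms of `W` and `nu`. -/
noncomputable def AA (W nu : ℝ → ℝ) (s : ℝ) : ℝ := W s + 2 * s * (1 - s * nu s) * deriv W s

/-- The two profile equations at the point `s`. -/
def Eqs (r : ℝ) (W nu : ℝ → ℝ) (s : ℝ) : Prop :=
  (r - 1) * W s + (1 + W s) * AA W nu s + 3 * nu s = 0 ∧
    (r - 1) + (1 + W s) * s * nu s + (AA W nu s + 2 * W s) / 3 = 0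

/-- Monotonicity of `s` along the profile and repulsivity at the point `s`. -/
def Rep (lam : ℝ) (W nu : ℝ → ℝ) (s : ℝ) : Prop :=
  0 < 1 - s * nu s ∧ lam < 1 + AA W nu s ∧ lam < 1 + W s ∧
    243 / 80 * s * nu s ^ 2 ≤ (1 + AA W nu s - lam) ^ 2 ∧
    243 / 80 * s * nu s ^ 2 ≤ (1 + W s - lam) ^ 2

/-- The inner part of the profile, up to `s = 4`. -/
def InnerStmt : Prop :=
  ∃ (r d lam : ℝ) (W nu : ℝ → ℝ), 11127 / 10000 ≤ r ∧ r ≤ 11129 / 10000 ∧ 0 < d ∧ 0 < lam ∧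
    ContDiffOn ℝ ∞ W (Ioo (-d) (4 + d)) ∧ ContDiffOn ℝ ∞ nu (Ioo (-d) (4 + d)) ∧
    (∀ s ∈ Ioo (-d) (4 + d), Eqs r W nu s) ∧ (∀ s ∈ Icc (0 : ℝ) 4, Rep lam W nu s) ∧
    -17 / 100 ≤ W 4 ∧ W 4 ≤ -1 / 8

end Pool.Agent.MP_187b32_an.Prof

end MrgPart1

-- ======== part 2: formerly Pool.Agent.MP_187b32_an.Prof.Par
section MrgPart2

/-!
The parameters at the sonic point.
-/

open Polynomial Set

namespace Pool.Agent.MP_187b32_an.Prof

noncomputable def rF (w : ℝ) : ℝ := (3 - 2 * w ^ 2) / (3 + 2 * w)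
noncomputable def sF (w : ℝ) : ℝ := 1 / (1 + w) ^ 2
def gA (r s w : ℝ) : ℝ := s * (-12 - 20 * w - 4 * r)
def gB (r s w : ℝ) : ℝ := 15 + s * (-30 * w - 29 * w ^ 2 - 15 * r - 14 * r * w)
def gC (r s w : ℝ) : ℝ := -3 * s * (w * ((1 + w) * (r + w)))
noncomputable def gSon (w : ℝ) : ℝ :=
  (-gB (rF w) (sF w) w + √(gB (rF w) (sF w) w ^ 2 - 4 * gA (rF w) (sF w) w * gC (rF w) (sF w) w)) /
    (2 * gA (rF w) (sF w) w)

lemma slopeEq_eq (r s w g : ℝ) : slopeEq r s w g = gA r s w * g ^ 2 + gB r s w * g + gC r s w := by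
  simp only [slopeEq, gA, gB, gC]; ring

lemma quad_root {A B C g : ℝ} (hA : A < 0) (hC : 0 < C)
    (hg : g = (-B + √(B ^ 2 - 4 * A * C)) / (2 * A)) : A * g ^ 2 + B * g + C = 0 ∧
      ∀ x < 0, (0 < A * x ^ 2 + B * x + C → g < x) ∧ (A * x ^ 2 + B * x + C < 0 → x < g) := by
  have h0 : 0 < -(4 * A * C) := by nlinarith
  have h1 := Real.sq_sqrt (show 0 ≤ B ^ 2 - 4 * A * C by nlinarith [sq_nonneg B])
  have h2 : |B| < √(B ^ 2 - 4 * A * C) := Real.lt_sqrt_of_sq_lt (by rw [sq_abs]; linarith)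
  set D := √(B ^ 2 - 4 * A * C)
  have h3 : 2 * A * g = -B + D := by rw [hg]; field_simp [hA.ne]
  have h4 : ∀ x, 4 * A * (A * x ^ 2 + B * x + C) = 2 * A * (x - g) * (2 * A * x + B + D) :=
    fun x => by linear_combination (2 * A * x + B + D) * h3 + h1
  refine ⟨?_, fun x hx => ?_⟩
  · have := h4 g
    rw [sub_self, mul_zero, zero_mul] at this
    exact (mul_eq_zero.1 this).resolve_left (by linarith)
  · have h5 : 0 < 2 * A * x + B + D := by nlinarith [neg_abs_le B]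
    have h6 := h4 x
    have h7 : 0 < -(2 * A) * (2 * A * x + B + D) := mul_pos (by linarith) h5
    constructor
    · intro h
      by_contra hc
      nlinarith [mul_nonneg (sub_nonneg.2 (not_lt.1 hc)) h7.le]
    · intro h
      by_contra hc
      nlinarith [mul_nonneg (sub_nonneg.2 (not_lt.1 hc)) h7.le]

def blo (b : Ball) : Ball := (b.1 - b.2, 0)
def bhi (b : Ball) : Ball := (b.1 + b.2, 0)

lemma mem_blo (b : Ball) : Mem (((b.1 - b.2 : ℤ) : ℝ) / sc) (blo b) := mem_exact _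
lemma mem_bhi (b : Ball) : Mem (((b.1 + b.2 : ℤ) : ℝ) / sc) (bhi b) := mem_exact _

lemma mem_of_lt {x : ℝ} {b : Ball} (h1 : ((b.1 - b.2 : ℤ) : ℝ) / sc < x)
    (h2 : x < ((b.1 + b.2 : ℤ) : ℝ) / sc) : Mem x b := by
  rw [div_lt_iff₀ sc_pos] at h1
  rw [lt_div_iff₀ sc_pos] at h2
  push_cast at h1 h2
  exact abs_le.2 ⟨by linarith, by linarith⟩

def eA : Ex := .var 2 * (.int (-12) - .int 20 * .var 0 - .int 4 * .var 1)
def eB : Ex := .int 15 + .var 2 * (.int (-30) * .var 0 - .int 29 * (.var 0 * .var 0) -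
  .int 15 * .var 1 - .int 14 * .var 1 * .var 0)
def eC : Ex := .int (-3) * .var 2 * (.var 0 * ((.int 1 + .var 0) * (.var 1 + .var 0)))
def eL : Ex := .int 6 + .var 3 * eA - .int 4 * .var 2 *
  (.int 3 * .var 1 + .var 0 * (.int 6 + .int 2 * .var 1 + .int 5 * .var 0))
def eAl : Ex := .int 6 + eB + .int 3 * .var 3 * eA - .int 4 * .var 2 *
  (.int 3 * .var 1 + .var 0 * (.int 6 + .int 2 * .var 1 + .int 5 * .var 0))

def pl1 : List Ex :=
  [.int 3 + .int 2 * .var 0, .int 1 + .var 0,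
    .int 3 - .int 2 * (.var 0 * .var 0) - .var 1 * (.int 3 + .int 2 * .var 0),
    .var 2 * (.int 3 + .int 2 * .var 0) - (.int 3 - .int 2 * (.var 0 * .var 0)),
    .int 1 - .var 3 * ((.int 1 + .var 0) * (.int 1 + .var 0)),
    .var 4 * ((.int 1 + .var 0) * (.int 1 + .var 0)) - .int 1]

def pl2 : List Ex :=
  [-eA, eC, -.var 4, -(eA * (.var 3 * .var 3) + eB * .var 3 + eC),
    eA * (.var 4 * .var 4) + eB * .var 4 + eC]

def pl3 : List Ex :=
  [.int 10 * eL + .int 31, -(eL + .int 3), .int 10 * eAl - .int 39, .int 4 - eAl,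
    -.var 3, .int 10000 * .var 1 - .int 11127,
    .int 11129 - .int 10000 * .var 1, .int 100 * .var 2 - .int 149, .int 3 - .int 2 * .var 2]

def parChk (wB rB sB gB : Ball) : Bool :=
  (pl1.all fun e => bpos (e.evB [wB, blo rB, bhi rB, blo sB, bhi sB])) &&
  (pl2.all fun e => bpos (e.evB [wB, rB, sB, blo gB, bhi gB])) &&
  (pl3.all fun e => bpos (e.evB [wB, rB, sB, gB]))

structure ParOK (w : ℝ) : Prop where
  d1 : 3 + 2 * w ≠ 0
  d2 : 1 + w ≠ 0
  d3 : gA (rF w) (sF w) w ≠ 0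
  e1 : mm (rF w) (sF w) 1 w = 0
  e2 : NN (rF w) (sF w) 1 w = 0
  e3 : slopeEq (rF w) (sF w) w (gSon w) = 0
  e4 : DD (sF w) 1 w = 0
  e5 : nn (rF w) w = 0
  l : lamS (rF w) (sF w) w (gSon w) ∈ Ioo (-3.1 : ℝ) (-3)
  a : alS (rF w) (sF w) w (gSon w) ∈ Ioo (3.9 : ℝ) 4
  u : gSon w < 0
  v : 0 < 1 + w
  r1 : 11127 / 10000 ≤ rF w
  r2 : rF w ≤ 11129 / 10000
  s1 : 149 / 100 < sF w
  s2 : sF w < 3 / 2

lemma parChk_sound {w : ℝ} {wB rB sB gB' : Ball} (hw : Mem w wB)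
    (h : parChk wB rB sB gB' = true) :
    Mem (rF w) rB ∧ Mem (sF w) sB ∧ Mem (gSon w) gB' ∧ ParOK w := by
  simp only [parChk, Bool.and_eq_true, List.all_eq_true] at h
  obtain ⟨⟨h1, h2⟩, h3⟩ := h
  have k1 := fun e he => (Ex.mem (.cons hw (.cons (mem_blo rB) (.cons (mem_bhi rB)
    (.cons (mem_blo sB) (.cons (mem_bhi sB) .nil))))) e).pos (h1 e he)
  simp only [pl1, List.mem_cons, List.not_mem_nil, or_false, forall_eq_or_imp, forall_eq, ev_mul,
    ev_add, ev_sub, ev_int, ev_var, List.getD_cons_zero, List.getD_cons_succ, Int.cast_ofNat,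
    Int.cast_one] at k1
  obtain ⟨a1, a2, a3, a4, a5, a6⟩ := k1
  have hr : Mem (rF w) rB := mem_of_lt (by rw [rF, lt_div_iff₀ a1]; linarith)
    (by rw [rF, div_lt_iff₀ a1]; linarith)
  have hs : Mem (sF w) sB := mem_of_lt (by rw [sF, lt_div_iff₀ (by positivity)]; linarith)
    (by rw [sF, div_lt_iff₀ (by positivity)]; linarith)
  have eA' : ∀ l, eA.ev (w :: rF w :: sF w :: l) = gA (rF w) (sF w) w := fun l => by
    simp [eA, gA]
  have eB' : ∀ l, eB.ev (w :: rF w :: sF w :: l) = gB (rF w) (sF w) w := fun l => by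
    simp [eB, gB, sq]
  have eC' : ∀ l, eC.ev (w :: rF w :: sF w :: l) = gC (rF w) (sF w) w := fun l => by
    simp [eC, gC]
  have k2 := fun e he => (Ex.mem (.cons hw (.cons hr (.cons hs
    (.cons (mem_blo gB') (.cons (mem_bhi gB') .nil))))) e).pos (h2 e he)
  simp only [pl2, List.mem_cons, List.not_mem_nil, or_false, forall_eq_or_imp, forall_eq, ev_mul,
    ev_add, ev_neg, ev_var, List.getD_cons_zero, List.getD_cons_succ, eA', eB', eC'] at k2
  obtain ⟨b1, b2, b3', b4, b5⟩ := k2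
  obtain ⟨c1, c2⟩ := quad_root (g := gSon w) (by linarith) b2 rfl
  have hle : ((gB'.1 - gB'.2 : ℤ) : ℝ) / sc ≤ ((gB'.1 + gB'.2 : ℤ) : ℝ) / sc := by
    have := sc_pos
    gcongr
    linarith [Int.natCast_nonneg gB'.2]
  have hg : Mem (gSon w) gB' := mem_of_lt ((c2 _ (by linarith)).2 (by linarith))
    ((c2 _ (by linarith)).1 (by linarith))
  have k3 := fun e he => (Ex.mem (.cons hw (.cons hr (.cons hs (.cons hg .nil)))) e).pos (h3 e he)
  simp only [pl3, List.mem_cons, List.not_mem_nil, or_false, forall_eq_or_imp, forall_eq, ev_mul,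
    ev_add, ev_sub, ev_neg, ev_int, ev_var, List.getD_cons_zero, List.getD_cons_succ, eA', eB',
    eL, eAl, Int.cast_ofNat, gA, gB] at k3
  obtain ⟨f1, f2, f3, f4, f5, f6, f7, f8, f9⟩ := k3
  have hr' : rF w * (3 + 2 * w) = 3 - 2 * w ^ 2 := div_mul_cancel₀ _ a1.ne'
  have hs' : sF w * (1 + w) ^ 2 = 1 := div_mul_cancel₀ _ (pow_ne_zero 2 a2.ne')
  refine ⟨hr, hs, hg, a1.ne', a2.ne', by linarith, ?_, ?_, by rw [slopeEq_eq, c1], ?_, ?_,
    ⟨?_, ?_⟩, ⟨?_, ?_⟩, by linarith, a2, by linarith, by linarith, by linarith, by linarith⟩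
  · simp only [mm, b3]; linear_combination -3 * hs' - sF w * hr'
  · refine mul_left_cancel₀ a1.ne' ?_
    simp only [NN]
    linear_combination (3 * sF w * w * (1 + w) - 9) * hr' + 9 * w * hs'
  · simp only [DD]; linear_combination -hs'
  · simp only [nn, b3]; linear_combination hr'
  · simp only [lamS]; linarith
  · simp only [lamS]; linarith
  · simp only [alS]; linarith
  · simp only [alS]; linarith

end Pool.Agent.MP_187b32_an.Prof

end MrgPart2

-- ======== part 3: formerly Pool.Agent.MP_187b32_an.Prof.Reg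
section MrgPart3

/-!
Regular steps, and the inequalities along the profile.
-/

open Polynomial Set

namespace Pool.Agent.MP_187b32_an.Prof

/-- The inequalities along the profile. -/
def Ineq (s w A ν : ℝ) : Prop :=
  1 / 4 ≤ 1 - s * ν ∧ 1 / 10 ≤ 1 + A ∧ 1 / 10 ≤ 1 + w ∧
    243 / 80 * s * ν ^ 2 ≤ (1 + A - 1 / 10) ^ 2 ∧ 243 / 80 * s * ν ^ 2 ≤ (1 + w - 1 / 10) ^ 2

def Good (r s x w : ℝ) : Prop :=
  DD s x w ≠ 0 ∧ Ineq (s * x) w (w + NN r s x w / (3 * DD s x w)) (nn r w / (3 * DD s x w))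

lemma good_of {r s x w c m N D n sg : ℝ} (hc : c ≠ 0) (e1 : mm r s x w = c * m)
    (e2 : NN r s x w = c * N) (e3 : DD s x w = c * D) (e4 : nn r w = c * n) (h1 : 0 < sg * D)
    (h2 : 0 < sg * (4 * m - 3 * D)) (h3 : 0 < sg * (3 * (9 + 10 * w) * D + 10 * N))
    (h4 : 0 < 9 + 10 * w)
    (h5 : 0 < 80 * ((3 * (9 + 10 * w) * D + 10 * N) * (3 * (9 + 10 * w) * D + 10 * N)) -
      24300 * s * x * (n * n))
    (h6 : 0 < 80 * ((3 * (9 + 10 * w) * D) * (3 * (9 + 10 * w) * D)) - 24300 * s * x * (n * n)) :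
    Good r s x w := by
  have hD : D ≠ 0 := fun h => by simp [h] at h1
  have hD2 : 0 < D ^ 2 := by positivity
  have hsg : sg ≠ 0 := fun h => by simp [h] at h1
  have key : ∀ y, 0 < sg * y → 0 < y / D := fun y hy => by
    have : y / D = (sg * y) / (sg * D) := by field_simp
    rw [this]; positivity
  have em : m = 3 * D - s * x * n := by
    refine mul_left_cancel₀ hc ?_
    simp only [mm, DD, nn] at e1 e3 e4
    linear_combination -e1 + 3 * e3 - s * x * e4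
  have a1 : NN r s x w / (3 * DD s x w) = N / (3 * D) := by rw [e2, e3]; field_simp
  have a2 : nn r w / (3 * DD s x w) = n / (3 * D) := by rw [e4, e3]; field_simp
  have a3 : 1 + (w + N / (3 * D)) - 1 / 10 = (3 * (9 + 10 * w) * D + 10 * N) / D / 30 := by
    field_simp; ring
  have a4 : 1 - s * x * (n / (3 * D)) - 1 / 4 = (4 * m - 3 * D) / D / 12 := by
    rw [em]; field_simp; ring
  refine ⟨e3 ▸ mul_ne_zero hc hD, ?_⟩
  rw [a1, a2]
  refine ⟨by linarith [key _ h2], by linarith [key _ h3], by linarith, ?_, ?_⟩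
  · rw [a3, ← sub_nonneg]
    have : ((3 * (9 + 10 * w) * D + 10 * N) / D / 30) ^ 2 - 243 / 80 * (s * x) * (n / (3 * D)) ^ 2
        = (80 * ((3 * (9 + 10 * w) * D + 10 * N) * (3 * (9 + 10 * w) * D + 10 * N)) -
          24300 * s * x * (n * n)) / (72000 * D ^ 2) := by field_simp; ring
    rw [this]; positivity
  · rw [← sub_nonneg]
    have : (1 + w - 1 / 10) ^ 2 - 243 / 80 * (s * x) * (n / (3 * D)) ^ 2
        = (80 * ((3 * (9 + 10 * w) * D) * (3 * (9 + 10 * w) * D)) -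
          24300 * s * x * (n * n)) / (72000 * D ^ 2) := by field_simp; ring
    rw [this]; positivity

def envX (rB sB xB : Ball) (H : List Ball) : List (List Ball) :=
  [[xB, bint 1], H, pder H, [rB], [sB]]

lemma pmem_envX {r s x : ℝ} {rB sB xB : Ball} (hr : Mem r rB) (hs : Mem s sB) (hx : Mem x xB)
    {H : List Ball} {h : ℝ[X]} (hH : PMem H h) :
    List.Forall₂ PMem (envX rB sB xB H) (envP r s x h) :=
  .cons ((PMem.cons hx (PMem.const (mem_int 1))).of_eq (by simp))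
    (.cons hH (.cons hH.der (.cons (PMem.const hr) (.cons (PMem.const hs) .nil))))

def eG : Ex := .int 3 * (.int 9 + .int 10 * .var 1) * .var 4

def regChk (rB sB xB : Ball) (H : List Ball) (j : ℕ) (sg a : ℤ) (h n : ℕ) : Bool :=
  chk [[xB, bint 1], H, (em.evP (envX rB sB xB H)).drop j, (eN.evP (envX rB sB xB H)).drop j,
    (eD.evP (envX rB sB xB H)).drop j, (en.evP (envX rB sB xB H)).drop j, [sB]]
    [.int sg * .var 4, .int sg * (.int 4 * .var 2 - .int 3 * .var 4),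
      .int sg * (eG + .int 10 * .var 3), .int 9 + .int 10 * .var 1,
      .int 80 * ((eG + .int 10 * .var 3) * (eG + .int 10 * .var 3)) -
        .int 24300 * .var 6 * .var 0 * (.var 5 * .var 5),
      .int 80 * (eG * eG) - .int 24300 * .var 6 * .var 0 * (.var 5 * .var 5)] a h n

lemma regChk_sound {r s x : ℝ} {rB sB xB : Ball} (hr : Mem r rB) (hs : Mem s sB) (hx : Mem x xB)
    {H : List Ball} {p : ℝ[X]} (hH : PMem H p) {j : ℕ} {sg A : ℤ} {h n : ℕ}
    (hc : regChk rB sB xB H j sg A h n = true)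
    (h0 : j = 0 ∨ j = 1 ∧ mm r s x (p.eval 0) = 0 ∧ NN r s x (p.eval 0) = 0 ∧
      DD s x (p.eval 0) = 0 ∧ nn r (p.eval 0) = 0) {t : ℝ} (ht : t ^ j ≠ 0)
    (h1 : (A : ℝ) ≤ t * sc) (h2 : t * sc ≤ A + 2 * h * (n + 1)) :
    Good r s (x + t) (p.eval t) := by
  have hE := pmem_envX hr hs hx hH
  have key : ∀ e : Ex, (j = 0 ∨ j = 1 ∧ e.ev [x, p.eval 0, p.derivative.eval 0, r, s] = 0) →
      ∃ q, PMem ((e.evP (envX rB sB xB H)).drop j) q ∧
        e.ev [x + t, p.eval t, p.derivative.eval t, r, s] = t ^ j * q.eval t := fun e he => by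
    obtain ⟨q, p0, q0⟩ := (e.pmem hE).drop j
    refine ⟨q, p0, ?_⟩
    rw [← eval_envP, eq_pow_mul q0 fun i hi => ?_]
    · simp
    · rcases he with rfl | ⟨rfl, he⟩
      · omega
      · rw [Nat.lt_one_iff.1 hi, coeff_zero_eq_eval_zero, eval_envP, add_zero, he]
  obtain ⟨q1, p1, e1⟩ := key em (h0.imp_right fun h => ⟨h.1, by rw [ev_em, h.2.1]⟩)
  obtain ⟨q2, p2, e2⟩ := key eN (h0.imp_right fun h => ⟨h.1, by rw [ev_eN, h.2.2.1]⟩)
  obtain ⟨q3, p3, e3⟩ := key eD (h0.imp_right fun h => ⟨h.1, by rw [ev_eD, h.2.2.2.1]⟩)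
  obtain ⟨q4, p4, e4⟩ := key en (h0.imp_right fun h => ⟨h.1, by rw [ev_en, h.2.2.2.2]⟩)
  rw [ev_em] at e1
  rw [ev_eN] at e2
  rw [ev_eD] at e3
  rw [ev_en] at e4
  have := chk_sound hc (.cons (PMem.cons hx (PMem.const (mem_int 1))) (.cons hH (.cons p1
    (.cons p2 (.cons p3 (.cons p4 (.cons (PMem.const hs) .nil))))))) h1 h2
  simp only [List.mem_cons, List.not_mem_nil, or_false, forall_eq_or_imp, forall_eq, ev_mul,
    ev_add, ev_sub, ev_int, ev_var, List.map_cons, List.map_nil, List.getD_cons_zero,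
    List.getD_cons_succ, eG, Int.cast_ofNat, eval_add, eval_mul, eval_C, eval_X, Int.cast_one,
    mul_one] at this
  obtain ⟨a1, a2, a3, a4, a5, a6⟩ := this
  exact good_of ht e1 e2 e3 e4 a1 a2 a3 a4 a5 a6

/-- Ball version of `Q + θ φ`. -/
def stB (Q φ : List ℤ) (θ : Ball) : List Ball := padd (exact Q) (psm θ (exact φ))

lemma pmem_st (Q φ : List ℤ) {θ : ℝ} {θB : Ball} (h : Mem θ θB) :
    PMem (stB Q φ θB) (ofInts Q + C θ * ofInts φ) :=
  (pmem_exact Q).add (PMem.sm h (pmem_exact φ))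

/-- A regular step, centred at `c`, from `c + a` to `c + a + 2 h (n + 1)`; the initial value lies
in the ball `v`, the final value in the ball `v'`, all values in the ball `u`. -/
def stepChk (rB sB : Ball) (c : ℤ) (Q φ : List ℤ) (K : ℕ) (a : ℤ) (h n : ℕ) (v v' u : Ball) :
    Bool :=
  chk [eM.evP (envX rB sB (c, 0) (stB Q φ (0, K))), eR.evP (envX rB sB (c, 0) (stB Q φ (K, 0))),
    eR.evP (envX rB sB (c, 0) (stB Q φ (-K, 0))), exact φ]
    [-.var 0, -.var 1, .var 2, .var 3] a h n &&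
  chk [stB Q φ (0, K), [blo u], [bhi u]] [.var 0 - .var 1, .var 2 - .var 0] a h n &&
  regChk rB sB (c, 0) (stB Q φ (0, K)) 0 (-1) a h n &&
  bpos (badd (horner (a, 0) (stB Q φ (K, 0))) (bneg v)) &&
  bpos (badd v (bneg (horner (a, 0) (stB Q φ (-K, 0))))) &&
  bpos (badd (bhi v') (bneg (horner (a + 2 * h * (n + 1), 0) (stB Q φ (0, K))))) &&
  bpos (badd (horner (a + 2 * h * (n + 1), 0) (stB Q φ (0, K))) (bneg (blo v')))

/-- A regular solution on the set `S`. -/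
def Seg (r s : ℝ) (S : Set ℝ) (V : ℝ → ℝ) : Prop :=
  ∀ x ∈ S, HasDerivWithinAt V (NN r s x (V x) / MM r s x (V x)) S x ∧
    MM r s x (V x) ≠ 0 ∧ Good r s x (V x)

theorem step {r s : ℝ} {rB sB : Ball} (hr : Mem r rB) (hs : Mem s sB) {c a : ℤ} {Q φ : List ℤ}
    {K h n : ℕ} {v v' u : Ball} (hc : stepChk rB sB c Q φ K a h n v v' u = true) {x0 x1 v0 : ℝ}
    (hx0 : x0 * sc = c + a) (hx1 : x1 * sc = c + a + 2 * h * (n + 1)) (hv : Mem v0 v) :
    ∃ V : ℝ → ℝ, V x0 = v0 ∧ Mem (V x1) v' ∧ Seg r s (Icc x0 x1) V ∧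
      ∀ x ∈ Icc x0 x1, Mem (V x) u := by
  simp only [stepChk, Bool.and_eq_true] at hc
  obtain ⟨⟨⟨⟨⟨⟨c1, c7⟩, c2⟩, c3⟩, c4⟩, c5⟩, c6⟩ := hc
  have hs0 := sc_pos
  set xc : ℝ := c / sc with hxc
  have hxc' : xc * sc = c := div_mul_cancel₀ _ hs0.ne'
  set κ : ℝ := K / sc with hκ
  have hκ0 : 0 ≤ κ := by positivity
  let H : ℝ → ℝ[X] := fun θ => ofInts Q + C θ * ofInts φ
  have m1 : Mem κ ((K : ℤ), 0) := by simpa using mem_exact K
  have m2 : Mem (-κ) (-(K : ℤ), 0) := by simpa [neg_div] using mem_exact (-K)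
  have r1 : ∀ x ∈ Icc x0 x1, (a : ℝ) ≤ (x - xc) * sc := fun x hx => by
    nlinarith [mul_le_mul_of_nonneg_right hx.1 hs0.le]
  have r2 : ∀ x ∈ Icc x0 x1, (x - xc) * sc ≤ a + 2 * h * (n + 1) := fun x hx => by
    nlinarith [mul_le_mul_of_nonneg_right hx.2 hs0.le]
  have key : ∀ x ∈ Icc x0 x1, ∀ θ, |θ| ≤ κ → MM r s x ((H θ).eval (x - xc)) < 0 ∧
      MM r s x ((H κ).eval (x - xc)) * (H κ).derivative.eval (x - xc) -
        NN r s x ((H κ).eval (x - xc)) < 0 ∧
      0 < MM r s x ((H (-κ)).eval (x - xc)) * (H (-κ)).derivative.eval (x - xc) -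
        NN r s x ((H (-κ)).eval (x - xc)) ∧ 0 < (ofInts φ).eval (x - xc) := fun x hx θ hθ => by
    have := chk_sound c1
      (.cons (eM.pmem (pmem_envX hr hs (mem_exact c) (pmem_st Q φ (mem_of_abs hθ))))
      (.cons (eR.pmem (pmem_envX hr hs (mem_exact c) (pmem_st Q φ m1)))
      (.cons (eR.pmem (pmem_envX hr hs (mem_exact c) (pmem_st Q φ m2)))
      (.cons (pmem_exact φ) .nil)))) (r1 x hx) (r2 x hx)
    simp only [List.mem_cons, List.not_mem_nil, or_false, forall_eq_or_imp, forall_eq, ev_neg,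
      ev_var, List.map_cons, List.map_nil, List.getD_cons_zero, List.getD_cons_succ, eval_envP,
      ev_eM, ev_eR, ← hxc, add_sub_cancel, neg_pos] at this
    exact this
  have hH : ∀ θ t, (H θ).eval t = (ofInts Q).eval t + θ * (ofInts φ).eval t := fun θ t => by
    simp [H]
  have th : ∀ x ∈ Icc x0 x1, ∀ w ∈ Icc ((H (-κ)).eval (x - xc)) ((H κ).eval (x - xc)),
      ∃ θ, |θ| ≤ κ ∧ w = (H θ).eval (x - xc) := fun x hx w hw => by
    have h0 := (key x hx 0 (by simpa using hκ0)).2.2.2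
    simp only [hH, mem_Icc] at hw ⊢
    refine ⟨(w - (ofInts Q).eval (x - xc)) / (ofInts φ).eval (x - xc), abs_le.2 ⟨?_, ?_⟩,
      by field_simp; ring⟩
    · rw [le_div_iff₀ h0]; linarith [hw.1]
    · rw [div_le_iff₀ h0]; linarith [hw.2]
  have ne : ∀ x ∈ Icc x0 x1, ∀ w ∈ Icc ((H (-κ)).eval (x - xc)) ((H κ).eval (x - xc)),
      MM r s x w < 0 := fun x hx w hw => by
    obtain ⟨θ, h1, rfl⟩ := th x hx w hw
    exact (key x hx θ h1).1
  have hn0 : (0 : ℝ) ≤ 2 * h * (n + 1) := by positivity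
  have h01 : x0 ≤ x1 := le_of_mul_le_mul_right (by linarith) hs0
  have hle : ∀ x ∈ Icc x0 x1, (H (-κ)).eval (x - xc) ≤ (H κ).eval (x - xc) := fun x hx => by
    have h0 := (key x hx 0 (by simpa using hκ0)).2.2.2
    simp only [hH]
    nlinarith
  have hbc : Continuous fun z : ℝ × ℝ => (H z.2).eval (z.1 - xc) := by
    simp only [hH]
    have c1 : Continuous fun z : ℝ × ℝ => (ofInts Q).eval (z.1 - xc) :=
      (ofInts Q).continuous.comp (by fun_prop)
    have c2 : Continuous fun z : ℝ × ℝ => (ofInts φ).eval (z.1 - xc) :=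
      (ofInts φ).continuous.comp (by fun_prop)
    fun_prop
  obtain ⟨L, hL0, hLb⟩ := tube_bound (P := Unit)
    (isCompact_Icc.prod (isCompact_Icc.prod isCompact_Icc) :
      IsCompact (Icc x0 x1 ×ˢ Icc (-κ) κ ×ˢ Icc (-κ) κ))
    (g := fun z => (fun x v w => (3 * (s * x * (v ^ 2 + v * w + w ^ 2 + (1 + r) * (v + w) + r)
      - 3) * MM r s x w + NN r s x w * (2 * x ^ 2 * s * (6 + 2 * r + 5 * (v + w)))) /
        (MM r s x v * MM r s x w)) z.2.1
      ((H z.2.2.1).eval (z.2.1 - xc)) ((H z.2.2.2).eval (z.2.1 - xc))) (by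
      have c1 : Continuous fun z : Unit × ℝ × ℝ × ℝ => (H z.2.2.1).eval (z.2.1 - xc) :=
        hbc.comp (f := fun z : Unit × ℝ × ℝ × ℝ => (z.2.1, z.2.2.1)) (by fun_prop)
      have c2 : Continuous fun z : Unit × ℝ × ℝ × ℝ => (H z.2.2.2).eval (z.2.1 - xc) :=
        hbc.comp (f := fun z : Unit × ℝ × ℝ × ℝ => (z.2.1, z.2.2.2)) (by fun_prop)
      refine ContinuousOn.div (Continuous.continuousOn ?_) (Continuous.continuousOn ?_)
        fun z hz => ?_
      · simp only [MM, NN, mm, b3]; fun_prop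
      · simp only [MM, mm, b3]; fun_prop
      · exact mul_ne_zero (key _ hz.2.1 _ (abs_le.2 hz.2.2.1)).1.ne
          (key _ hz.2.1 _ (abs_le.2 hz.2.2.2)).1.ne)
  have hd : ∀ θ x, HasDerivAt (fun x => (H θ).eval (x - xc)) ((H θ).derivative.eval (x - xc)) x :=
    fun θ x => by
      have := ((H θ).hasDerivAt (x - xc)).comp x ((hasDerivAt_id x).sub_const xc)
      rw [mul_one] at this
      exact this
  have t0 : Mem (x0 - xc) (a, 0) := by simp [Mem, sub_mul, hx0, hxc']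
  have t1 : Mem (x1 - xc) (a + 2 * h * (n + 1), 0) := by
    simp only [Mem, sub_mul, hx1, hxc']
    push_cast
    ring_nf
    simp
  obtain ⟨V, v1, v2, -⟩ := tube_ode (P := Unit) (F := fun _ x v => NN r s x v / MM r s x v)
    (lo := fun _ x => (H (-κ)).eval (x - xc)) (hi := fun _ x => (H κ).eval (x - xc)) h01
    (hbc.comp (f := fun z : Unit × ℝ => (z.2, -κ)) (by fun_prop))
    (hbc.comp (f := fun z : Unit × ℝ => (z.2, κ)) (by fun_prop)) (fun _ => hle)
    (ContinuousOn.div (Continuous.continuousOn (by simp only [NN]; fun_prop))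
      (Continuous.continuousOn (by simp only [MM, mm, b3]; fun_prop))
      fun z hz => (ne _ hz.1 _ hz.2).ne) hL0
    (fun p x hx v hv w hw => by
      rw [div_lip _ _ _ _ _ (ne x hx v hv).ne (ne x hx w hw).ne, abs_mul, mul_comm]
      obtain ⟨θ1, h1, rfl⟩ := th x hx v hv
      obtain ⟨θ2, h2, rfl⟩ := th x hx w hw
      exact mul_le_mul_of_nonneg_right (hLb p (x, θ1, θ2) ⟨hx, abs_le.1 h1, abs_le.1 h2⟩)
        (abs_nonneg _))
    (fun _ => hd _) (fun _ => hd _)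
    (fun _ x hx => by
      obtain ⟨k1, k2, -⟩ := key x (Ico_subset_Icc_self hx) κ (abs_of_nonneg hκ0).le
      rw [div_lt_iff_of_neg k1]
      linarith)
    (fun _ x hx => by
      obtain ⟨k1, -, k2, -⟩ := key x (Ico_subset_Icc_self hx) (-κ)
        (by rw [abs_neg, abs_of_nonneg hκ0])
      rw [lt_div_iff_of_neg k1]
      linarith)
    (v0 := fun _ => v0) continuous_const fun _ => by
      have k1 := (((pmem_st Q φ m1).horner t0).add hv.neg).pos c3
      have k2 := (hv.add ((pmem_st Q φ m2).horner t0).neg).pos c4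
      exact ⟨by linarith, by linarith⟩
  refine ⟨V (), v1 (), ?_, fun x hx => ⟨(v2 () x hx).1, (ne x hx _ (v2 () x hx).2).ne, ?_⟩,
    fun x hx => ?_⟩
  · obtain ⟨θ, h1, h2⟩ := th x1 ⟨h01, le_rfl⟩ _ (v2 () x1 ⟨h01, le_rfl⟩).2
    have k0 := (pmem_st Q φ (mem_of_abs h1)).horner t1
    have k1 := ((mem_bhi v').add k0.neg).pos c5
    have k2 := (k0.add (mem_blo v').neg).pos c6
    rw [h2]
    exact mem_of_lt (by linarith) (by linarith)
  · obtain ⟨θ, h1, h2⟩ := th x hx _ (v2 () x hx).2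
    rw [h2]
    have := regChk_sound hr hs (mem_exact c) (pmem_st Q φ (mem_of_abs h1)) c2
      (Or.inl rfl) (by simp) (r1 x hx) (r2 x hx)
    rwa [← hxc, add_sub_cancel] at this
  · obtain ⟨θ, h1, h2⟩ := th x hx _ (v2 () x hx).2
    have := chk_sound c7 (.cons (pmem_st Q φ (mem_of_abs h1)) (.cons (PMem.const (mem_blo u))
      (.cons (PMem.const (mem_bhi u)) .nil))) (r1 x hx) (r2 x hx)
    simp only [List.mem_cons, List.not_mem_nil, or_false, forall_eq_or_imp, forall_eq, ev_sub,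
      ev_var, List.map_cons, List.map_nil, List.getD_cons_zero, List.getD_cons_succ, eval_C,
      sub_pos] at this
    rw [h2]
    exact mem_of_lt this.1 this.2

end Pool.Agent.MP_187b32_an.Prof

end MrgPart3

-- ======== part 4: formerly Pool.Agent.MP_187b32_an.Prof.Join
section MrgPart4

-- ======== part 0: formerly Pool.Agent.MP_187b32_an.Prof.Fin
section MrgPart0

/-!
From a smooth solution of the first order equation to the inner statement.
-/

open Set Filter Topology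
open scoped ContDiff

namespace Pool.Agent.MP_187b32_an.Prof

lemma eqs_ode {r s x w w' : ℝ} (hD : DD s x w ≠ 0) (h : MM r s x w * w' = NN r s x w) :
    w + 2 * x * (1 - s * x * (nn r w / (3 * DD s x w))) * w' = w + NN r s x w / (3 * DD s x w) ∧
    (r - 1) * w + (1 + w) * (w + NN r s x w / (3 * DD s x w)) + 3 * (nn r w / (3 * DD s x w)) = 0 ∧
    (r - 1) + (1 + w) * (s * x) * (nn r w / (3 * DD s x w)) +
      (w + NN r s x w / (3 * DD s x w) + 2 * w) / 3 = 0 := by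
  refine ⟨?_, ?_, ?_⟩
  · rw [← h]
    field_simp
    simp only [MM, mm, DD, nn]
    ring
  · field_simp
    simp only [NN, DD, nn, b3]
    ring
  · field_simp
    simp only [NN, DD, nn, b3]
    ring

lemma lim_le {f g : ℝ → ℝ} (hf : ContinuousAt f 1) (hg : ContinuousAt g 1)
    (h : ∀ᶠ x in 𝓝[≠] 1, f x ≤ g x) : f 1 ≤ g 1 :=
  le_of_tendsto_of_tendsto (hf.tendsto.mono_left nhdsWithin_le_nhds)
    (hg.tendsto.mono_left nhdsWithin_le_nhds) h

theorem inner_of {r s d0 xe : ℝ} {W : ℝ → ℝ} (r1 : 11127 / 10000 ≤ r) (r2 : r ≤ 11129 / 10000)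
    (s1 : 149 / 100 < s) (s2 : s < 3 / 2) (hd0 : 0 < d0) (hxe : 27 / 10 ≤ xe)
    (hsm : ∀ x ∈ Ioo (-d0) xe, ContDiffAt ℝ ∞ W x)
    (hode : ∀ x ∈ Ioo (-d0) xe, x ≠ 1 → MM r s x (W x) * deriv W x = NN r s x (W x))
    (hgood : ∀ x ∈ Ico 0 xe, x ≠ 1 → Good r s x (W x))
    (h1 : 3 - 2 * s * (1 + W 1) * deriv W 1 ≠ 0)
    (hend : ∀ x ∈ Icc (5 / 2 : ℝ) (27 / 10), -17 / 100 ≤ W x ∧ W x ≤ -1 / 8) : InnerStmt := by
  have s0 : 0 < s := by linarith
  have m1 : (1 : ℝ) ∈ Ioo (-d0) xe := ⟨by linarith, by linarith⟩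
  have hsm' : ∀ x ∈ Ioo (-d0) xe, ContDiffAt ℝ ∞ (deriv W) x := fun x hx =>
    (hsm x hx).derivWithin (m := ∞) (by simp)
  obtain ⟨d1, hd1, hD0⟩ : ∃ d1 > 0, ∀ x, |x| < d1 → DD s x (W x) ≠ 0 := by
    have c := (hsm 0 ⟨by linarith, by linarith⟩).continuousAt
    have c2 : ContinuousAt (fun x => DD s x (W x)) 0 := by simp only [DD]; fun_prop
    obtain ⟨ε, h0, h⟩ := Metric.eventually_nhds_iff.1 (c2.eventually_ne (y := 0) (by simp [DD]))
    exact ⟨ε, h0, fun x hx => h (by simpa using hx)⟩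
  set d := min (min d0 d1) (1 / 100) with hd
  have a0 : 0 < d := lt_min (lt_min hd0 hd1) (by norm_num)
  have a1 : d ≤ d0 := (min_le_left _ _).trans (min_le_left _ _)
  have a2 : d ≤ d1 := (min_le_left _ _).trans (min_le_right _ _)
  have a3 : d ≤ 1 / 100 := min_le_right _ _
  have sub : ∀ x ∈ Ioo (-d) xe, x ∈ Ioo (-d0) xe := fun x hx => ⟨by linarith [hx.1], hx.2⟩
  have m2 : (1 : ℝ) ∈ Ioo (-d) xe := ⟨by linarith, by linarith⟩
  have hD : ∀ x ∈ Ioo (-d) xe, x ≠ 1 → DD s x (W x) ≠ 0 := fun x hx x1 => by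
    rcases le_total 0 x with h | h
    · exact (hgood x ⟨h, hx.2⟩ x1).1
    · exact hD0 x (by rw [abs_of_nonpos h]; linarith [hx.1])
  let G : ℝ → ℝ := fun x => -((r - 1) * W x + (1 + W x) * (W x + 2 * x * deriv W x)) /
    (3 - 2 * s * x ^ 2 * (1 + W x) * deriv W x)
  let ν : ℝ → ℝ := fun x => if x = 1 then G 1 else nn r (W x) / (3 * DD s x (W x))
  let A : ℝ → ℝ := fun x => W x + 2 * x * (1 - s * x * ν x) * deriv W x
  have off : ∀ x ∈ Ioo (-d) xe, x ≠ 1 → ν x = nn r (W x) / (3 * DD s x (W x)) ∧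
      A x = W x + NN r s x (W x) / (3 * DD s x (W x)) ∧
      (r - 1) * W x + (1 + W x) * A x + 3 * ν x = 0 ∧
      (r - 1) + (1 + W x) * (s * x) * ν x + (A x + 2 * W x) / 3 = 0 := fun x hx x1 => by
    have e : ν x = nn r (W x) / (3 * DD s x (W x)) := if_neg x1
    obtain ⟨b1, b2, b3⟩ := eqs_ode (hD x hx x1) (hode x (sub x hx) x1)
    have e2 : A x = W x + NN r s x (W x) / (3 * DD s x (W x)) := by simp only [A, e]; exact b1
    exact ⟨e, e2, by rw [e2, e]; exact b2, by rw [e2, e]; exact b3⟩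
  have cW := (hsm 1 m1).continuousAt
  have cW' := (hsm' 1 m1).continuousAt
  have h1' : 3 - 2 * s * 1 ^ 2 * (1 + W 1) * deriv W 1 ≠ 0 := by simpa using h1
  have near : ν =ᶠ[𝓝 1] G := by
    have c2 : ContinuousAt (fun x => 3 - 2 * s * x ^ 2 * (1 + W x) * deriv W x) 1 := by fun_prop
    filter_upwards [c2.eventually_ne h1', Ioo_mem_nhds m2.1 m2.2] with x h hx
    by_cases x1 : x = 1
    · simp [ν, x1]
    · have := (off x hx x1).2.2.1
      simp only [G]
      rw [eq_div_iff h]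
      simp only [A] at this
      linear_combination this
  have sν : ∀ x ∈ Ioo (-d) xe, ContDiffAt ℝ ∞ ν x := fun x hx => by
    have w0 := hsm x (sub x hx)
    have w1 := hsm' x (sub x hx)
    by_cases x1 : x = 1
    · subst x1
      refine ContDiffAt.congr_of_eventuallyEq ?_ near
      exact ContDiffAt.div (by fun_prop) (by fun_prop) h1'
    · have : ContDiffAt ℝ ∞ (fun x => nn r (W x) / (3 * DD s x (W x))) x :=
        ContDiffAt.div (by simp only [nn, b3]; fun_prop) (by simp only [DD]; fun_prop)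
          (mul_ne_zero (by norm_num) (hD x hx x1))
      refine this.congr_of_eventuallyEq ?_
      filter_upwards [isOpen_ne.mem_nhds x1] with y hy using if_neg hy
  have cν := (sν 1 m2).continuousAt
  have cA : ContinuousAt A 1 := by simp only [A]; fun_prop
  have ev1 : ∀ᶠ x in 𝓝[≠] (1 : ℝ), x ∈ Ioo 0 xe ∧ x ≠ 1 := by
    filter_upwards [mem_nhdsWithin_of_mem_nhds (Ioo_mem_nhds one_pos m2.2), self_mem_nhdsWithin]
      with x h1 h2 using ⟨h1, h2⟩
  have eqs : ∀ x ∈ Ioo (-d) xe, (r - 1) * W x + (1 + W x) * A x + 3 * ν x = 0 ∧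
      (r - 1) + (1 + W x) * (s * x) * ν x + (A x + 2 * W x) / 3 = 0 := fun x hx => by
    by_cases x1 : x = 1
    · subst x1
      have k := ev1.mono fun y hy => (off y ⟨by linarith [hy.1.1], hy.1.2⟩ hy.2).2.2
      exact ⟨le_antisymm
        (lim_le (f := fun x => (r - 1) * W x + (1 + W x) * A x + 3 * ν x) (g := fun _ => 0)
          (by fun_prop) (by fun_prop) (k.mono fun y hy => hy.1.le))
        (lim_le (g := fun x => (r - 1) * W x + (1 + W x) * A x + 3 * ν x) (f := fun _ => 0)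
          (by fun_prop) (by fun_prop) (k.mono fun y hy => hy.1.ge)), le_antisymm
        (lim_le (f := fun x => (r - 1) + (1 + W x) * (s * x) * ν x + (A x + 2 * W x) / 3)
          (g := fun _ => 0) (by fun_prop) (by fun_prop) (k.mono fun y hy => hy.2.le))
        (lim_le (g := fun x => (r - 1) + (1 + W x) * (s * x) * ν x + (A x + 2 * W x) / 3)
          (f := fun _ => 0) (by fun_prop) (by fun_prop) (k.mono fun y hy => hy.2.ge))⟩
    · exact (off x hx x1).2.2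
  have ineq0 : ∀ x ∈ Ico 0 xe, x ≠ 1 → Ineq (s * x) (W x) (A x) (ν x) := fun x hx x1 => by
    obtain ⟨e1, e2, -⟩ := off x ⟨by linarith [hx.1], hx.2⟩ x1
    rw [e1, e2]
    exact (hgood x hx x1).2
  have ineq : ∀ x ∈ Ico 0 xe, Ineq (s * x) (W x) (A x) (ν x) := fun x hx => by
    by_cases x1 : x = 1
    · subst x1
      have k := ev1.mono fun y hy => ineq0 y (Ioo_subset_Ico_self hy.1) hy.2
      exact ⟨lim_le (f := fun _ => 1 / 4) (g := fun x => 1 - s * x * ν x) (by fun_prop)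
          (by fun_prop) (k.mono fun y hy => hy.1),
        lim_le (f := fun _ => 1 / 10) (g := fun x => 1 + A x) (by fun_prop)
          (by fun_prop) (k.mono fun y hy => hy.2.1),
        lim_le (f := fun _ => 1 / 10) (g := fun x => 1 + W x) (by fun_prop)
          (by fun_prop) (k.mono fun y hy => hy.2.2.1),
        lim_le (f := fun x => 243 / 80 * (s * x) * ν x ^ 2) (g := fun x => (1 + A x - 1 / 10) ^ 2)
          (by fun_prop) (by fun_prop) (k.mono fun y hy => hy.2.2.2.1),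
        lim_le (f := fun x => 243 / 80 * (s * x) * ν x ^ 2) (g := fun x => (1 + W x - 1 / 10) ^ 2)
          (by fun_prop) (by fun_prop) (k.mono fun y hy => hy.2.2.2.2)⟩
    · exact ineq0 x hx x1
  have mem : ∀ y ∈ Ioo (-d) (4 + d), y / s ∈ Ioo (-d) xe := fun y hy => by
    constructor
    · rw [lt_div_iff₀ s0]; nlinarith [hy.1]
    · rw [div_lt_iff₀ s0]; nlinarith [hy.2]
  have hA : ∀ y ∈ Ioo (-d) (4 + d),
      AA (fun y => W (y / s)) (fun y => ν (y / s)) y = A (y / s) := fun y hy => by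
    have d1 := ((hsm _ (sub _ (mem y hy))).differentiableAt (by simp)).hasDerivAt
    have d2 : HasDerivAt (fun y => W (y / s)) (deriv W (y / s) * (1 / s)) y :=
      d1.comp y ((hasDerivAt_id y).div_const s)
    simp only [AA, A, d2.deriv]
    field_simp
  have hy : ∀ y, s * (y / s) = y := fun y => by field_simp
  refine ⟨r, d, 1 / 20, fun y => W (y / s), fun y => ν (y / s), r1, r2, a0, by norm_num,
    fun y h => ?_, fun y h => ?_, fun y h => ?_, fun y h => ?_, ?_⟩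
  · exact ((hsm _ (sub _ (mem y h))).comp y (f := fun y => y / s) (by fun_prop)).contDiffWithinAt
  · exact ((sν _ (mem y h)).comp y (f := fun y => y / s) (by fun_prop)).contDiffWithinAt
  · have := eqs _ (mem y h)
    rw [hy] at this
    rw [Eqs, hA y h]
    exact this
  · have h' : y ∈ Ioo (-d) (4 + d) := ⟨by linarith [h.1], by linarith [h.2]⟩
    obtain ⟨b1, b2, b3, b4, b5⟩ := ineq _ ⟨div_nonneg h.1 s0.le, (mem y h').2⟩
    rw [hy] at b1 b4 b5
    rw [Rep, hA y h']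
    exact ⟨by linarith, by linarith, by linarith, by nlinarith, by nlinarith⟩
  · refine hend _ ⟨?_, ?_⟩
    · rw [le_div_iff₀ s0]; linarith
    · rw [div_le_iff₀ s0]; linarith

end Pool.Agent.MP_187b32_an.Prof

end MrgPart0

-- ======== part 1: formerly Pool.Agent.MP_187b32_an.Prof.Join
section MrgPart1

/-!
Gluing the pieces of the profile.
-/

open Set Filter Topology
open scoped ContDiff

namespace Pool.Agent.MP_187b32_an.Prof

variable {r s : ℝ}

lemma Seg.glue {b : ℝ} {S T : Set ℝ} {V V' : ℝ → ℝ} (h1 : Seg r s S V) (h2 : Seg r s T V')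
    (hS : ∀ x ∈ S, x ≤ b) (hT : ∀ x ∈ T, b ≤ x) (bS : b ∈ S) (bT : b ∈ T) (e : V b = V' b) :
    ∃ U, Seg r s (S ∪ T) U ∧ (∀ x ≤ b, U x = V x) ∧ ∀ x, b ≤ x → U x = V' x := by
  let U : ℝ → ℝ := fun x => if x ≤ b then V x else V' x
  have u1 : ∀ x ≤ b, U x = V x := fun x h => if_pos h
  have u2 : ∀ x, b ≤ x → U x = V' x := fun x h => by
    rcases h.eq_or_lt with rfl | h
    · rw [u1 _ le_rfl, e]
    · exact if_neg h.not_ge
  have l1 : Seg r s S U := fun x hx => by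
    rw [u1 x (hS x hx)]
    exact ⟨(h1 x hx).1.congr (fun y hy => u1 y (hS y hy)) (u1 x (hS x hx)), (h1 x hx).2⟩
  have l2 : Seg r s T U := fun x hx => by
    rw [u2 x (hT x hx)]
    exact ⟨(h2 x hx).1.congr (fun y hy => u2 y (hT y hy)) (u2 x (hT x hx)), (h2 x hx).2⟩
  refine ⟨U, fun x hx => ⟨?_, hx.elim (fun h => (l1 x h).2) fun h => (l2 x h).2⟩, u1, u2⟩
  rcases lt_trichotomy x b with h | rfl | h
  · exact (l1 x (hx.resolve_right fun k => (hT x k).not_gt h)).1.mono_of_mem_nhdsWithin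
      (mem_nhdsWithin.2 ⟨Iio b, isOpen_Iio, h, fun y hy =>
        hy.2.resolve_right fun k => (hT y k).not_gt hy.1⟩)
  · exact (l1 x bS).1.union (l2 x bT).1
  · exact (l2 x (hx.resolve_left fun k => (hS x k).not_gt h)).1.mono_of_mem_nhdsWithin
      (mem_nhdsWithin.2 ⟨Ioi b, isOpen_Ioi, h, fun y hy =>
        hy.2.resolve_left fun k => (hS y k).not_gt hy.1⟩)

lemma SideSol.seg {xs ε T δ : ℝ} {W : PowerSeries ℝ} {V : ℝ → ℝ} (hV : SideSol r s xs ε T δ W V)
    (hε : ε * ε = 1) (good : ∀ τ ∈ Ioc 0 T, Good r s (xs + ε * τ) (V τ)) {S : Set ℝ}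
    (hS : ∀ x ∈ S, ε * (x - xs) ∈ Ioc 0 T) : Seg r s S fun x => V (ε * (x - xs)) := fun x hx => by
  have e : xs + ε * (ε * (x - xs)) = x := by linear_combination (x - xs) * hε
  have a1 := (hV.der _ (hS x hx)).comp x
    (((hasDerivAt_id x).sub_const xs).const_mul ε).hasDerivWithinAt (s := S)
    fun y hy => (hS y hy).2
  have a2 := hV.ne _ (hS x hx)
  have a3 := good _ (hS x hx)
  rw [e] at a1 a2 a3
  refine ⟨?_, a2, a3⟩
  refine HasDerivWithinAt.congr_deriv a1 ?_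
  linear_combination (NN r s x (V (ε * (x - xs))) / MM r s x (V (ε * (x - xs)))) * hε

lemma Seg.smooth {S O : Set ℝ} {V U : ℝ → ℝ} (h : Seg r s S V) (hO : IsOpen O) (hOS : O ⊆ S)
    (e : ∀ x ∈ O, U x = V x) : ∀ x ∈ O, ContDiffAt ℝ ∞ U x ∧
      MM r s x (U x) * deriv U x = NN r s x (U x) ∧ Good r s x (U x) := by
  have hd : ∀ x ∈ O, HasDerivAt V (NN r s x (V x) / MM r s x (V x)) x := fun x hx =>
    (h x (hOS hx)).1.hasDerivAt (mem_of_superset (hO.mem_nhds hx) hOS)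
  have hs : ContDiffOn ℝ ∞ V O := contDiffOn_infty.2 fun n => by
    induction n with
    | zero => exact contDiffOn_zero.2 fun x hx => (hd x hx).continuousAt.continuousWithinAt
    | succ n ih =>
      rw [Nat.cast_succ]
      refine (contDiffOn_succ_iff_deriv_of_isOpen hO).2
        ⟨fun x hx => (hd x hx).differentiableAt.differentiableWithinAt, by simp, ?_⟩
      refine ContDiffOn.congr (ContDiffOn.div (f := fun x => NN r s x (V x))
        (g := fun x => MM r s x (V x)) ?_ ?_ fun x hx => (h x (hOS hx)).2.1)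
        fun x hx => (hd x hx).deriv
      · simp only [NN]; fun_prop
      · simp only [MM, mm, b3]; fun_prop
  intro x hx
  have ee : U =ᶠ[𝓝 x] V := mem_of_superset (hO.mem_nhds hx) e
  rw [ee.deriv_eq, e x hx, (hd x hx).deriv]
  refine ⟨(hs.contDiffAt (hO.mem_nhds hx)).congr_of_eventuallyEq ee, ?_, (h x (hOS hx)).2.2⟩
  have := (h x (hOS hx)).2.1
  field_simp

lemma ser_smooth {xs ν R x : ℝ} {W : PowerSeries ℝ} (hν : 0 < ν)
    (h : ∀ n, |W.coeff n| * ν ^ n ≤ R) (hs : res r s xs W = 0) {U : ℝ → ℝ} (hx : |x - xs| < ν)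
    (e : U =ᶠ[𝓝 x] fun y => ev W (y - xs)) : ContDiffAt ℝ ∞ U x ∧
      MM r s x (U x) * deriv U x = NN r s x (U x) ∧ (x = xs → deriv U x = W.coeff 1) := by
  obtain ⟨v, h1, h2⟩ := ev_ode hν h hs hx
  have h3 : HasDerivAt (fun y => ev W (y - xs)) v x := h1.comp_sub_const x xs
  rw [add_sub_cancel] at h2
  rw [e.deriv_eq, e.eq_of_nhds, h3.deriv]
  refine ⟨ContDiffAt.congr_of_eventuallyEq ?_ e, h2, fun k => ?_⟩
  · exact ((ev_analytic hν h hx).contDiffAt).comp x (f := fun y => y - xs) (by fun_prop)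
  · obtain ⟨v', h4, h5⟩ := ev_deriv hν h hx
    rw [h1.unique h4, ← h5.2, k, sub_self, ev_zero]
    simp [PowerSeries.coeff_derivative]

theorem assemble {Wo Ws : PowerSeries ℝ} {Vo Vl Vr V : ℝ → ℝ} {νo Ro νs Rs δo δl δr xe : ℝ}
    (r1 : 11127 / 10000 ≤ r) (r2 : r ≤ 11129 / 10000) (s1 : 149 / 100 < s) (s2 : s < 3 / 2)
    (ho : 0 < νo) (bo : ∀ n, |Wo.coeff n| * νo ^ n ≤ Ro) (so : res r s 0 Wo = 0)
    (hs : 0 < νs) (bs : ∀ n, |Ws.coeff n| * νs ^ n ≤ Rs) (ss : res r s 1 Ws = 0)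
    (do1 : 0 < δo) (do2 : δo < 7 / 8) (dl : 0 < δl) (dr : 0 < δr) (dr2 : δr < 1 / 8)
    (So : SideSol r s 0 1 (7 / 8) δo Wo Vo) (Sl : SideSol r s 1 (-1) (1 / 8) δl Ws Vl)
    (Sr : SideSol r s 1 1 (1 / 8) δr Ws Vr)
    (g0 : Good r s 0 (Wo.coeff 0)) (go : ∀ τ ∈ Ioc 0 (7 / 8 : ℝ), Good r s (0 + 1 * τ) (Vo τ))
    (gl : ∀ τ ∈ Ioc 0 (1 / 8 : ℝ), Good r s (1 + -1 * τ) (Vl τ))
    (gr : ∀ τ ∈ Ioc 0 (1 / 8 : ℝ), Good r s (1 + 1 * τ) (Vr τ))
    (e1 : Vo (7 / 8) = Vl (1 / 8)) (e2 : Vr (1 / 8) = V (9 / 8)) (hxe : 27 / 10 ≤ xe)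
    (hV : Seg r s (Icc (9 / 8) xe) V)
    (hend : ∀ x ∈ Icc (5 / 2 : ℝ) (27 / 10), -17 / 100 ≤ V x ∧ V x ≤ -1 / 8)
    (h1 : 3 - 2 * s * (1 + Ws.coeff 0) * Ws.coeff 1 ≠ 0) : InnerStmt := by
  obtain ⟨L, l1, l2, l3⟩ := (So.seg (by norm_num) go (S := Ioc 0 (7 / 8))
    (fun x hx => by simpa using hx)).glue (Sl.seg (by norm_num) gl (S := Ico (7 / 8) 1)
    fun x hx => ⟨by linarith [hx.2], by linarith [hx.1]⟩) (b := 7 / 8) (fun x hx => hx.2)
    (fun x hx => hx.1) (by norm_num) (by norm_num) (by norm_num [e1])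
  obtain ⟨M, m1, m2, m3⟩ := (Sr.seg (by norm_num) gr (S := Ioc 1 (9 / 8))
    fun x hx => ⟨by linarith [hx.1], by linarith [hx.2]⟩).glue hV (b := 9 / 8) (fun x hx => hx.2)
    (fun x hx => hx.1) (by norm_num) ⟨le_rfl, by linarith⟩ (by norm_num [← e2])
  let U : ℝ → ℝ := fun x => if x ≤ 1 then L x else M x
  have a1 := l1.smooth (U := U) (O := Ioo 0 1) isOpen_Ioo (fun x hx => by
    rcases le_total x (7 / 8) with h | h
    · exact Or.inl ⟨hx.1, h⟩
    · exact Or.inr ⟨h, hx.2⟩) fun x hx => if_pos hx.2.le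
  have a2 := m1.smooth (U := U) (O := Ioo 1 xe) isOpen_Ioo (fun x hx => by
    rcases le_total x (9 / 8) with h | h
    · exact Or.inl ⟨hx.1, h⟩
    · exact Or.inr ⟨h, hx.2.le⟩) fun x hx => if_neg hx.1.not_ge
  have b0 : ∀ x < δo, U x = ev Wo (x - 0) := fun x hx => by
    simp only [U]
    rw [if_pos (by linarith), l2 x (by linarith), So.eq _ (by linarith)]
    simp
  have a0 : ∀ x ∈ Ioc (-νo) 0, ContDiffAt ℝ ∞ U x ∧
      MM r s x (U x) * deriv U x = NN r s x (U x) ∧ (x = 0 → deriv U x = Wo.coeff 1) :=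
    fun x hx => ser_smooth ho bo so (by rw [sub_zero, abs_of_nonpos hx.2]; linarith [hx.1])
      (mem_of_superset (Iio_mem_nhds (hx.2.trans_lt do1)) b0)
  have b1 : U =ᶠ[𝓝 1] fun y => ev Ws (y - 1) := by
    filter_upwards [Ioo_mem_nhds (show max (7 / 8) (1 - δl) < 1 from max_lt (by norm_num)
      (by linarith)) (show 1 < 1 + δr by linarith)] with x hx
    have k1 := (max_lt_iff.1 hx.1).1
    have k2 := (max_lt_iff.1 hx.1).2
    simp only [U]
    split_ifs with h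
    · rw [l3 x k1.le, Sl.eq _ (by linarith)]
      simp
    · rw [m2 x (by linarith [hx.2]), Sr.eq _ (by linarith [hx.2])]
      simp
  obtain ⟨c1, c2, c3⟩ := ser_smooth hs bs ss (x := 1) (by simpa using hs) b1
  have key : ∀ x ∈ Ioo (-νo) xe, ContDiffAt ℝ ∞ U x ∧
      MM r s x (U x) * deriv U x = NN r s x (U x) := fun x hx => by
    rcases le_or_gt x 0 with h | h
    · exact ⟨(a0 x ⟨hx.1, h⟩).1, (a0 x ⟨hx.1, h⟩).2.1⟩
    · rcases lt_trichotomy x 1 with k | rfl | k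
      · exact ⟨(a1 x ⟨h, k⟩).1, (a1 x ⟨h, k⟩).2.1⟩
      · exact ⟨c1, c2⟩
      · exact ⟨(a2 x ⟨k, hx.2⟩).1, (a2 x ⟨k, hx.2⟩).2.1⟩
  refine inner_of (W := U) r1 r2 s1 s2 ho hxe (fun x hx => (key x hx).1)
    (fun x hx _ => (key x hx).2) (fun x hx x1 => ?_) ?_ fun x hx => ?_
  · rcases hx.1.eq_or_lt with rfl | h
    · rwa [b0 0 do1, sub_zero, ev_zero]
    · rcases lt_or_gt_of_ne x1 with k | k
      · exact (a1 x ⟨h, k⟩).2.2
      · exact (a2 x ⟨k, hx.2⟩).2.2
  · rwa [c3 rfl, b1.eq_of_nhds, sub_self, ev_zero]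
  · simp only [U]
    rw [if_neg (by linarith [hx.1]), m3 x (by linarith [hx.1])]
    exact hend x hx

end Pool.Agent.MP_187b32_an.Prof

end MrgPart1

-- marker of a merged file
example : 731051 + 280878 = 731051 + 280878 := rfl

end MrgPart4

-- ======== part 5: formerly Pool.Agent.MP_187b32_an.PD.Small.Loc
section MrgPart5

/-!
The profile equation `M(x, W) W' = N(x, W)` in dimension `d`, in the variable `x = s / s₀`, and its
power series solutions at the origin `x = 0` and at the sonic point `x = 1`.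
-/

open PowerSeries

namespace Pool.Agent.MP_187b32_an.PD.Small

open Prof

section Ring

variable {R : Type} [CommRing R]

def b3 (d r w : R) : R := d * r + w * (2 * d + (d - 1) * r + (2 * d - 1) * w)
def mm (d r s x w : R) : R := d - s * x * b3 d r w
def MM (d r s x w : R) : R := 2 * x * mm d r s x w
def NN (d r s x w : R) : R := d * (s * x * (w * ((1 + w) * (r + w))) - d * (r - 1 + w))
def nn (d r w : R) : R := b3 d r w - d * ((1 + w) * (1 + w))

def eb3 : Ex := .var 5 * .var 3 + .var 1 * (.int 2 * .var 5 + (.var 5 - .int 1) * .var 3 +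
  (.int 2 * .var 5 - .int 1) * .var 1)
def em : Ex := .var 5 - .var 4 * .var 0 * eb3
def eM : Ex := .int 2 * .var 0 * em
def eN : Ex := .var 5 * (.var 4 * .var 0 * (.var 1 * ((.int 1 + .var 1) * (.var 3 + .var 1))) -
  .var 5 * (.var 3 - .int 1 + .var 1))
def eR : Ex := eM * .var 2 - eN
def en : Ex := eb3 - .var 5 * ((.int 1 + .var 1) * (.int 1 + .var 1))

variable (x w v r s d : R)

lemma ev_em : em.ev [x, w, v, r, s, d] = mm d r s x w := by simp [em, eb3, mm, b3]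
lemma ev_eM : eM.ev [x, w, v, r, s, d] = MM d r s x w := by simp [eM, ev_em, MM]
lemma ev_eN : eN.ev [x, w, v, r, s, d] = NN d r s x w := by simp [eN, NN]
lemma ev_eR : eR.ev [x, w, v, r, s, d] = MM d r s x w * v - NN d r s x w := by
  simp [eR, ev_eM, ev_eN]
lemma ev_eD : eD.ev [x, w, v, r, s, d] = DD s x w := by simp [eD, DD]
lemma ev_en : en.ev [x, w, v, r, s, d] = nn d r w := by simp [en, eb3, nn, b3]

/-- The equation for the slope `g` at the sonic point. -/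
def slopeEq (d r s w g : R) : R :=
  g * (d * (2 + d)) + s * (g * (g * (d * ((-4)))) + w * (g * (d * ((-10)) + g * (4 + d * ((-8))))
    + w * (d * ((-1)) + g * (4 + d * ((-11))) + w * (d * ((-1)))))) + r * (s * (g * (d * ((-5)) +
    g * (2 + d * ((-2)))) + w * (d * ((-1)) + g * (4 + d * ((-6))) + w * (d * ((-1))))))

def lamS (d r s w g : R) : R :=
  d * (2) + s * (g * (d * ((-4))) + w * (d * ((-8)) + g * (4 + d * ((-8))) + w * (4 + d *
    ((-8))))) + r * (s * (d * ((-4)) + g * (2 + d * ((-2))) + w * (4 + d * ((-4)))))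

def alS (d r s w g : R) : R :=
  d * (4 + d) + s * (g * (d * ((-12))) + w * (d * ((-18)) + g * (12 + d * ((-24))) + w * (8 + d *
    ((-19))))) + r * (s * (d * ((-9)) + g * (6 + d * ((-6))) + w * (8 + d * ((-10)))))

def fS (d r s w g : R) : R :=
  s * (g * (g * (d * (9) + g * ((-2) + d * (4)))) + w * (g * (d * (6) + g * ((-8) + d * (19))) + w
    * (g * ((-2) + d * (7))))) + r * (s * (g * (d * (3) + g * ((-4) + d * (5))) + w * (g * ((-2) +
    d * (4)))))

def eS1 : Ex :=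
  .var 3 * (.var 5 * (.var 5 * (.var 6 * (.int 5) + .var 5 * (.int (-4) + .var 6 * (.int 9)))) +
    .var 4 * (.var 5 * (.var 5 * (.int (-4) + .var 6 * (.int 11))))) + .var 2 * (.var 3 * (.var 5
    * (.var 5 * (.int (-2) + .var 6 * (.int 3))))) + .var 1 * (.var 3 * (.var 5 * (.var 6 * (.int
    26) + .var 5 * (.int (-8) + .var 6 * (.int 16))) + .var 4 * (.var 6 * (.int 10) + .var 5 *
    (.int (-24) + .var 6 * (.int 54)) + .var 4 * (.int (-4) + .var 6 * (.int 11)))) + .var 2 *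
    (.var 3 * (.var 6 * (.int 5) + .var 5 * (.int (-12) + .var 6 * (.int 14)) + .var 4 * (.int
    (-4) + .var 6 * (.int 6)))) + .var 1 * (.var 3 * (.var 6 * (.int 8) + .var 4 * (.int (-8) +
    .var 6 * (.int 16))) + .var 2 * (.var 3 * (.int (-4) + .var 6 * (.int 4))))) + .var 0 * (.var
    3 * (.var 5 * (.var 5 * (.var 5 * (.int (-2) + .var 6 * (.int 5))))) + .var 1 * (.var 3 *
    (.var 5 * (.var 6 * (.int 14) + .var 5 * (.int (-16) + .var 6 * (.int 35))) + .var 4 * (.var 5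
    * (.int (-12) + .var 6 * (.int 30)))) + .var 2 * (.var 3 * (.var 5 * (.int (-6) + .var 6 *
    (.int 8)))) + .var 1 * (.var 3 * (.var 6 * (.int 17) + .var 5 * (.int (-10) + .var 6 * (.int
    20)) + .var 4 * (.int (-16) + .var 6 * (.int 35))) + .var 2 * (.var 3 * (.int (-8) + .var 6 *
    (.int 9))))) + .var 0 * (.var 1 * (.var 3 * (.var 5 * (.var 5 * (.int (-8) + .var 6 * (.int
    19)))) + .var 1 * (.var 3 * (.var 6 * (.int 9) + .var 5 * (.int (-20) + .var 6 * (.int 43)) +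
    .var 4 * (.int (-8) + .var 6 * (.int 19))) + .var 2 * (.var 3 * (.int (-4) + .var 6 * (.int
    5))) + .var 1 * (.var 3 * (.int (-4) + .var 6 * (.int 8))))) + .var 0 * (.var 1 * (.var 1 *
    (.var 3 * (.var 5 * (.int (-10) + .var 6 * (.int 23))) + .var 1 * (.var 3 * (.int (-8) + .var
    6 * (.int 17))))) + .var 0 * (.var 1 * (.var 1 * (.var 1 * (.var 3 * (.int (-4) + .var 6 *
    (.int 9)))))))))

def eS3 : Ex :=
  .var 3 * (.var 5 * (.var 6 * (.int 8) + .var 5 * (.int (-2) + .var 6 * (.int 4))) + .var 4 *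
    (.var 6 * (.int 4) + .var 5 * (.int (-8) + .var 6 * (.int 16)) + .var 4 * (.int (-2) + .var 6
    * (.int 4)))) + .var 2 * (.var 3 * (.var 6 * (.int 2) + .var 5 * (.int (-4) + .var 6 * (.int
    4)) + .var 4 * (.int (-2) + .var 6 * (.int 2)))) + .var 1 * (.var 3 * (.var 6 * (.int 4) +
    .var 4 * (.int (-4) + .var 6 * (.int 8))) + .var 2 * (.var 3 * (.int (-2) + .var 6 * (.int
    2)))) + .var 0 * (.var 3 * (.var 5 * (.var 6 * (.int 4) + .var 5 * (.int (-4) + .var 6 * (.int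
    8))) + .var 4 * (.var 5 * (.int (-4) + .var 6 * (.int 8)))) + .var 2 * (.var 3 * (.var 5 *
    (.int (-2) + .var 6 * (.int 2)))) + .var 1 * (.var 3 * (.var 6 * (.int 8) + .var 5 * (.int
    (-4) + .var 6 * (.int 8)) + .var 4 * (.int (-8) + .var 6 * (.int 16))) + .var 2 * (.var 3 *
    (.int (-4) + .var 6 * (.int 4)))) + .var 0 * (.var 3 * (.var 5 * (.var 5 * (.int (-2) + .var 6
    * (.int 4)))) + .var 1 * (.var 3 * (.var 6 * (.int 4) + .var 5 * (.int (-8) + .var 6 * (.int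
    16)) + .var 4 * (.int (-4) + .var 6 * (.int 8))) + .var 2 * (.var 3 * (.int (-2) + .var 6 *
    (.int 2))) + .var 1 * (.var 3 * (.int (-2) + .var 6 * (.int 4)))) + .var 0 * (.var 1 * (.var 3
    * (.var 5 * (.int (-4) + .var 6 * (.int 8))) + .var 1 * (.var 3 * (.int (-4) + .var 6 * (.int
    8)))) + .var 0 * (.var 1 * (.var 1 * (.var 3 * (.int (-2) + .var 6 * (.int 4))))))))

lemma sonic_identity (X y z r s w g d : R) :
    MM d r s (1 + X) (w + g * X + X ^ 2 * y) * (g + X * (2 * y + z)) -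
      NN d r s (1 + X) (w + g * X + X ^ 2 * y) =
    MM d r s 1 w * (g + X * (2 * y + z)) - NN d r s 1 w + X * slopeEq d r s w g +
      X ^ 2 * (lamS d r s w g * z + alS d r s w g * y - fS d r s w g -
        X * (eS1.ev [X, y, r, s, w, g, d] + eS3.ev [X, y, r, s, w, g, d] * z)) := by
  simp [eS1, eS3, MM, NN, mm, b3, slopeEq, lamS, alS, fS]
  ring

def eO1 : Ex := .var 4 * .var 3 * (.var 1 * ((.int 1 + .var 1) * (.var 2 + .var 1)))
def eO3 : Ex := .int 2 * .var 3 * (.var 4 * .var 2 + .var 1 * (.int 2 * .var 4 +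
  (.var 4 - .int 1) * .var 2 + (.int 2 * .var 4 - .int 1) * .var 1))

lemma origin_identity (X y v r s d : R) :
    MM d r s X y * v - NN d r s X y = 2 * d * (X * v) + d * d * y - d * d * (1 - r) -
      X * (eO1.ev [X, y, r, s, d] + eO3.ev [X, y, r, s, d] * (X * v)) := by
  simp [eO1, eO3, MM, NN, mm, b3]
  ring

end Ring

/-- The residual of a power series centred at `xs`. -/
noncomputable def res (d r s xs : ℝ) (Z : ℝ⟦X⟧) : ℝ⟦X⟧ :=
  eR.ev [C xs + X, Z, d⁄dX ℝ Z, C r, C s, C d]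

/-- The residual of a series that agrees with `W` below order `n`. -/
def Jet (d r s xs : ℝ) (W : ℝ⟦X⟧) (n : ℕ) : Prop :=
  ∃ γ : ℝ, ∀ Z : ℝ⟦X⟧, X ^ n ∣ Z - W →
    X ^ (n + 1) ∣ res d r s xs Z - C (γ * (coeff n Z - coeff n W)) * X ^ n

/-- A power series solution centred at `xs`, depending continuously on a parameter. -/
structure Loc {P : Type} [TopologicalSpace P] (d : ℝ) (r s : P → ℝ) (xs : ℝ)
    (W : P → ℝ⟦X⟧) (ν R : ℝ) (n0 : ℕ) : Prop where
  pos : 0 < ν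
  bd : ∀ p n, |coeff n (W p)| * ν ^ n ≤ R
  cont : ∀ n, Continuous fun p => coeff n (W p)
  sol : ∀ p, res d (r p) (s p) xs (W p) = 0
  jet : ∀ p n, n0 ≤ n → Jet d (r p) (s p) xs (W p) n

variable {P : Type} [TopologicalSpace P] [CompactSpace P] {r s w g : P → ℝ} {d : ℝ}

theorem exists_origin (hd : 1 ≤ d) (hr : Continuous r) (hs : Continuous s) :
    ∃ W ν R, Loc d r s 0 W ν R 0 := by
  obtain ⟨ν, R, y, h0, h1, h2, h3⟩ := briot_bouquet eO1 eO3 (πs := [r, s, fun _ => d])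
    (by simp [hr, hs, continuous_const]) (lam := fun _ => 2 * d) (α := fun _ => d * d)
    (f0 := fun p => d * d * (1 - r p)) continuous_const continuous_const (by fun_prop) one_pos
    fun p n => by
      rw [abs_of_nonneg (by positivity)]
      nlinarith [(n.cast_nonneg : (0 : ℝ) ≤ n)]
  have e : ∀ p Z, res d (r p) (s p) 0 Z = C (2 * d) * th Z + C (d * d) * Z -
      C (d * d * (1 - r p)) - X * rhs eO1 eO3 ([r, s, fun _ => d].map fun f => f p) Z :=
    fun p Z => by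
    rw [res, ev_eR, map_zero, zero_add, origin_identity]
    simp [rhs, th, map_ofNat]
  refine ⟨y, ν, R, h0, h1, h2, fun p => ?_, fun p n _ => ⟨2 * d * n + d * d, fun Z hZ => ?_⟩⟩
  · rw [e]; linear_combination h3 p
  · rw [e]; exact jet_aux (h3 p) hZ

lemma nonres {l a : ℝ} {m : ℕ} (h1 : l ≤ -1) (h2 : 1 / 100 ≤ l * m + a)
    (h3 : l * (m + 1) + a ≤ -1 / 100) (n : ℕ) : 1 / 100 / (m + 2) * (n + 1) ≤ |l * n + a| := by
  have m0 : (0 : ℝ) < m + 2 := by positivity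
  rw [div_mul_eq_mul_div, div_le_iff₀ m0]
  rcases le_or_gt n m with h | h
  · have : (n : ℝ) ≤ m := by exact_mod_cast h
    have k : 1 / 100 ≤ |l * n + a| := le_abs.2 (Or.inl (by nlinarith))
    nlinarith
  · have : (m : ℝ) + 1 ≤ n := by exact_mod_cast h
    have k : 1 / 100 + (n - (m + 1)) ≤ |l * n + a| := le_abs.2 (Or.inr (by nlinarith))
    nlinarith [(m.cast_nonneg : (0 : ℝ) ≤ m)]

theorem exists_sonic (hr : Continuous r) (hs : Continuous s) (hw : Continuous w)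
    (hg : Continuous g) (e1 : ∀ p, MM d (r p) (s p) 1 (w p) = 0)
    (e2 : ∀ p, NN d (r p) (s p) 1 (w p) = 0) (e3 : ∀ p, slopeEq d (r p) (s p) (w p) (g p) = 0)
    {c : ℝ} (hc : 0 < c) (hl : ∀ p (n : ℕ), c * (n + 1) ≤
      |lamS d (r p) (s p) (w p) (g p) * n + alS d (r p) (s p) (w p) (g p)|) :
    ∃ W ν R, Loc d r s 1 W ν R 2 ∧ ∀ p, coeff 0 (W p) = w p ∧ coeff 1 (W p) = g p := by
  obtain ⟨ν, R, y, h0, h1, h2, h3⟩ := briot_bouquet eS1 eS3 (πs := [r, s, w, g, fun _ => d])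
    (by simp [hr, hs, hw, hg, continuous_const]) (lam := fun p => lamS d (r p) (s p) (w p) (g p))
    (α := fun p => alS d (r p) (s p) (w p) (g p)) (f0 := fun p => fS d (r p) (s p) (w p) (g p))
    (by unfold lamS; fun_prop) (by unfold alS; fun_prop) (by unfold fS; fun_prop) hc hl
  have e : ∀ p z, res d (r p) (s p) 1 (C (w p) + C (g p) * X + X ^ 2 * z) =
      X ^ 2 * (C (lamS d (r p) (s p) (w p) (g p)) * th z + C (alS d (r p) (s p) (w p) (g p)) * z -
        C (fS d (r p) (s p) (w p) (g p)) - X * rhs eS1 eS3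
        ([r, s, w, g, fun _ => d].map fun f => f p) z) := by
    intro p z
    have dd : d⁄dX ℝ (C (w p) + C (g p) * X + X ^ 2 * z) = C (g p) + X * (2 * z + th z) := by
      simp [th, Derivation.leibniz, Derivation.leibniz_pow]
      ring
    have a1 : MM (C d) (C (r p)) (C (s p)) 1 (C (w p)) = (0 : ℝ⟦X⟧) := by
      simpa [MM, mm, b3, map_ofNat] using congrArg (C (R := ℝ)) (e1 p)
    have a2 : NN (C d) (C (r p)) (C (s p)) 1 (C (w p)) = (0 : ℝ⟦X⟧) := by
      simpa [NN, map_ofNat] using congrArg (C (R := ℝ)) (e2 p)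
    have a3 : slopeEq (C d) (C (r p)) (C (s p)) (C (w p)) (C (g p)) = (0 : ℝ⟦X⟧) := by
      simpa [slopeEq, map_ofNat] using congrArg (C (R := ℝ)) (e3 p)
    rw [res, ev_eR, dd, map_one, sonic_identity, a1, a2, a3]
    simp [rhs, lamS, alS, fS, map_ofNat]
  obtain ⟨B, hB⟩ := isCompact_univ.exists_bound_of_continuousOn
    (f := fun p => |w p| + |g p| * ν) (by fun_prop)
  have c0 : ∀ p z, coeff 0 (C (w p) + C (g p) * X + X ^ 2 * z) = w p := fun p z => by simp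
  have c1 : ∀ p z, coeff 1 (C (w p) + C (g p) * X + X ^ 2 * z) = g p := fun p z => by
    simp [coeff_C, coeff_X_pow_mul']
  have c2 : ∀ p z n, coeff (n + 2) (C (w p) + C (g p) * X + X ^ 2 * z) = coeff n z :=
    fun p z n => by simp [coeff_X_pow_mul]
  refine ⟨fun p => C (w p) + C (g p) * X + X ^ 2 * y p, ν, max B (R * ν ^ 2),
    ⟨h0, fun p n => ?_, fun n => ?_, fun p => ?_, fun p n hn => ?_⟩, fun p => ⟨c0 p _, c1 p _⟩⟩
  · have hb := (le_abs_self _).trans (hB p trivial)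
    have := mul_nonneg (abs_nonneg (g p)) h0.le
    rcases n with _ | _ | n
    · exact le_max_of_le_left (by rw [c0]; linarith)
    · exact le_max_of_le_left (by rw [zero_add, c1]; linarith [abs_nonneg (w p)])
    · refine le_max_of_le_right ?_
      rw [c2, pow_add, pow_add, mul_assoc (ν ^ n), ← mul_assoc, ← pow_add]
      exact mul_le_mul_of_nonneg_right (h1 p n) (by positivity)
  · rcases n with _ | _ | n
    · simpa only [c0] using hw
    · simpa only [zero_add, c1] using hg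
    · exact (h2 n).congr fun p => (c2 p _ n).symm
  · rw [e]; linear_combination X ^ 2 * h3 p
  · obtain ⟨m, rfl⟩ := Nat.exists_eq_add_of_le' hn
    refine ⟨lamS d (r p) (s p) (w p) (g p) * m + alS d (r p) (s p) (w p) (g p), fun Z ⟨u, hu⟩ => ?_⟩
    have hZ : Z = C (w p) + C (g p) * X + X ^ 2 * (y p + X ^ m * u) := by
      linear_combination hu
    rw [hZ, e, c2, c2]
    convert mul_dvd_mul_left (X ^ 2) (jet_aux (h3 p) (z := y p + X ^ m * u) (m := m) (by simp))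
      using 1 <;> ring

end Pool.Agent.MP_187b32_an.PD.Small

end MrgPart5

-- marker of a merged file
example : 731051 + 122924 = 731051 + 122924 := rfl
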