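import Pool.Agent.MP_187b32_an.PD.Small.K5f

/-!
Kernel evaluation of the checks in dimension 3.
-/

namespace Pool.Agent.MP_187b32_an.PD.Small.D3

open Prof

theorem hA1 : dA.ok1 G = true := by decide +kernel
theorem hA2 : dA.ok2 G = true := by decide +kernel
theorem hA3 : dA.ok3 G = true := by decide +kernel

end Pool.Agent.MP_187b32_an.PD.Small.D3
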