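import Pool.Agent.MP_187b32_an.PD.Small.K5f

/-!
Kernel evaluation of the checks in dimension 3.
-/

namespace Pool.Agent.MP_187b32_an.PD.Small.D3

open Prof

theorem hA4 : dA.ok4 G = true := by decide +kernel
theorem hA5 : dA.ok5 G = true := by decide +kernel

end Pool.Agent.MP_187b32_an.PD.Small.D3
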