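import Pool.Agent.MP_187b32_an.PD.Small.K3a
import Pool.Agent.MP_187b32_an.PD.Small.K3b
import Pool.Agent.MP_187b32_an.PD.Small.K3c
import Pool.Agent.MP_187b32_an.PD.Small.K3d
import Pool.Agent.MP_187b32_an.PD.Small.K5f

/-!
The inner part of the profile in dimension 3.
-/

namespace Pool.Agent.MP_187b32_an.PD.Small.D3

open Prof

theorem main : ∃ r y, Mem r dA.rB ∧ Mem y u ∧ Inner (1 / G.d) r 1 y :=
  inner_dat (S := S) (σ := 1) (by decide +kernel) ⟨hA1, hA2, hA3, bA⟩ ⟨h11, h12, h13, b1⟩ ⟨h21,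
    h22, h23, b2⟩ hA4 hA5 aL bR rR (by decide +kernel) (by decide +kernel) (by decide +kernel)

end Pool.Agent.MP_187b32_an.PD.Small.D3
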