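import Pool.Agent.MP_187b32_an.PD.Small.K2g

-- ======== part 0: formerly Pool.Agent.MP_187b32_an.PD.Small.K2e
section MrgPart0

/-!
Kernel evaluation of the checks in dimension 2.
-/

namespace Pool.Agent.MP_187b32_an.PD.Small.D2

open Prof

theorem bR : Bars (bint G.d) dA.rB dA.sB (-1) Rt (sc + G.T) (dA.vr G) :=
  ⟨by decide +kernel, by decide +kernel, by decide +kernel, by decide +kernel, by decide +kernel,
    by decide +kernel, by decide +kernel, by decide +kernel, by decide +kernel, by decide +kernel,
    trivial⟩

theorem rR : Regs (bint G.d) dA.rB dA.sB (-1) Rt :=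
  ⟨by decide +kernel, by decide +kernel, by decide +kernel, by decide +kernel, by decide +kernel,
    trivial⟩

end Pool.Agent.MP_187b32_an.PD.Small.D2

end MrgPart0

-- ======== part 1: formerly Pool.Agent.MP_187b32_an.PD.Small.K5e
section MrgPart1

/-!
Kernel evaluation of the checks in dimension 5.
-/

namespace Pool.Agent.MP_187b32_an.PD.Small.D5

open Prof

theorem bR : Bars (bint G.d) dA.rB dA.sB (-1) Rt (sc + G.T) (dA.vr G) :=
  ⟨by decide +kernel, by decide +kernel, by decide +kernel, by decide +kernel, by decide +kernel,
    by decide +kernel, by decide +kernel, by decide +kernel, trivial⟩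

theorem rR : Regs (bint G.d) dA.rB dA.sB (-1) Rt :=
  ⟨by decide +kernel, by decide +kernel, by decide +kernel, by decide +kernel, trivial⟩

end Pool.Agent.MP_187b32_an.PD.Small.D5

end MrgPart1

-- marker of a merged file
example : 731051 + 611596 = 731051 + 611596 := rfl
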