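import Pool.Agent.MP_187b32_an.PD.Small.M2
import Pool.Agent.MP_187b32_an.PD.Small.M3
import Pool.Agent.MP_187b32_an.PD.Small.M4
import Pool.Agent.MP_187b32_an.PD.Small.M5

/-!
The inner part of the profile in the dimensions two to five.
-/

namespace Pool.Agent.MP_187b32_an.PD.Small

open Prof

theorem inner2 : ∃ r y1 : ℝ, 10369 / 10000 ≤ r ∧ r ≤ 10371 / 10000 ∧ -83 / 1000 ≤ y1 ∧
    y1 ≤ -80 / 1000 ∧ Inner (1 / 2) r 1 y1 := by
  obtain ⟨r, y, h1, h2, h3⟩ := D2.main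
  have a := abs_le.1 h1
  have b := abs_le.1 h2
  norm_num [D2.dA, D2.u, sc] at a b
  exact ⟨r, y, by linarith [a.1], by linarith [a.2], by linarith [b.1], by linarith [b.2],
    by simpa [D2.G] using h3⟩

theorem inner3 : ∃ r y1 : ℝ, 11127 / 10000 ≤ r ∧ r ≤ 11129 / 10000 ∧ -171 / 1000 ≤ y1 ∧
    y1 ≤ -168 / 1000 ∧ Inner (1 / 3) r 1 y1 := by
  obtain ⟨r, y, h1, h2, h3⟩ := D3.main
  have a := abs_le.1 h1
  have b := abs_le.1 h2
  norm_num [D3.dA, D3.u, sc] at a b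
  exact ⟨r, y, by linarith [a.1], by linarith [a.2], by linarith [b.1], by linarith [b.2],
    by simpa [D3.G] using h3⟩

theorem inner4 : ∃ r y1 : ℝ, 11599 / 10000 ≤ r ∧ r ≤ 11601 / 10000 ∧ -200 / 1000 ≤ y1 ∧
    y1 ≤ -196 / 1000 ∧ Inner (1 / 4) r 1 y1 := by
  obtain ⟨r, y, h1, h2, h3⟩ := D4.main
  have a := abs_le.1 h1
  have b := abs_le.1 h2
  norm_num [D4.dA, D4.u, sc] at a b
  exact ⟨r, y, by linarith [a.1], by linarith [a.2], by linarith [b.1], by linarith [b.2],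
    by simpa [D4.G] using h3⟩

theorem inner5 : ∃ r y1 : ℝ, 11923 / 10000 ≤ r ∧ r ≤ 11925 / 10000 ∧ -212 / 1000 ≤ y1 ∧
    y1 ≤ -208 / 1000 ∧ Inner (1 / 5) r 1 y1 := by
  obtain ⟨r, y, h1, h2, h3⟩ := D5.main
  have a := abs_le.1 h1
  have b := abs_le.1 h2
  norm_num [D5.dA, D5.u, sc] at a b
  exact ⟨r, y, by linarith [a.1], by linarith [a.2], by linarith [b.1], by linarith [b.2],
    by simpa [D5.G] using h3⟩

end Pool.Agent.MP_187b32_an.PD.Small
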