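import Pool.Agent.MP_187b32_an.PD.Small.Loc

-- ======== part 0: formerly Pool.Agent.MP_187b32_an.PD.Small.Chk
section MrgPart0

/-!
Polynomial barriers around a power series solution, checked by ball arithmetic.
-/

open Polynomial Set

namespace Pool.Agent.MP_187b32_an.PD.Small

open Prof

/-- The environment of a polynomial centred at `xs`. -/
noncomputable def envP (d r s xs : ℝ) (H : ℝ[X]) : List ℝ[X] :=
  [C xs + X, H, derivative H, C r, C s, C d]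

lemma eval_envP (e : Ex) (d r s xs : ℝ) (H : ℝ[X]) (t : ℝ) :
    (e.ev (envP d r s xs H)).eval t = e.ev [xs + t, H.eval t, H.derivative.eval t, r, s, d] := by
  simpa [envP] using e.map (evalRingHom t) (envP d r s xs H)

lemma coe_res (d r s xs : ℝ) (H : ℝ[X]) :
    ((eR.ev (envP d r s xs H) : ℝ[X]) : PowerSeries ℝ) = res d r s xs H := by
  simpa [envP, res, PowerSeries.derivative_coe] using
    eR.map (coeToPowerSeries.ringHom (R := ℝ)) (envP d r s xs H)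

lemma Jet.hb {d r s xs : ℝ} {W : PowerSeries ℝ} {k : ℕ} (h : Jet d r s xs W k) : ∃ γ : ℝ,
    ∀ q θ, (∀ i < k, (eR.ev (envP d r s xs (hb W k q θ))).coeff i = 0) ∧
      (eR.ev (envP d r s xs (hb W k q θ))).coeff k = γ * (q.eval 0 + θ - W.coeff k) := by
  obtain ⟨γ, h⟩ := h
  refine ⟨γ, fun q θ => ?_⟩
  have h1 := PowerSeries.X_pow_dvd_iff.1 (h _ (hb_dvd W k q θ))
  simp only [← coe_res, map_sub, PowerSeries.coeff_C_mul, coeff_coe, PowerSeries.coeff_X_pow,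
    hb_coeff] at h1
  exact ⟨fun i hi => by simpa [hi.ne] using h1 i (by omega),
    by simpa [sub_eq_zero] using h1 k (by omega)⟩

/-- Ball version of `envP`. -/
def envB (dB rB sB : Ball) (xs : ℤ) (H : List Ball) : List (List Ball) :=
  [[bint xs, bint 1], H, pder H, [rB], [sB], [dB]]

lemma pmem_env {d r s : ℝ} {dB rB sB : Ball} (hd : Mem d dB) (hr : Mem r rB) (hs : Mem s sB) (xs : ℤ) {H : List Ball}
    {h : ℝ[X]} (hH : PMem H h) : List.Forall₂ PMem (envB dB rB sB xs H) (envP d r s xs h) :=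
  .cons ((PMem.cons (mem_int xs) (PMem.const (mem_int 1))).of_eq (by simp))
    (.cons hH (.cons hH.der (.cons (PMem.const hr) (.cons (PMem.const hs)
      (.cons (PMem.const hd) .nil)))))

/-- The ball `b` contains the coefficient of order `n`. -/
def coefChk (dB rB sB : Ball) (xs : ℤ) (low : List Ball) (n : ℕ) (b : Ball) (sg : ℤ) : Bool :=
  bpos (bmul (bint sg) (((eR.evP (envB dB rB sB xs (hbB low n [] (b.1 + b.2, 0)))).drop n).headD
    (0, 0))) &&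
  bpos (bneg (bmul (bint sg) (((eR.evP (envB dB rB sB xs (hbB low n [] (b.1 - b.2, 0)))).drop n).headD
    (0, 0))))

lemma coefChk_sound {d r s : ℝ} {dB rB sB : Ball} (hd : Mem d dB) (hr : Mem r rB) (hs : Mem s sB) {xs : ℤ}
    {W : PowerSeries ℝ} {n : ℕ} (hj : Jet d r s xs W n) {low : List Ball}
    (hl : PMem low (W.trunc n)) {b : Ball} {sg : ℤ} (h : coefChk dB rB sB xs low n b sg = true) :
    PMem (padd low (pshift n [b])) (W.trunc (n + 1)) := by
  obtain ⟨γ, hγ⟩ := hj.hb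
  have key : ∀ c : ℤ, Mem (sg * (γ * (c / sc - W.coeff n))) (bmul (bint sg)
      (((eR.evP (envB dB rB sB xs (hbB low n [] (c, 0)))).drop n).headD (0, 0))) := fun c => by
    obtain ⟨q, h1, h2⟩ := (eR.pmem (pmem_env hd hr hs xs (pmem_hb hl [] (mem_exact c)))).drop n
    have h3 := h1.tail.2
    rw [h2, zero_add, (hγ _ _).2] at h3
    simpa [ofInts] using (mem_int sg).mul h3
  rw [coefChk, Bool.and_eq_true] at h
  have a1 := (key _).pos h.1
  have a2 := (key _).neg.pos h.2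
  have hs0 := sc_pos
  obtain ⟨a3, a4⟩ := between (γ := sg * γ) (x := W.coeff n) (a := ((b.1 - b.2 : ℤ) : ℝ) / sc)
    (b := ((b.1 + b.2 : ℤ) : ℝ) / sc)
    (by gcongr; linarith [Int.natCast_nonneg b.2]) (by linarith) (by linarith)
  rw [div_lt_iff₀ hs0] at a3
  rw [lt_div_iff₀ hs0] at a4
  have hb : Mem (W.coeff n) b := by
    push_cast at a3 a4
    exact abs_le.2 ⟨by linarith, by linarith⟩
  refine (hl.add ((PMem.const hb).pshift n)).of_eq ?_
  rw [PowerSeries.trunc_succ, ← C_mul_X_pow_eq_monomial]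
  ring

/-- The two polynomials `hb W k q (± κ)` are barriers on `[a, b]`. -/
structure TubeOK (d r s xs : ℝ) (W : PowerSeries ℝ) (k : ℕ) (q : ℝ[X]) (κ a b : ℝ) : Prop where
  k0 : Even k
  ne : ∀ t ∈ Icc a b, t ≠ 0 → ∀ θ, |θ| ≤ κ → MM d r s (xs + t) ((hb W k q θ).eval t) ≠ 0
  up : ∀ t ∈ Icc a b, t ≠ 0 → 0 < t * (MM d r s (xs + t) ((hb W k q κ).eval t) *
    (eR.ev (envP d r s xs (hb W k q κ))).eval t)
  lo : ∀ t ∈ Icc a b, t ≠ 0 → t * (MM d r s (xs + t) ((hb W k q (-κ)).eval t) *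
    (eR.ev (envP d r s xs (hb W k q (-κ)))).eval t) < 0
  mid : |W.coeff k - q.eval 0| < κ

def tubeChk (dB rB sB : Ball) (xs : ℤ) (low : List Ball) (k : ℕ) (Q : List ℤ) (K : ℕ) (sg a : ℤ)
    (h n : ℕ) : Bool :=
  chk [(eM.evP (envB dB rB sB xs (hbB low k Q (0, K)))).drop 1,
    (eR.evP (envB dB rB sB xs (hbB low k Q (K, 0)))).drop k,
    (eR.evP (envB dB rB sB xs (hbB low k Q (-K, 0)))).drop k]
    [.int sg * .var 0, .int sg * .var 1, -(.int sg * .var 2)] a h n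

lemma tubeChk_sound {d r s : ℝ} {dB rB sB : Ball} (hd : Mem d dB) (hr : Mem r rB) (hs : Mem s sB) {xs : ℤ}
    {W : PowerSeries ℝ} {k : ℕ} (hk : Even k) (hj : Jet d r s xs W k) {low : List Ball}
    (hl : PMem low (W.trunc k)) {Q : List ℤ}
    (h0 : ∀ θ, MM d r s xs ((hb W k (ofInts Q) θ).eval 0) = 0) {K : ℕ} {sg A : ℤ} {h n : ℕ}
    (hc : tubeChk dB rB sB xs low k Q K sg A h n = true) {a b : ℝ} (ha : a ≤ 0) (hb0 : 0 ≤ b)
    (h1 : (A : ℝ) ≤ a * sc) (h2 : b * sc ≤ A + 2 * h * (n + 1)) :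
    TubeOK d r s xs W k (ofInts Q) (K / sc) a b := by
  obtain ⟨γ, hγ⟩ := hj.hb
  have hs0 := sc_pos
  have hK : (0 : ℝ) ≤ K / sc := by positivity
  obtain ⟨R1, p1, q1⟩ := (eR.pmem (pmem_env hd hr hs xs (pmem_hb hl Q (mem_exact K)))).drop k
  obtain ⟨R2, p2, q2⟩ := (eR.pmem (pmem_env hd hr hs xs (pmem_hb hl Q (mem_exact (-K))))).drop k
  have e1 := eq_pow_mul q1 (hγ _ _).1
  have e2 := eq_pow_mul q2 (hγ _ _).1
  simp only [Int.cast_neg, Int.cast_natCast, neg_div] at e1 e2 q1 q2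
  have key : ∀ t ∈ Icc a b, ∀ θ : ℝ, |θ| ≤ K / sc → ∃ m : ℝ,
      MM d r s (xs + t) ((hb W k (ofInts Q) θ).eval t) = t * m ∧ 0 < sg * m ∧ 0 < sg * R1.eval t ∧
        sg * R2.eval t < 0 := fun t ht θ hθ => by
    obtain ⟨M, p0, q0⟩ := (eM.pmem (pmem_env hd hr hs xs (pmem_hb hl Q (mem_of_abs hθ)))).drop 1
    have e0 := eq_pow_mul q0 fun i hi => by
      rw [Nat.lt_one_iff.1 hi, coeff_zero_eq_eval_zero, eval_envP, ev_eM, add_zero, h0]
    have := chk_sound hc (.cons p0 (.cons p1 (.cons p2 .nil))) (t := t)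
      (h1.trans (by gcongr; exact ht.1)) (le_trans (by gcongr; exact ht.2) h2)
    simp only [List.mem_cons, List.not_mem_nil, or_false, forall_eq_or_imp, forall_eq, ev_mul,
      ev_neg, ev_int, ev_var, List.map_cons, List.map_nil, List.getD_cons_zero,
      List.getD_cons_succ] at this
    refine ⟨M.eval t, ?_, this.1, this.2.1, by linarith [this.2.2]⟩
    rw [← ev_eM _ _ ((derivative (hb W k (ofInts Q) θ)).eval t), ← eval_envP, e0]
    simp
  refine ⟨hk, fun t ht t0 θ hθ => ?_, fun t ht t0 => ?_, fun t ht t0 => ?_, ?_⟩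
  · obtain ⟨m, a1, a2, -⟩ := key t ht θ hθ
    rw [a1]
    exact mul_ne_zero t0 fun h => by simp [h] at a2
  · obtain ⟨m, a1, a2, a3, -⟩ := key t ht _ (abs_of_nonneg hK).le
    have a5 : 0 < m * R1.eval t := by
      by_contra h
      nlinarith [mul_pos a2 a3, mul_nonneg (sq_nonneg (sg : ℝ)) (neg_nonneg.2 (not_lt.1 h))]
    rw [a1, e1]
    simp only [eval_mul, eval_pow, eval_X]
    nlinarith [mul_pos (mul_pos (hk.pow_pos t0) (sq_pos_of_ne_zero t0)) a5]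
  · obtain ⟨m, a1, a2, -, a3⟩ := key t ht (-(K / sc) : ℝ) (by rw [abs_neg, abs_of_nonneg hK])
    have a5 : 0 < -(m * R2.eval t) := by
      by_contra h
      nlinarith [mul_pos a2 (neg_pos.2 a3),
        mul_nonneg (sq_nonneg (sg : ℝ)) (neg_nonneg.2 (not_lt.1 h))]
    rw [a1, e2]
    simp only [eval_mul, eval_pow, eval_X]
    nlinarith [mul_pos (mul_pos (hk.pow_pos t0) (sq_pos_of_ne_zero t0)) a5]
  · obtain ⟨m, -, -, a3, a4⟩ := key 0 ⟨ha, hb0⟩ 0 (by simpa using hK)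
    rw [← coeff_zero_eq_eval_zero, q1, zero_add, (hγ _ _).2] at a3
    rw [← coeff_zero_eq_eval_zero, q2, zero_add, (hγ _ _).2] at a4
    obtain ⟨a5, a6⟩ := between (γ := sg * γ) (x := W.coeff k)
      (a := (ofInts Q).eval 0 + -(K / sc)) (b := (ofInts Q).eval 0 + K / sc)
      (by linarith) (by linarith) (by linarith)
    exact abs_lt.2 ⟨by linarith, by linarith⟩

end Pool.Agent.MP_187b32_an.PD.Small

end MrgPart0

-- ======== part 1: formerly Pool.Agent.MP_187b32_an.PD.Small.Side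
section MrgPart1

/-!
Continuation of a power series solution to one side of its centre, inside a tube.
-/

open Polynomial Set

namespace Pool.Agent.MP_187b32_an.PD.Small

open Prof

variable {d r s xs ν R ε T δ κ a b : ℝ} {W : PowerSeries ℝ} {k : ℕ} {q : ℝ[X]}

lemma ev_ode (hν : 0 < ν) (h : ∀ n, |W.coeff n| * ν ^ n ≤ R) (hs : res d r s xs W = 0) {t : ℝ}
    (ht : |t| < ν) : ∃ v, HasDerivAt (ev W) v t ∧
      MM d r s (xs + t) (ev W t) * v = NN d r s (xs + t) (ev W t) := by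
  obtain ⟨v, h1, h2⟩ := ev_deriv hν h ht
  have h3 := eR.hs (.cons ((hs_C t xs).add (hs_X t)) (.cons (hs_ev hν h ht) (.cons h2
    (.cons (hs_C t r) (.cons (hs_C t s) (.cons (hs_C t d) .nil))))))
  rw [res] at hs
  rw [hs, ev_eR] at h3
  exact ⟨v, h1, sub_eq_zero.1 (h3.2.symm.trans (by simp [ev]))⟩

lemma TubeOK.lt_up (h : TubeOK d r s xs W k q κ a b) {τ v : ℝ} (hτ : 0 < τ) (hε : ε ≠ 0)
    (ht : ε * τ ∈ Icc a b) (e : MM d r s (xs + ε * τ) ((hb W k q κ).eval (ε * τ)) * v =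
      ε * NN d r s (xs + ε * τ) ((hb W k q κ).eval (ε * τ))) :
    v < ε * (hb W k q κ).derivative.eval (ε * τ) := by
  have h1 := h.up _ ht (mul_ne_zero hε hτ.ne')
  rw [eval_envP, ev_eR] at h1
  set M := MM d r s (xs + ε * τ) ((hb W k q κ).eval (ε * τ))
  by_contra hc
  have h2 := mul_nonneg (mul_nonneg hτ.le (sq_nonneg M)) (sub_nonneg.2 (not_lt.1 hc))
  have h3 := congrArg (fun x => τ * M * x) e
  nlinarith

lemma TubeOK.lo_lt (h : TubeOK d r s xs W k q κ a b) {τ v : ℝ} (hτ : 0 < τ) (hε : ε ≠ 0)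
    (ht : ε * τ ∈ Icc a b) (e : MM d r s (xs + ε * τ) ((hb W k q (-κ)).eval (ε * τ)) * v =
      ε * NN d r s (xs + ε * τ) ((hb W k q (-κ)).eval (ε * τ))) :
    ε * (hb W k q (-κ)).derivative.eval (ε * τ) < v := by
  have h1 := h.lo _ ht (mul_ne_zero hε hτ.ne')
  rw [eval_envP, ev_eR] at h1
  set M := MM d r s (xs + ε * τ) ((hb W k q (-κ)).eval (ε * τ))
  by_contra hc
  have h2 := mul_nonneg (mul_nonneg hτ.le (sq_nonneg M)) (sub_nonneg.2 (not_lt.1 hc))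
  have h3 := congrArg (fun x => τ * M * x) e
  nlinarith

theorem in_tube (hε : |ε| = 1) (hν : 0 < ν) (h : ∀ n, |W.coeff n| * ν ^ n ≤ R)
    (tube : TubeOK d r s xs W k q κ a b) (hab : ∀ τ ∈ Icc 0 T, ε * τ ∈ Icc a b) {V : ℝ → ℝ}
    (hδ : 0 < δ) (h0 : ∀ τ ≤ δ, V τ = ev W (ε * τ)) (hc : ContinuousOn V (Ioc 0 T))
    (hd : ∀ τ ∈ Ioo 0 T, ∃ v, HasDerivWithinAt V v (Ici τ) τ ∧
      MM d r s (xs + ε * τ) (V τ) * v = ε * NN d r s (xs + ε * τ) (V τ)) :
    ∀ τ ∈ Ioc 0 T, V τ ∈ Icc ((hb W k q (-κ)).eval (ε * τ)) ((hb W k q κ).eval (ε * τ)) := by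
  obtain ⟨u, hu0, hu⟩ := ev_split hν h k
  have hε0 : ε ≠ 0 := fun h => by simp [h] at hε
  have c1 : ContinuousAt (fun t => |u t - q.eval t|) 0 :=
    ((hu 0 (by simpa using hν)).1.continuousAt.sub q.continuous.continuousAt).abs
  obtain ⟨η, hη, c2⟩ := Metric.eventually_nhds_iff.1
    (c1.eventually_lt continuousAt_const (g := fun _ => κ) (by simpa [hu0] using tube.mid))
  intro τ hτ
  choose! V' hV using hd
  set τ0 := min (min τ δ) (min η ν / 2) with hτ0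
  have a0 : 0 < τ0 := lt_min (lt_min hτ.1 hδ) (half_pos (lt_min hη hν))
  have a1 : τ0 ≤ τ := (min_le_left _ _).trans (min_le_left _ _)
  have a2 : τ0 ≤ δ := (min_le_left _ _).trans (min_le_right _ _)
  have a3 : τ0 < min η ν := (min_le_right _ _).trans_lt (half_lt_self (lt_min hη hν))
  have a4 : |ε * τ0| = τ0 := by rw [abs_mul, hε, one_mul, abs_of_pos a0]
  have sub : ∀ x ∈ Ico τ0 τ, x ∈ Ioo 0 T := fun x hx => ⟨a0.trans_le hx.1, hx.2.trans_le hτ.2⟩
  refine fence (a := τ0) (b := τ) (V' := V')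
    (hc.mono fun x hx => ⟨a0.trans_le hx.1, hx.2.trans hτ.2⟩) (fun x hx => (hV x (sub x hx)).1)
    (hb_deriv _ ε) (hb_deriv _ ε) (fun x hx e => ?_) (fun x hx e => ?_) ?_ τ ⟨a1, le_rfl⟩
  · exact tube.lt_up (sub x hx).1 hε0 (hab x (Ioo_subset_Icc_self (sub x hx)))
      (by simpa only [e] using (hV x (sub x hx)).2)
  · exact tube.lo_lt (sub x hx).1 hε0 (hab x (Ioo_subset_Icc_self (sub x hx)))
      (by simpa only [e] using (hV x (sub x hx)).2)
  · have b1 := abs_lt.1 (c2 (y := ε * τ0) (by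
      rw [dist_zero_right, Real.norm_eq_abs, a4]; exact a3.trans_le (min_le_left _ _)))
    have b2 := tube.k0.pow_nonneg (ε * τ0)
    rw [h0 τ0 a2, (hu _ (by rw [a4]; exact a3.trans_le (min_le_right _ _))).2, hb_eval, hb_eval]
    constructor <;> nlinarith [b1.1, b1.2]

/-- A solution on `(0, T]` in the variable `τ`, `x = xs + ε τ`, given by the series near `0`. -/
structure SideSol (d r s xs ε T δ : ℝ) (W : PowerSeries ℝ) (V : ℝ → ℝ) : Prop where
  eq : ∀ τ ≤ δ, V τ = ev W (ε * τ)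
  der : ∀ τ ∈ Ioc 0 T, HasDerivWithinAt V
    (ε * (NN d r s (xs + ε * τ) (V τ) / MM d r s (xs + ε * τ) (V τ))) (Iic T) τ
  ne : ∀ τ ∈ Ioc 0 T, MM d r s (xs + ε * τ) (V τ) ≠ 0

lemma SideSol.hasDerivAt {V : ℝ → ℝ} (h : SideSol d r s xs ε T δ W V) {τ : ℝ} (hτ : τ ∈ Ioo 0 T) :
    HasDerivAt V (ε * (NN d r s (xs + ε * τ) (V τ) / MM d r s (xs + ε * τ) (V τ))) τ :=
  (h.der τ (Ioo_subset_Ioc_self hτ)).hasDerivAt (Iic_mem_nhds hτ.2)

lemma SideSol.theta {V : ℝ → ℝ} (hV : SideSol d r s xs ε T δ W V) (hε : |ε| = 1) (hν : 0 < ν)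
    (h : ∀ n, |W.coeff n| * ν ^ n ≤ R) (hδ : 0 < δ) (tube : TubeOK d r s xs W k q κ a b)
    (hab : ∀ τ ∈ Icc 0 T, ε * τ ∈ Icc a b) {τ : ℝ} (hτ : τ ∈ Ioc 0 T) :
    ∃ θ, |θ| ≤ κ ∧ V τ = (hb W k q θ).eval (ε * τ) := by
  refine exists_theta tube.k0 (mul_ne_zero (fun h => by simp [h] at hε) hτ.1.ne')
    (in_tube hε hν h tube hab hδ hV.eq
      (fun x hx => (hV.der x hx).continuousWithinAt.mono Ioc_subset_Iic_self)
      (fun x hx => ⟨_, (hV.hasDerivAt hx).hasDerivWithinAt, ?_⟩) τ hτ)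
  have := hV.ne x (Ioo_subset_Ioc_self hx)
  field_simp

def lip (d r s x v w : ℝ) : ℝ :=
  d * (s * x * (v ^ 2 + v * w + w ^ 2 + (1 + r) * (v + w) + r) - d) * MM d r s x w +
    NN d r s x w * (2 * x ^ 2 * s * (2 * d + (d - 1) * r + (2 * d - 1) * (v + w)))

lemma div_lip (d r s x v w : ℝ) (hv : MM d r s x v ≠ 0) (hw : MM d r s x w ≠ 0) :
    NN d r s x v / MM d r s x v - NN d r s x w / MM d r s x w = (v - w) *
      (lip d r s x v w / (MM d r s x v * MM d r s x w)) := by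
  field_simp
  simp only [lip, MM, NN, mm, b3]
  ring

theorem side {P : Type} [TopologicalSpace P] [CompactSpace P] {r s : P → ℝ} (hr : Continuous r)
    (hs : Continuous s) {W : P → PowerSeries ℝ} {n0 : ℕ} (hL : Loc d r s xs W ν R n0) (hε : |ε| = 1)
    (hT : 0 < T) (tube : ∀ p, TubeOK d (r p) (s p) xs (W p) k q κ a b) (hκ : 0 ≤ κ)
    (hab : ∀ τ ∈ Icc 0 T, ε * τ ∈ Icc a b) :
    ∃ (V : P → ℝ → ℝ) (δ : ℝ), 0 < δ ∧ δ < ν ∧ δ < T ∧
      (∀ p, SideSol d (r p) (s p) xs ε T δ (W p) (V p)) ∧ Continuous fun p => V p T := by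
  have hν := hL.pos
  have hε0 : ε ≠ 0 := fun h => by simp [h] at hε
  set δ := min ν T / 2 with hδ
  have d0 : 0 < δ := half_pos (lt_min hν hT)
  have d1 : δ < ν := (half_lt_self (lt_min hν hT)).trans_le (min_le_left _ _)
  have d2 : δ < T := (half_lt_self (lt_min hν hT)).trans_le (min_le_right _ _)
  have ab : ∀ τ ∈ Ioc 0 δ, |ε * τ| < ν := fun τ hτ => by
    rw [abs_mul, hε, one_mul, abs_of_pos hτ.1]; exact hτ.2.trans_lt d1
  have ser : ∀ p, ∀ τ ∈ Ioc 0 δ, ∃ v, HasDerivAt (fun τ => ev (W p) (ε * τ)) v τ ∧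
      MM d (r p) (s p) (xs + ε * τ) (ev (W p) (ε * τ)) * v =
        ε * NN d (r p) (s p) (xs + ε * τ) (ev (W p) (ε * τ)) := fun p τ hτ => by
    obtain ⟨v, h1, h2⟩ := ev_ode hν (hL.bd p) (hL.sol p) (ab τ hτ)
    exact ⟨v * (ε * 1), h1.comp τ ((hasDerivAt_id τ).const_mul ε), by
      linear_combination ε * h2⟩
  have ser2 : ∀ p, ∀ τ ∈ Ioc 0 δ, ev (W p) (ε * τ) ∈
      Icc ((hb (W p) k q (-κ)).eval (ε * τ)) ((hb (W p) k q κ).eval (ε * τ)) := fun p =>
    in_tube hε hν (hL.bd p) (tube p) (fun τ hτ => hab τ ⟨hτ.1, hτ.2.trans d2.le⟩) d0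
      (fun _ _ => rfl) (fun τ hτ => (ser p τ hτ).choose_spec.1.continuousAt.continuousWithinAt)
      fun τ hτ => (ser p τ (Ioo_subset_Ioc_self hτ)).imp fun v hv => ⟨hv.1.hasDerivWithinAt, hv.2⟩
  have ne : ∀ p, ∀ τ ∈ Ioc 0 T, ∀ v ∈ Icc ((hb (W p) k q (-κ)).eval (ε * τ))
      ((hb (W p) k q κ).eval (ε * τ)), MM d (r p) (s p) (xs + ε * τ) v ≠ 0 := fun p τ hτ v hv => by
    have t0 := mul_ne_zero hε0 hτ.1.ne'
    obtain ⟨θ, h1, rfl⟩ := exists_theta (tube p).k0 t0 hv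
    exact (tube p).ne _ (hab τ (Ioc_subset_Icc_self hτ)) t0 θ h1
  have sub : ∀ τ ∈ Icc δ T, τ ∈ Ioc 0 T := fun τ hτ => ⟨d0.trans_le hτ.1, hτ.2⟩
  have hbc : Continuous fun z : P × ℝ × ℝ => (hb (W z.1) k q z.2.2).eval (ε * z.2.1) := by
    have e : ∀ (Z : PowerSeries ℝ) t, (Z.trunc k).eval t =
        ∑ i ∈ Finset.range k, Z.coeff i * t ^ i := fun Z t => by
      rw [← eval₂_id, PowerSeries.eval₂_trunc_eq_sum_range]; rfl
    simp only [hb_eval, e]
    have hq : Continuous fun z : P × ℝ × ℝ => q.eval (ε * z.2.1) :=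
      q.continuous.comp (by fun_prop)
    exact (continuous_finsetSum _ fun i _ => ((hL.cont i).comp continuous_fst).mul
      (by fun_prop)).add (by fun_prop)
  obtain ⟨L, hL0, hLb⟩ := tube_bound (P := P)
    (isCompact_Icc.prod (isCompact_Icc.prod isCompact_Icc) :
      IsCompact (Icc δ T ×ˢ Icc (-κ) κ ×ˢ Icc (-κ) κ))
    (g := fun z => (fun r s x v w => lip d r s x v w / (MM d r s x v * MM d r s x w))
      (r z.1) (s z.1) (xs + ε * z.2.1)
      ((hb (W z.1) k q z.2.2.1).eval (ε * z.2.1)) ((hb (W z.1) k q z.2.2.2).eval (ε * z.2.1))) (by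
      have c1 : Continuous fun z : P × ℝ × ℝ × ℝ => (hb (W z.1) k q z.2.2.1).eval (ε * z.2.1) :=
        hbc.comp (f := fun z : P × ℝ × ℝ × ℝ => (z.1, z.2.1, z.2.2.1)) (by fun_prop)
      have c2 : Continuous fun z : P × ℝ × ℝ × ℝ => (hb (W z.1) k q z.2.2.2).eval (ε * z.2.1) :=
        hbc.comp (f := fun z : P × ℝ × ℝ × ℝ => (z.1, z.2.1, z.2.2.2)) (by fun_prop)
      refine ContinuousOn.div (Continuous.continuousOn ?_) (Continuous.continuousOn ?_)
        fun z hz => ?_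
      · simp only [lip, MM, NN, mm, b3]; fun_prop
      · simp only [MM, mm, b3]; fun_prop
      · have t1 := sub _ hz.2.1
        have t0 := mul_ne_zero hε0 t1.1.ne'
        exact mul_ne_zero ((tube _).ne _ (hab _ (Ioc_subset_Icc_self t1)) t0 _ (abs_le.2 hz.2.2.1))
          ((tube _).ne _ (hab _ (Ioc_subset_Icc_self t1)) t0 _ (abs_le.2 hz.2.2.2)))
  have hle : ∀ p τ, (hb (W p) k q (-κ)).eval (ε * τ) ≤ (hb (W p) k q κ).eval (ε * τ) :=
    fun p τ => by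
      simp only [hb_eval]
      nlinarith [(tube p).k0.pow_nonneg (ε * τ)]
  obtain ⟨V, v1, v2, v3⟩ := tube_ode (P := P)
    (F := fun p τ v => ε * (NN d (r p) (s p) (xs + ε * τ) v / MM d (r p) (s p) (xs + ε * τ) v))
    (lo := fun p τ => (hb (W p) k q (-κ)).eval (ε * τ))
    (hi := fun p τ => (hb (W p) k q κ).eval (ε * τ)) d2.le
    (hbc.comp (f := fun z : P × ℝ => (z.1, z.2, -κ)) (by fun_prop))
    (hbc.comp (f := fun z : P × ℝ => (z.1, z.2, κ)) (by fun_prop)) (fun p τ _ => hle p τ)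
    (continuousOn_const.mul (ContinuousOn.div (Continuous.continuousOn (by
      simp only [NN]; fun_prop)) (Continuous.continuousOn (by simp only [MM, mm, b3]; fun_prop))
      fun z hz => ne _ _ (sub _ hz.1) _ hz.2)) hL0
    (fun p τ hτ v hv w hw => by
      have t0 := mul_ne_zero hε0 (sub τ hτ).1.ne'
      rw [← mul_sub, abs_mul, hε, one_mul,
        div_lip _ _ _ _ _ _ (ne p τ (sub τ hτ) v hv) (ne p τ (sub τ hτ) w hw), abs_mul, mul_comm]
      obtain ⟨θ1, h1, rfl⟩ := exists_theta (tube p).k0 t0 hv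
      obtain ⟨θ2, h2, rfl⟩ := exists_theta (tube p).k0 t0 hw
      exact mul_le_mul_of_nonneg_right (hLb p (τ, θ1, θ2) ⟨hτ, abs_le.1 h1, abs_le.1 h2⟩)
        (abs_nonneg _))
    (fun p => hb_deriv _ ε) (fun p => hb_deriv _ ε)
    (fun p τ hτ => by
      have t1 := sub τ (Ico_subset_Icc_self hτ)
      have := ne p τ t1 _ ⟨hle p τ, le_rfl⟩
      exact (tube p).lt_up t1.1 hε0 (hab τ (Ioc_subset_Icc_self t1)) (by field_simp))
    (fun p τ hτ => by
      have t1 := sub τ (Ico_subset_Icc_self hτ)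
      have := ne p τ t1 _ ⟨le_rfl, hle p τ⟩
      exact (tube p).lo_lt t1.1 hε0 (hab τ (Ioc_subset_Icc_self t1)) (by field_simp))
    (ev_cont hν hL.bd hL.cont (ab δ ⟨d0, le_rfl⟩)) fun p => ser2 p δ ⟨d0, le_rfl⟩
  let U : P → ℝ → ℝ := fun p τ => if τ ≤ δ then ev (W p) (ε * τ) else V p τ
  have u1 : ∀ p, ∀ τ ≤ δ, U p τ = ev (W p) (ε * τ) := fun p τ h => if_pos h
  have u2 : ∀ p τ, δ ≤ τ → U p τ = V p τ := fun p τ h => by
    rcases h.eq_or_lt with rfl | h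
    · rw [u1 p _ le_rfl, v1]
    · exact if_neg h.not_ge
  have u3 : ∀ p, ∀ τ ∈ Ioc 0 T, MM d (r p) (s p) (xs + ε * τ) (U p τ) ≠ 0 := fun p τ hτ => by
    rcases le_total τ δ with h | h
    · rw [u1 p τ h]; exact ne p τ hτ _ (ser2 p τ ⟨hτ.1, h⟩)
    · rw [u2 p τ h]; exact ne p τ hτ _ (v2 p τ ⟨h, hτ.2⟩).2
  refine ⟨U, δ, d0, d1, d2, fun p => ⟨u1 p, fun τ hτ => ?_, u3 p⟩,
    (v3 T).congr fun p => (u2 p T d2.le).symm⟩
  have l1 : τ ≤ δ → HasDerivWithinAt (U p) (ε * (NN d (r p) (s p) (xs + ε * τ) (U p τ) /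
      MM d (r p) (s p) (xs + ε * τ) (U p τ))) (Iic δ) τ := fun h => by
    obtain ⟨v, h1, h2⟩ := ser p τ ⟨hτ.1, h⟩
    have h3 := u3 p τ hτ
    rw [u1 p τ h] at h3 ⊢
    have h4 : ε * (NN d (r p) (s p) (xs + ε * τ) (ev (W p) (ε * τ)) /
        MM d (r p) (s p) (xs + ε * τ) (ev (W p) (ε * τ))) = v := by
      field_simp
      linarith
    rw [h4]
    exact h1.hasDerivWithinAt.congr (u1 p) (u1 p τ h)
  have l2 : δ ≤ τ → HasDerivWithinAt (U p) (ε * (NN d (r p) (s p) (xs + ε * τ) (U p τ) /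
      MM d (r p) (s p) (xs + ε * τ) (U p τ))) (Icc δ T) τ := fun h => by
    rw [u2 p τ h]
    exact (v2 p τ ⟨h, hτ.2⟩).1.congr (fun x hx => u2 p x hx.1) (u2 p τ h)
  rcases lt_trichotomy τ δ with h | h | h
  · exact ((l1 h.le).hasDerivAt (Iic_mem_nhds h)).hasDerivWithinAt
  · rw [← Iic_union_Icc_eq_Iic d2.le]
    exact (l1 h.le).union (l2 h.ge)
  · refine (l2 h.le).mono_of_mem_nhdsWithin ?_
    exact mem_nhdsWithin.2 ⟨Ioi δ, isOpen_Ioi, h, fun x hx => ⟨le_of_lt hx.1, hx.2⟩⟩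

end Pool.Agent.MP_187b32_an.PD.Small

end MrgPart1

-- ======== part 2: formerly Pool.Agent.MP_187b32_an.PD.Small.Par
section MrgPart2

/-!
The parameters at the sonic point.
-/

open Polynomial Set

namespace Pool.Agent.MP_187b32_an.PD.Small

open Prof

noncomputable def rF (d w : ℝ) : ℝ := (d - (d - 1) * w ^ 2) / (d + (d - 1) * w)
def gA (d r s w : ℝ) : ℝ := s * (-4 * d + (4 - 8 * d) * w + (2 - 2 * d) * r)
def gB (d r s w : ℝ) : ℝ :=
  d * (2 + d) + s * (-10 * d * w + (4 - 11 * d) * (w * w) - 5 * d * r + (4 - 6 * d) * (r * w))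
def gC (d r s w : ℝ) : ℝ := -d * s * (w * ((1 + w) * (r + w)))
noncomputable def gS (d w : ℝ) : ℝ :=
  (-gB d (rF d w) (sF w) w + √(gB d (rF d w) (sF w) w ^ 2 -
    4 * gA d (rF d w) (sF w) w * gC d (rF d w) (sF w) w)) / (2 * gA d (rF d w) (sF w) w)

lemma slopeEq_eq (d r s w g : ℝ) :
    slopeEq d r s w g = gA d r s w * g ^ 2 + gB d r s w * g + gC d r s w := by
  simp only [slopeEq, gA, gB, gC]; ring

def eA : Ex := .var 2 * (.int (-4) * .var 5 + (.int 4 - .int 8 * .var 5) * .var 0 +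
  (.int 2 - .int 2 * .var 5) * .var 1)
def eB : Ex := .var 5 * (.int 2 + .var 5) + .var 2 * (.int (-10) * .var 5 * .var 0 +
  (.int 4 - .int 11 * .var 5) * (.var 0 * .var 0) - .int 5 * .var 5 * .var 1 +
    (.int 4 - .int 6 * .var 5) * (.var 1 * .var 0))
def eC : Ex := -.var 5 * .var 2 * (.var 0 * ((.int 1 + .var 0) * (.var 1 + .var 0)))
def eQ : Ex := .int 2 * .var 5 - .int 4 * .var 2 * (.var 5 * .var 1 + .var 0 *
  (.int 2 * .var 5 + (.var 5 - .int 1) * .var 1 + (.int 2 * .var 5 - .int 1) * .var 0))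
def eL : Ex := eQ + .var 3 * eA
def eAl : Ex := eQ + eB + .int 3 * .var 3 * eA
def eU : Ex := .var 5 + (.var 5 - .int 1) * .var 0
def eV : Ex := .var 5 - (.var 5 - .int 1) * (.var 0 * .var 0)

def pl1 : List Ex :=
  [eU, .int 1 + .var 0, eV - .var 1 * eU, .var 2 * eU - eV,
    .int 1 - .var 3 * ((.int 1 + .var 0) * (.int 1 + .var 0)),
    .var 4 * ((.int 1 + .var 0) * (.int 1 + .var 0)) - .int 1]

def pl2 : List Ex :=
  [-eA, eC, -.var 4, -(eA * (.var 3 * .var 3) + eB * .var 3 + eC),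
    eA * (.var 4 * .var 4) + eB * .var 4 + eC]

def pl3 : List Ex :=
  [-(eL + .int 1), .int 100 * (eL * .var 4 + eAl) - .int 1,
    -(.int 100 * (eL * (.var 4 + .int 1) + eAl) + .int 1), -.var 3]

def parChk (dB wB rB sB gB : Ball) (m : ℕ) : Bool :=
  (pl1.all fun e => bpos (e.evB [wB, blo rB, bhi rB, blo sB, bhi sB, dB])) &&
  (pl2.all fun e => bpos (e.evB [wB, rB, sB, blo gB, bhi gB, dB])) &&
  (pl3.all fun e => bpos (e.evB [wB, rB, sB, gB, bint m, dB]))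

structure ParOK (d : ℝ) (m : ℕ) (w : ℝ) : Prop where
  d1 : d + (d - 1) * w ≠ 0
  d3 : gA d (rF d w) (sF w) w ≠ 0
  e1 : mm d (rF d w) (sF w) 1 w = 0
  e2 : NN d (rF d w) (sF w) 1 w = 0
  e3 : slopeEq d (rF d w) (sF w) w (gS d w) = 0
  e4 : DD (sF w) 1 w = 0
  e5 : nn d (rF d w) w = 0
  l : ∀ n : ℕ, 1 / 100 / (m + 2) * (n + 1) ≤
    |lamS d (rF d w) (sF w) w (gS d w) * n + alS d (rF d w) (sF w) w (gS d w)|
  u : gS d w < 0
  v : 0 < 1 + w

lemma parChk_sound {d w : ℝ} {dB wB rB sB gB' : Ball} {m : ℕ} (hd : Mem d dB) (hw : Mem w wB)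
    (h : parChk dB wB rB sB gB' m = true) :
    Mem (rF d w) rB ∧ Mem (sF w) sB ∧ Mem (gS d w) gB' ∧ ParOK d m w := by
  simp only [parChk, Bool.and_eq_true, List.all_eq_true] at h
  obtain ⟨⟨h1, h2⟩, h3⟩ := h
  have k1 := fun e he => (Ex.mem (.cons hw (.cons (mem_blo rB) (.cons (mem_bhi rB)
    (.cons (mem_blo sB) (.cons (mem_bhi sB) (.cons hd .nil)))))) e).pos (h1 e he)
  simp only [pl1, eU, eV, List.mem_cons, List.not_mem_nil, or_false, forall_eq_or_imp, forall_eq,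
    ev_mul, ev_add, ev_sub, ev_int, ev_var, List.getD_cons_zero, List.getD_cons_succ,
    Int.cast_one] at k1
  obtain ⟨a1, a2, a3, a4, a5, a6⟩ := k1
  have hr : Mem (rF d w) rB := mem_of_lt (by rw [rF, lt_div_iff₀ a1]; linarith)
    (by rw [rF, div_lt_iff₀ a1]; linarith)
  have hs : Mem (sF w) sB := mem_of_lt (by rw [sF, lt_div_iff₀ (by positivity)]; linarith)
    (by rw [sF, div_lt_iff₀ (by positivity)]; linarith)
  have eA' : ∀ x y, eA.ev [w, rF d w, sF w, x, y, d] = gA d (rF d w) (sF w) w := fun x y => by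
    simp [eA, gA]
  have eB' : ∀ x y, eB.ev [w, rF d w, sF w, x, y, d] = gB d (rF d w) (sF w) w := fun x y => by
    simp [eB, gB]
  have eC' : ∀ x y, eC.ev [w, rF d w, sF w, x, y, d] = gC d (rF d w) (sF w) w := fun x y => by
    simp [eC, gC]
  have k2 := fun e he => (Ex.mem (.cons hw (.cons hr (.cons hs
    (.cons (mem_blo gB') (.cons (mem_bhi gB') (.cons hd .nil)))))) e).pos (h2 e he)
  simp only [pl2, List.mem_cons, List.not_mem_nil, or_false, forall_eq_or_imp, forall_eq, ev_mul,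
    ev_add, ev_neg, ev_var, List.getD_cons_zero, List.getD_cons_succ, eA', eB', eC'] at k2
  obtain ⟨b1, b2, b3', b4, b5⟩ := k2
  obtain ⟨c1, c2⟩ := quad_root (g := gS d w) (by linarith) b2 rfl
  have hle : ((gB'.1 - gB'.2 : ℤ) : ℝ) / sc ≤ ((gB'.1 + gB'.2 : ℤ) : ℝ) / sc := by
    have := sc_pos
    gcongr
    linarith [Int.natCast_nonneg gB'.2]
  have hg : Mem (gS d w) gB' := mem_of_lt ((c2 _ (by linarith)).2 (by linarith))
    ((c2 _ (by linarith)).1 (by linarith))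
  have eL' : ∀ y, eL.ev [w, rF d w, sF w, gS d w, y, d] = lamS d (rF d w) (sF w) w (gS d w) :=
    fun y => by simp [eL, eQ, eA, lamS]; ring
  have eAl' : ∀ y, eAl.ev [w, rF d w, sF w, gS d w, y, d] = alS d (rF d w) (sF w) w (gS d w) :=
    fun y => by simp [eAl, eQ, eA, eB, alS]; ring
  have k3 := fun e he => (Ex.mem (.cons hw (.cons hr (.cons hs (.cons hg (.cons (mem_int m)
    (.cons hd .nil)))))) e).pos (h3 e he)
  simp only [pl3, List.mem_cons, List.not_mem_nil, or_false, forall_eq_or_imp, forall_eq, ev_mul,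
    ev_add, ev_sub, ev_neg, ev_int, ev_var, List.getD_cons_zero, List.getD_cons_succ, eL', eAl',
    Int.cast_ofNat, Int.cast_one, Int.cast_natCast] at k3
  obtain ⟨f1, f2, f3, f4⟩ := k3
  have hr' : rF d w * (d + (d - 1) * w) = d - (d - 1) * w ^ 2 := div_mul_cancel₀ _ a1.ne'
  have hs' : sF w * (1 + w) ^ 2 = 1 := div_mul_cancel₀ _ (pow_ne_zero 2 a2.ne')
  refine ⟨hr, hs, hg, a1.ne', by linarith, ?_, ?_, by rw [slopeEq_eq, c1], ?_, ?_,
    nonres (by linarith) (by linarith) (by linarith), by linarith, a2⟩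
  · simp only [mm, b3]; linear_combination -d * hs' - sF w * hr'
  · refine mul_left_cancel₀ a1.ne' ?_
    simp only [NN]
    linear_combination (d * sF w * w * (1 + w) - d * d) * hr' + d * d * w * hs'
  · simp only [DD]; linear_combination -hs'
  · simp only [nn, b3]; linear_combination hr'

end Pool.Agent.MP_187b32_an.PD.Small

end MrgPart2

-- ======== part 3: formerly Pool.Agent.MP_187b32_an.PD.Small.Reg
section MrgPart3

/-!
The inequalities along the profile.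
-/

open Polynomial Set

namespace Pool.Agent.MP_187b32_an.PD.Small

open Prof

/-- The inequalities along the profile. -/
def Ineq (x w A μ : ℝ) : Prop :=
  1 / 4 ≤ 1 - x * μ ∧ 1 / 20 ≤ 1 + A ∧ 1 / 20 ≤ 1 + w ∧
    4 / 3 * x * μ ^ 2 ≤ (1 + A - 1 / 20) ^ 2 ∧ 4 / 3 * x * μ ^ 2 ≤ (1 + w - 1 / 20) ^ 2

def Good (d r s x w : ℝ) : Prop :=
  DD s x w ≠ 0 ∧ Ineq (s * x / d) w (w + NN d r s x w / (d * DD s x w)) (nn d r w / DD s x w)

lemma good_of {d r s x w c m N D n sg : ℝ} (d0 : 0 < d) (hc : c ≠ 0) (e1 : mm d r s x w = c * m)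
    (e2 : NN d r s x w = c * N) (e3 : DD s x w = c * D) (e4 : nn d r w = c * n) (h1 : 0 < sg * D)
    (h2 : 0 < sg * (4 * m - d * D)) (h3 : 0 < sg * (d * (19 + 20 * w) * D + 20 * N))
    (h4 : 0 < 19 + 20 * w)
    (h5 : 0 < 3 * ((d * (19 + 20 * w) * D + 20 * N) * (d * (19 + 20 * w) * D + 20 * N)) -
      1600 * d * s * x * (n * n))
    (h6 : 0 < 3 * ((d * (19 + 20 * w) * D) * (d * (19 + 20 * w) * D)) -
      1600 * d * s * x * (n * n)) :
    Good d r s x w := by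
  have hD : D ≠ 0 := fun h => by simp [h] at h1
  have hD2 : 0 < D ^ 2 := by positivity
  have hsg : sg ≠ 0 := fun h => by simp [h] at h1
  have key : ∀ y, 0 < sg * y → 0 < y / D / d := fun y hy => by
    have : y / D = (sg * y) / (sg * D) := by field_simp
    rw [this]; positivity
  have em : m = d * D - s * x * n := by
    refine mul_left_cancel₀ hc ?_
    simp only [mm, DD, nn] at e1 e3 e4
    linear_combination -e1 + d * e3 - s * x * e4
  have a1 : NN d r s x w / (d * DD s x w) = N / (d * D) := by rw [e2, e3]; field_simp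
  have a2 : nn d r w / DD s x w = n / D := by rw [e4, e3]; field_simp
  have a3 : 1 + (w + N / (d * D)) - 1 / 20 = (d * (19 + 20 * w) * D + 20 * N) / D / d / 20 := by
    field_simp; ring
  have a4 : 1 - s * x / d * (n / D) - 1 / 4 = (4 * m - d * D) / D / d / 4 := by
    rw [em]; field_simp
  refine ⟨e3 ▸ mul_ne_zero hc hD, ?_⟩
  rw [a1, a2]
  refine ⟨by linarith [key _ h2], by linarith [key _ h3], by linarith, ?_, ?_⟩
  · rw [a3, ← sub_nonneg]
    have : ((d * (19 + 20 * w) * D + 20 * N) / D / d / 20) ^ 2 - 4 / 3 * (s * x / d) * (n / D) ^ 2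
        = (3 * ((d * (19 + 20 * w) * D + 20 * N) * (d * (19 + 20 * w) * D + 20 * N)) -
          1600 * d * s * x * (n * n)) / (1200 * d ^ 2 * D ^ 2) := by field_simp; ring
    rw [this]; positivity
  · rw [← sub_nonneg]
    have : (1 + w - 1 / 20) ^ 2 - 4 / 3 * (s * x / d) * (n / D) ^ 2
        = (3 * ((d * (19 + 20 * w) * D) * (d * (19 + 20 * w) * D)) -
          1600 * d * s * x * (n * n)) / (1200 * d ^ 2 * D ^ 2) := by field_simp; ring
    rw [this]; positivity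

def envX (dB rB sB xB : Ball) (H : List Ball) : List (List Ball) :=
  [[xB, bint 1], H, pder H, [rB], [sB], [dB]]

lemma pmem_envX {d r s x : ℝ} {dB rB sB xB : Ball} (hd : Mem d dB) (hr : Mem r rB)
    (hs : Mem s sB) (hx : Mem x xB) {H : List Ball} {h : ℝ[X]} (hH : PMem H h) :
    List.Forall₂ PMem (envX dB rB sB xB H) (envP d r s x h) :=
  .cons ((PMem.cons hx (PMem.const (mem_int 1))).of_eq (by simp))
    (.cons hH (.cons hH.der (.cons (PMem.const hr) (.cons (PMem.const hs)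
      (.cons (PMem.const hd) .nil)))))

def eG : Ex := .var 7 * (.int 19 + .int 20 * .var 1) * .var 4

def regL (sg : ℤ) : List Ex :=
  [.int sg * .var 4, .int sg * (.int 4 * .var 2 - .var 7 * .var 4),
    .int sg * (eG + .int 20 * .var 3), .int 19 + .int 20 * .var 1,
    .int 3 * ((eG + .int 20 * .var 3) * (eG + .int 20 * .var 3)) -
      .int 1600 * .var 7 * .var 6 * .var 0 * (.var 5 * .var 5),
    .int 3 * (eG * eG) - .int 1600 * .var 7 * .var 6 * .var 0 * (.var 5 * .var 5)]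

def regChk (dB rB sB xB : Ball) (H : List Ball) (j : ℕ) (sg a : ℤ) (h n : ℕ) : Bool :=
  chk [[xB, bint 1], H, (em.evP (envX dB rB sB xB H)).drop j, (eN.evP (envX dB rB sB xB H)).drop j,
    (eD.evP (envX dB rB sB xB H)).drop j, (en.evP (envX dB rB sB xB H)).drop j, [sB], [dB]]
    (regL sg) a h n

lemma regChk_sound {d r s x : ℝ} {dB rB sB xB : Ball} (d0 : 0 < d) (hd : Mem d dB) (hr : Mem r rB)
    (hs : Mem s sB) (hx : Mem x xB)
    {H : List Ball} {p : ℝ[X]} (hH : PMem H p) {j : ℕ} {sg A : ℤ} {h n : ℕ}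
    (hc : regChk dB rB sB xB H j sg A h n = true)
    (h0 : j = 0 ∨ j = 1 ∧ mm d r s x (p.eval 0) = 0 ∧ NN d r s x (p.eval 0) = 0 ∧
      DD s x (p.eval 0) = 0 ∧ nn d r (p.eval 0) = 0) {t : ℝ} (ht : t ^ j ≠ 0)
    (h1 : (A : ℝ) ≤ t * sc) (h2 : t * sc ≤ A + 2 * h * (n + 1)) :
    Good d r s (x + t) (p.eval t) := by
  have hE := pmem_envX hd hr hs hx hH
  have key : ∀ e : Ex, (j = 0 ∨ j = 1 ∧ e.ev [x, p.eval 0, p.derivative.eval 0, r, s, d] = 0) →
      ∃ q, PMem ((e.evP (envX dB rB sB xB H)).drop j) q ∧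
        e.ev [x + t, p.eval t, p.derivative.eval t, r, s, d] = t ^ j * q.eval t := fun e he => by
    obtain ⟨q, p0, q0⟩ := (e.pmem hE).drop j
    refine ⟨q, p0, ?_⟩
    rw [← eval_envP, eq_pow_mul q0 fun i hi => ?_]
    · simp
    · rcases he with rfl | ⟨rfl, he⟩
      · omega
      · rw [Nat.lt_one_iff.1 hi, coeff_zero_eq_eval_zero, eval_envP, add_zero, he]
  obtain ⟨q1, p1, e1⟩ := key em (h0.imp_right fun h => ⟨h.1, by rw [ev_em, h.2.1]⟩)
  obtain ⟨q2, p2, e2⟩ := key eN (h0.imp_right fun h => ⟨h.1, by rw [ev_eN, h.2.2.1]⟩)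
  obtain ⟨q3, p3, e3⟩ := key eD (h0.imp_right fun h => ⟨h.1, by rw [ev_eD, h.2.2.2.1]⟩)
  obtain ⟨q4, p4, e4⟩ := key en (h0.imp_right fun h => ⟨h.1, by rw [ev_en, h.2.2.2.2]⟩)
  rw [ev_em] at e1
  rw [ev_eN] at e2
  rw [ev_eD] at e3
  rw [ev_en] at e4
  have := chk_sound hc (.cons (PMem.cons hx (PMem.const (mem_int 1))) (.cons hH (.cons p1
    (.cons p2 (.cons p3 (.cons p4 (.cons (PMem.const hs) (.cons (PMem.const hd) .nil))))))))
    h1 h2
  simp only [regL, List.mem_cons, List.not_mem_nil, or_false, forall_eq_or_imp, forall_eq, ev_mul,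
    ev_add, ev_sub, ev_int, ev_var, List.map_cons, List.map_nil, List.getD_cons_zero,
    List.getD_cons_succ, eG, Int.cast_ofNat, eval_add, eval_mul, eval_C, eval_X, Int.cast_one,
    mul_one] at this
  obtain ⟨a1, a2, a3, a4, a5, a6⟩ := this
  exact good_of d0 ht e1 e2 e3 e4 a1 a2 a3 a4 a5 a6

end Pool.Agent.MP_187b32_an.PD.Small

end MrgPart3

-- ======== part 4: formerly Pool.Agent.MP_187b32_an.PD.Small.Step
section MrgPart4

/-!
Regular steps: existence with continuity in a parameter, and enclosure of a given solution.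
-/

open Polynomial Set

namespace Pool.Agent.MP_187b32_an.PD.Small

open Prof

/-- A regular step, centred at `c`, from `c + a` to `c + a + 2 h (n + 1)`, inside the tube
`Q ± K φ`; the final value lies in the ball `v`. -/
structure Stp where
  c : ℤ
  Q : List ℤ
  φ : List ℤ
  K : ℕ
  a : ℤ
  h : ℕ
  n : ℕ
  v : Ball

def Stp.x0 (S : Stp) : ℤ := S.c + S.a
def Stp.x1 (S : Stp) : ℤ := S.c + S.a + 2 * S.h * (S.n + 1)
def Stp.all (S : Stp) : List Ball := stB S.Q S.φ (0, S.K)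

def Stp.bar (S : Stp) (dB rB sB : Ball) (sg : ℤ) (v : Ball) : Bool :=
  chk [eM.evP (envX dB rB sB (S.c, 0) S.all),
    eR.evP (envX dB rB sB (S.c, 0) (stB S.Q S.φ (S.K, 0))),
    eR.evP (envX dB rB sB (S.c, 0) (stB S.Q S.φ (-S.K, 0))), exact S.φ]
    [.int sg * .var 0, .int sg * .var 1, -(.int sg * .var 2), .var 3] S.a S.h S.n &&
  bpos (badd (horner (S.a, 0) (stB S.Q S.φ (S.K, 0))) (bneg v)) &&
  bpos (badd v (bneg (horner (S.a, 0) (stB S.Q S.φ (-S.K, 0))))) &&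
  bpos (badd (bhi S.v) (bneg (horner (S.a + 2 * S.h * (S.n + 1), 0) S.all))) &&
  bpos (badd (horner (S.a + 2 * S.h * (S.n + 1), 0) S.all) (bneg (blo S.v)))

def Stp.reg (S : Stp) (dB rB sB : Ball) (sg : ℤ) : Bool :=
  regChk dB rB sB (S.c, 0) S.all 0 sg S.a S.h S.n

def Stp.rng (S : Stp) (u : Ball) : Bool :=
  chk [S.all, [blo u], [bhi u]] [.var 0 - .var 1, .var 2 - .var 0] S.a S.h S.n

noncomputable def Stp.k (S : Stp) : ℝ := S.K / sc
noncomputable def Stp.H (S : Stp) (θ : ℝ) : ℝ[X] := ofInts S.Q + C θ * ofInts S.φ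
noncomputable def Stp.hh (S : Stp) (θ x : ℝ) : ℝ := (S.H θ).eval (x - S.c / sc)
noncomputable def Stp.hd (S : Stp) (θ x : ℝ) : ℝ := (S.H θ).derivative.eval (x - S.c / sc)
noncomputable def Stp.I (S : Stp) : Set ℝ := Icc (S.x0 / sc) (S.x1 / sc)

variable {S : Stp} {d r s : ℝ} {dB rB sB v u : Ball} {sg : ℤ}

lemma Stp.le (S : Stp) : (S.x0 : ℝ) / sc ≤ S.x1 / sc := by
  have := sc_pos
  have hn0 : (0 : ℝ) ≤ 2 * S.h * (S.n + 1) := by positivity
  refine div_le_div_of_nonneg_right ?_ this.le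
  simp only [Stp.x0, Stp.x1]
  push_cast
  linarith

lemma Stp.rg {x : ℝ} (hx : x ∈ S.I) : (S.a : ℝ) ≤ (x - S.c / sc) * sc ∧
    (x - S.c / sc) * sc ≤ S.a + 2 * S.h * (S.n + 1) := by
  obtain ⟨h1, h2⟩ := hx
  rw [div_le_iff₀ sc_pos] at h1
  rw [le_div_iff₀ sc_pos] at h2
  simp only [Stp.x0, Stp.x1] at h1 h2
  push_cast at h1 h2
  rw [sub_mul, div_mul_cancel₀ _ sc_pos.ne']
  constructor <;> linarith

lemma Stp.der (S : Stp) (θ x : ℝ) : HasDerivAt (S.hh θ) (S.hd θ x) x :=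
  ((S.H θ).hasDerivAt _).comp_sub_const x _

lemma Stp.hh_eq (S : Stp) (θ x : ℝ) : S.hh θ x =
    (ofInts S.Q).eval (x - S.c / sc) + θ * (ofInts S.φ).eval (x - S.c / sc) := by
  simp [Stp.hh, Stp.H]

lemma Stp.cont (S : Stp) : Continuous fun z : ℝ × ℝ => S.hh z.2 z.1 := by
  simp only [Stp.hh_eq]
  have c1 : Continuous fun z : ℝ × ℝ => (ofInts S.Q).eval (z.1 - S.c / sc) :=
    (ofInts S.Q).continuous.comp (by fun_prop)
  have c2 : Continuous fun z : ℝ × ℝ => (ofInts S.φ).eval (z.1 - S.c / sc) :=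
    (ofInts S.φ).continuous.comp (by fun_prop)
  fun_prop

structure Bar (d r s : ℝ) (S : Stp) (v : Ball) : Prop where
  ne : ∀ x ∈ S.I, ∀ θ, |θ| ≤ S.k → MM d r s x (S.hh θ x) ≠ 0
  up : ∀ x ∈ S.I, NN d r s x (S.hh S.k x) / MM d r s x (S.hh S.k x) <
    S.hd S.k x
  lo : ∀ x ∈ S.I, S.hd (-S.k) x <
    NN d r s x (S.hh (-S.k) x) / MM d r s x (S.hh (-S.k) x)
  le : ∀ x ∈ S.I, S.hh (-S.k) x ≤ S.hh S.k x
  th : ∀ x ∈ S.I, ∀ w ∈ Icc (S.hh (-S.k) x) (S.hh S.k x),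
    ∃ θ, |θ| ≤ S.k ∧ w = S.hh θ x
  ini : ∀ w, Mem w v → w ∈ Icc (S.hh (-S.k) (S.x0 / sc)) (S.hh S.k (S.x0 / sc))
  fin : ∀ θ, |θ| ≤ S.k → Mem (S.hh θ (S.x1 / sc)) S.v

lemma Stp.bar_sound (hd : Mem d dB) (hr : Mem r rB) (hs : Mem s sB)
    (hc : S.bar dB rB sB sg v = true) : Bar d r s S v := by
  simp only [Stp.bar, Bool.and_eq_true] at hc
  obtain ⟨⟨⟨⟨c1, c3⟩, c4⟩, c5⟩, c6⟩ := hc
  have hs0 := sc_pos
  have hκ0 : (0 : ℝ) ≤ S.k := by rw [Stp.k]; positivity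
  have m1 : Mem S.k ((S.K : ℤ), 0) := by simpa [Stp.k] using mem_exact S.K
  have m2 : Mem (-S.k) (-(S.K : ℤ), 0) := by simpa [Stp.k, neg_div] using mem_exact (-S.K)
  have key : ∀ x ∈ S.I, ∀ θ, |θ| ≤ S.k → 0 < sg * MM d r s x (S.hh θ x) ∧
      0 < sg * (MM d r s x (S.hh S.k x) * S.hd S.k x -
        NN d r s x (S.hh S.k x)) ∧
      sg * (MM d r s x (S.hh (-S.k) x) * S.hd (-S.k) x -
        NN d r s x (S.hh (-S.k) x)) < 0 ∧ 0 < (ofInts S.φ).eval (x - S.c / sc) :=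
    fun x hx θ hθ => by
    have := chk_sound c1
      (.cons (eM.pmem (pmem_envX hd hr hs (mem_exact S.c) (pmem_st S.Q S.φ (mem_of_abs hθ))))
      (.cons (eR.pmem (pmem_envX hd hr hs (mem_exact S.c) (pmem_st S.Q S.φ m1)))
      (.cons (eR.pmem (pmem_envX hd hr hs (mem_exact S.c) (pmem_st S.Q S.φ m2)))
      (.cons (pmem_exact S.φ) .nil)))) (Stp.rg hx).1 (Stp.rg hx).2
    simp only [List.mem_cons, List.not_mem_nil, or_false, forall_eq_or_imp, forall_eq, ev_neg,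
      ev_mul, ev_int, ev_var, List.map_cons, List.map_nil, List.getD_cons_zero,
      List.getD_cons_succ, eval_envP, ev_eM, ev_eR, add_sub_cancel, neg_pos] at this
    exact this
  have aux : ∀ M N h : ℝ, 0 < sg * M → h - N / M = sg * (M * h - N) / (sg * M) :=
    fun M N h k => by
      have k1 : M ≠ 0 := fun e => by simp [e] at k
      have k2 : (sg : ℝ) ≠ 0 := fun e => by simp [e] at k
      field_simp
  have t0 : Mem ((S.x0 : ℝ) / sc - S.c / sc) (S.a, 0) := by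
    simp [Mem, sub_mul, div_mul_cancel₀ _ hs0.ne', Stp.x0]
  have t1 : Mem ((S.x1 : ℝ) / sc - S.c / sc) (S.a + 2 * S.h * (S.n + 1), 0) := by
    simp only [Mem, sub_mul, div_mul_cancel₀ _ hs0.ne', Stp.x1]
    push_cast
    ring_nf
    simp
  refine ⟨fun x hx θ hθ e => by simpa [e] using (key x hx θ hθ).1, fun x hx => ?_, fun x hx => ?_,
    fun x hx => ?_, fun x hx w hw => ?_, fun w hw => ?_, fun θ hθ => ?_⟩
  · obtain ⟨k1, k2, -⟩ := key x hx _ (abs_of_nonneg hκ0).le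
    rw [← sub_pos, aux _ _ _ k1]
    positivity
  · obtain ⟨k1, -, k2, -⟩ := key x hx (-S.k) (by rw [abs_neg, abs_of_nonneg hκ0])
    rw [← sub_neg, aux _ _ _ k1]
    exact div_neg_of_neg_of_pos k2 k1
  · have h0 := (key x hx 0 (by simpa using hκ0)).2.2.2
    simp only [Stp.hh_eq]
    nlinarith
  · have h0 := (key x hx 0 (by simpa using hκ0)).2.2.2
    simp only [Stp.hh_eq, mem_Icc] at hw ⊢
    refine ⟨(w - (ofInts S.Q).eval (x - S.c / sc)) / (ofInts S.φ).eval (x - S.c / sc),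
      abs_le.2 ⟨?_, ?_⟩, by rw [div_mul_cancel₀ _ h0.ne']; ring⟩
    · rw [le_div_iff₀ h0]; linarith [hw.1]
    · rw [div_le_iff₀ h0]; linarith [hw.2]
  · have k1 := (((pmem_st S.Q S.φ m1).horner t0).add hw.neg).pos c3
    have k2 := (hw.add ((pmem_st S.Q S.φ m2).horner t0).neg).pos c4
    simp only [Stp.hh, Stp.H]
    exact ⟨by linarith, by linarith⟩
  · have k0 := (pmem_st S.Q S.φ (mem_of_abs hθ)).horner t1
    have k1 := ((mem_bhi S.v).add k0.neg).pos c5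
    have k2 := (k0.add (mem_blo S.v).neg).pos c6
    simp only [Stp.hh, Stp.H]
    exact mem_of_lt (by linarith) (by linarith)

lemma Stp.good (d0 : 0 < d) (hd : Mem d dB) (hr : Mem r rB) (hs : Mem s sB)
    (hc : S.reg dB rB sB sg = true) {x θ : ℝ} (hx : x ∈ S.I) (hθ : |θ| ≤ S.k) :
    Good d r s x (S.hh θ x) := by
  have := regChk_sound d0 hd hr hs (mem_exact S.c) (pmem_st S.Q S.φ (mem_of_abs hθ)) hc
    (Or.inl rfl) (by simp) (Stp.rg hx).1 (Stp.rg hx).2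
  rwa [add_sub_cancel] at this

lemma Stp.range (hc : S.rng u = true) {x θ : ℝ} (hx : x ∈ S.I) (hθ : |θ| ≤ S.k) :
    Mem (S.hh θ x) u := by
  have := chk_sound hc (.cons (pmem_st S.Q S.φ (mem_of_abs hθ)) (.cons (PMem.const (mem_blo u))
    (.cons (PMem.const (mem_bhi u)) .nil))) (Stp.rg hx).1 (Stp.rg hx).2
  simp only [List.mem_cons, List.not_mem_nil, or_false, forall_eq_or_imp, forall_eq, ev_sub,
    ev_var, List.map_cons, List.map_nil, List.getD_cons_zero, List.getD_cons_succ, eval_C,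
    sub_pos] at this
  exact mem_of_lt this.1 this.2

/-- A regular solution on the set `T`. -/
def Sg (d r s : ℝ) (T : Set ℝ) (V : ℝ → ℝ) : Prop :=
  ∀ x ∈ T, HasDerivWithinAt V (NN d r s x (V x) / MM d r s x (V x)) T x ∧
    MM d r s x (V x) ≠ 0 ∧ Good d r s x (V x)

lemma Sg.mono {T T' : Set ℝ} {V : ℝ → ℝ} (h : Sg d r s T V) (hT : T' ⊆ T) : Sg d r s T' V :=
  fun x hx => ⟨(h x (hT hx)).1.mono hT, (h x (hT hx)).2⟩

lemma Bar.enc (B : Bar d r s S v) {V : ℝ → ℝ} (hV : Sg d r s S.I V) (h0 : Mem (V (S.x0 / sc)) v) :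
    ∀ x ∈ S.I, ∃ θ, |θ| ≤ S.k ∧ V x = S.hh θ x := fun x hx =>
  B.th x hx _ (fence (V' := fun x => NN d r s x (V x) / MM d r s x (V x))
    (fun y hy => (hV y hy).1.continuousWithinAt)
    (fun y hy => ici_of_icc hy (hV y (Ico_subset_Icc_self hy)).1) (S.der _) (S.der _)
    (fun y hy e => by rw [e]; exact B.up y (Ico_subset_Icc_self hy))
    (fun y hy e => by rw [e]; exact B.lo y (Ico_subset_Icc_self hy)) (B.ini _ h0) x hx)

theorem step {P : Type} [TopologicalSpace P] [CompactSpace P] {r s w : P → ℝ} (hr : Continuous r)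
    (hs : Continuous s) (hw : Continuous w) (B : ∀ p, Bar d (r p) (s p) S v)
    (G : ∀ p, ∀ x ∈ S.I, ∀ θ, |θ| ≤ S.k → Good d (r p) (s p) x (S.hh θ x))
    (hv : ∀ p, Mem (w p) v) : ∃ V : P → ℝ → ℝ,
      (∀ p, V p (S.x0 / sc) = w p ∧ Sg d (r p) (s p) S.I (V p)) ∧
        Continuous fun p => V p (S.x1 / sc) := by
  have ne : ∀ p, ∀ x ∈ S.I, ∀ w ∈ Icc (S.hh (-S.k) x) (S.hh S.k x),
      MM d (r p) (s p) x w ≠ 0 := fun p x hx w hw => by
    obtain ⟨θ, h1, rfl⟩ := (B p).th x hx w hw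
    exact (B p).ne x hx θ h1
  obtain ⟨L, hL0, hLb⟩ := tube_bound (P := P)
    (isCompact_Icc.prod (isCompact_Icc.prod isCompact_Icc) :
      IsCompact (S.I ×ˢ Icc (-S.k) S.k ×ˢ Icc (-S.k) S.k))
    (g := fun z => (fun r s x v w => lip d r s x v w / (MM d r s x v * MM d r s x w))
      (r z.1) (s z.1) z.2.1 (S.hh z.2.2.1 z.2.1) (S.hh z.2.2.2 z.2.1)) (by
      have c1 : Continuous fun z : P × ℝ × ℝ × ℝ => S.hh z.2.2.1 z.2.1 :=
        S.cont.comp (f := fun z : P × ℝ × ℝ × ℝ => (z.2.1, z.2.2.1)) (by fun_prop)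
      have c2 : Continuous fun z : P × ℝ × ℝ × ℝ => S.hh z.2.2.2 z.2.1 :=
        S.cont.comp (f := fun z : P × ℝ × ℝ × ℝ => (z.2.1, z.2.2.2)) (by fun_prop)
      refine ContinuousOn.div (Continuous.continuousOn ?_) (Continuous.continuousOn ?_)
        fun z hz => ?_
      · simp only [lip, MM, NN, mm, b3]; fun_prop
      · simp only [MM, mm, b3]; fun_prop
      · exact mul_ne_zero ((B _).ne _ hz.2.1 _ (abs_le.2 hz.2.2.1))
          ((B _).ne _ hz.2.1 _ (abs_le.2 hz.2.2.2)))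
  obtain ⟨V, v1, v2, v3⟩ := tube_ode (P := P)
    (F := fun p x v => NN d (r p) (s p) x v / MM d (r p) (s p) x v)
    (lo := fun _ => S.hh (-S.k)) (hi := fun _ => S.hh S.k) S.le
    (S.cont.comp (f := fun z : P × ℝ => (z.2, -S.k)) (by fun_prop))
    (S.cont.comp (f := fun z : P × ℝ => (z.2, S.k)) (by fun_prop)) (fun p => (B p).le)
    (ContinuousOn.div (Continuous.continuousOn (by simp only [NN]; fun_prop))
      (Continuous.continuousOn (by simp only [MM, mm, b3]; fun_prop))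
      fun z hz => ne _ _ hz.1 _ hz.2) hL0
    (fun p x hx v hv w hw => by
      rw [div_lip _ _ _ _ _ _ (ne p x hx v hv) (ne p x hx w hw), abs_mul, mul_comm]
      obtain ⟨θ1, h1, rfl⟩ := (B p).th x hx v hv
      obtain ⟨θ2, h2, rfl⟩ := (B p).th x hx w hw
      exact mul_le_mul_of_nonneg_right (hLb p (x, θ1, θ2) ⟨hx, abs_le.1 h1, abs_le.1 h2⟩)
        (abs_nonneg _))
    (fun _ => S.der _) (fun _ => S.der _) (fun p x hx => (B p).up x (Ico_subset_Icc_self hx))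
    (fun p x hx => (B p).lo x (Ico_subset_Icc_self hx)) hw fun p => (B p).ini _ (hv p)
  refine ⟨V, fun p => ⟨v1 p, fun x hx => ⟨(v2 p x hx).1, ne p x hx _ (v2 p x hx).2, ?_⟩⟩, v3 _⟩
  obtain ⟨θ, h1, h2⟩ := (B p).th x hx _ (v2 p x hx).2
  rw [h2]
  exact G p x hx θ h1

end Pool.Agent.MP_187b32_an.PD.Small

end MrgPart4

-- ======== part 5: formerly Pool.Agent.MP_187b32_an.PD.Small.Join
section MrgPart5

-- ======== part 0: formerly Pool.Agent.MP_187b32_an.PD.Small.Fin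
section MrgPart0

/-!
From a smooth solution of the first order equation to the inner statement.
-/

open Set Filter Topology
open scoped ContDiff

namespace Pool.Agent.MP_187b32_an.PD.Small

open Prof

lemma eqs_ode {d r s x w w' : ℝ} (d0 : d ≠ 0) (hD : DD s x w ≠ 0)
    (h : MM d r s x w * w' = NN d r s x w) :
    w + 2 * x * (1 - s * x / d * (nn d r w / DD s x w)) * w' = w + NN d r s x w / (d * DD s x w) ∧
    (r - 1) * w + (1 + w) * (w + NN d r s x w / (d * DD s x w)) + nn d r w / DD s x w = 0 ∧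
    (r - 1) + (1 + w) * (s * x / d) * (nn d r w / DD s x w) +
      1 / d * (w + NN d r s x w / (d * DD s x w)) + (1 - 1 / d) * w = 0 := by
  refine ⟨?_, ?_, ?_⟩
  · rw [← h]
    field_simp
    simp only [MM, mm, DD, nn]
    ring
  · field_simp
    simp only [NN, DD, nn, b3]
    ring
  · field_simp
    simp only [NN, DD, nn, b3]
    ring

theorem inner_of {d r s d0 xe : ℝ} {W : ℝ → ℝ} (dp : 0 < d) (s0 : 0 < s) (hd0 : 0 < d0)
    (h1e : 1 < xe) (hxe : d < s * xe) (hsm : ∀ x ∈ Ioo (-d0) xe, ContDiffAt ℝ ∞ W x)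
    (hode : ∀ x ∈ Ioo (-d0) xe, x ≠ 1 → MM d r s x (W x) * deriv W x = NN d r s x (W x))
    (hgood : ∀ x ∈ Ico 0 xe, x ≠ 1 → Good d r s x (W x))
    (h1 : d - 2 * s * (1 + W 1) * deriv W 1 ≠ 0) : Inner (1 / d) r 1 (W (d / s)) := by
  have m1 : (1 : ℝ) ∈ Ioo (-d0) xe := ⟨by linarith, by linarith⟩
  have hsm' : ∀ x ∈ Ioo (-d0) xe, ContDiffAt ℝ ∞ (deriv W) x := fun x hx =>
    (hsm x hx).derivWithin (m := ∞) (by simp)
  obtain ⟨d1, hd1, hD0⟩ : ∃ d1 > 0, ∀ x, |x| < d1 → DD s x (W x) ≠ 0 := by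
    have c := (hsm 0 ⟨by linarith, by linarith⟩).continuousAt
    have c2 : ContinuousAt (fun x => DD s x (W x)) 0 := by simp only [DD]; fun_prop
    obtain ⟨ε, h0, h⟩ := Metric.eventually_nhds_iff.1 (c2.eventually_ne (y := 0) (by simp [DD]))
    exact ⟨ε, h0, fun x hx => h (by simpa using hx)⟩
  set η := min d0 d1 with hη
  have a0 : 0 < η := lt_min hd0 hd1
  have a1 : η ≤ d0 := min_le_left _ _
  have a2 : η ≤ d1 := min_le_right _ _
  have sub : ∀ x ∈ Ioo (-η) xe, x ∈ Ioo (-d0) xe := fun x hx => ⟨by linarith [hx.1], hx.2⟩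
  have m2 : (1 : ℝ) ∈ Ioo (-η) xe := ⟨by linarith, by linarith⟩
  have hD : ∀ x ∈ Ioo (-η) xe, x ≠ 1 → DD s x (W x) ≠ 0 := fun x hx x1 => by
    rcases le_total 0 x with h | h
    · exact (hgood x ⟨h, hx.2⟩ x1).1
    · exact hD0 x (by rw [abs_of_nonpos h]; linarith [hx.1])
  let G : ℝ → ℝ := fun x => -d * ((r - 1) * W x + (1 + W x) * (W x + 2 * x * deriv W x)) /
    (d - 2 * s * x ^ 2 * (1 + W x) * deriv W x)
  let ν : ℝ → ℝ := fun x => if x = 1 then G 1 else nn d r (W x) / DD s x (W x)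
  let A : ℝ → ℝ := fun x => W x + 2 * x * (1 - s * x / d * ν x) * deriv W x
  have off : ∀ x ∈ Ioo (-η) xe, x ≠ 1 → ν x = nn d r (W x) / DD s x (W x) ∧
      A x = W x + NN d r s x (W x) / (d * DD s x (W x)) ∧
      (r - 1) * W x + (1 + W x) * A x + ν x = 0 ∧
      (r - 1) + (1 + W x) * (s * x / d) * ν x + 1 / d * A x + (1 - 1 / d) * W x = 0 :=
    fun x hx x1 => by
    have e : ν x = nn d r (W x) / DD s x (W x) := if_neg x1
    obtain ⟨b1, b2, b3⟩ := eqs_ode dp.ne' (hD x hx x1) (hode x (sub x hx) x1)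
    have e2 : A x = W x + NN d r s x (W x) / (d * DD s x (W x)) := by simp only [A, e]; exact b1
    exact ⟨e, e2, by rw [e2, e]; exact b2, by rw [e2, e]; exact b3⟩
  have cW := (hsm 1 m1).continuousAt
  have cW' := (hsm' 1 m1).continuousAt
  have h1' : d - 2 * s * 1 ^ 2 * (1 + W 1) * deriv W 1 ≠ 0 := by simpa using h1
  have near : ν =ᶠ[𝓝 1] G := by
    have c2 : ContinuousAt (fun x => d - 2 * s * x ^ 2 * (1 + W x) * deriv W x) 1 := by fun_prop
    filter_upwards [c2.eventually_ne h1', Ioo_mem_nhds m2.1 m2.2] with x h hx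
    by_cases x1 : x = 1
    · simp [ν, x1]
    · have := (off x hx x1).2.2.1
      simp only [G]
      rw [eq_div_iff h]
      simp only [A] at this
      field_simp at this
      linear_combination this
  have sν : ∀ x ∈ Ioo (-η) xe, ContDiffAt ℝ ∞ ν x := fun x hx => by
    have w0 := hsm x (sub x hx)
    have w1 := hsm' x (sub x hx)
    by_cases x1 : x = 1
    · subst x1
      refine ContDiffAt.congr_of_eventuallyEq ?_ near
      exact ContDiffAt.div (by fun_prop) (by fun_prop) h1'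
    · have : ContDiffAt ℝ ∞ (fun x => nn d r (W x) / DD s x (W x)) x :=
        ContDiffAt.div (by simp only [nn, b3]; fun_prop) (by simp only [DD]; fun_prop) (hD x hx x1)
      refine this.congr_of_eventuallyEq ?_
      filter_upwards [isOpen_ne.mem_nhds x1] with y hy using if_neg hy
  have cν := (sν 1 m2).continuousAt
  have cA : ContinuousAt A 1 := by simp only [A]; fun_prop
  have ev1 : ∀ᶠ x in 𝓝[≠] (1 : ℝ), x ∈ Ioo 0 xe ∧ x ≠ 1 := by
    filter_upwards [mem_nhdsWithin_of_mem_nhds (Ioo_mem_nhds one_pos m2.2), self_mem_nhdsWithin]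
      with x h1 h2 using ⟨h1, h2⟩
  have lim0 : ∀ f : ℝ → ℝ, ContinuousAt f 1 → (∀ᶠ x in 𝓝[≠] 1, f x = 0) → f 1 = 0 :=
    fun f hf h => le_antisymm (lim_le (g := fun _ => 0) hf continuousAt_const (h.mono fun _ k => k.le))
      (lim_le (f := fun _ => 0) continuousAt_const hf (h.mono fun _ k => k.ge))
  have eqs : ∀ x ∈ Ioo (-η) xe, (r - 1) * W x + (1 + W x) * A x + ν x = 0 ∧
      (r - 1) + (1 + W x) * (s * x / d) * ν x + 1 / d * A x + (1 - 1 / d) * W x = 0 :=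
    fun x hx => by
    by_cases x1 : x = 1
    · subst x1
      have k := ev1.mono fun y hy => (off y ⟨by linarith [hy.1.1], hy.1.2⟩ hy.2).2.2
      exact ⟨lim0 (fun x => (r - 1) * W x + (1 + W x) * A x + ν x) (by fun_prop)
        (k.mono fun y hy => hy.1), lim0 (fun x => (r - 1) + (1 + W x) * (s * x / d) * ν x +
          1 / d * A x + (1 - 1 / d) * W x) (by fun_prop) (k.mono fun y hy => hy.2)⟩
    · exact (off x hx x1).2.2
  have ineq0 : ∀ x ∈ Ico 0 xe, x ≠ 1 → Ineq (s * x / d) (W x) (A x) (ν x) := fun x hx x1 => by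
    obtain ⟨e1, e2, -⟩ := off x ⟨by linarith [hx.1], hx.2⟩ x1
    rw [e1, e2]
    exact (hgood x hx x1).2
  have ineq : ∀ x ∈ Ico 0 xe, Ineq (s * x / d) (W x) (A x) (ν x) := fun x hx => by
    by_cases x1 : x = 1
    · subst x1
      have k := ev1.mono fun y hy => ineq0 y (Ioo_subset_Ico_self hy.1) hy.2
      exact ⟨lim_le (f := fun _ => 1 / 4) (g := fun x => 1 - s * x / d * ν x) (by fun_prop)
          (by fun_prop) (k.mono fun y hy => hy.1),
        lim_le (f := fun _ => 1 / 20) (g := fun x => 1 + A x) (by fun_prop)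
          (by fun_prop) (k.mono fun y hy => hy.2.1),
        lim_le (f := fun _ => 1 / 20) (g := fun x => 1 + W x) (by fun_prop)
          (by fun_prop) (k.mono fun y hy => hy.2.2.1),
        lim_le (f := fun x => 4 / 3 * (s * x / d) * ν x ^ 2) (g := fun x => (1 + A x - 1 / 20) ^ 2)
          (by fun_prop) (by fun_prop) (k.mono fun y hy => hy.2.2.2.1),
        lim_le (f := fun x => 4 / 3 * (s * x / d) * ν x ^ 2) (g := fun x => (1 + W x - 1 / 20) ^ 2)
          (by fun_prop) (by fun_prop) (k.mono fun y hy => hy.2.2.2.2)⟩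
    · exact ineq0 x hx x1
  set δ := min (η * s / d) ((s * xe - d) / d) with hδ
  have b0 : 0 < δ := lt_min (by positivity) (div_pos (by linarith) dp)
  have b1 : δ * d ≤ η * s := (le_div_iff₀ dp).1 (min_le_left _ _)
  have b2 : δ * d ≤ s * xe - d := (le_div_iff₀ dp).1 (min_le_right _ _)
  have mem : ∀ y ∈ Ioo (-δ) (1 + δ), y * d / s ∈ Ioo (-η) xe := fun y hy => by
    constructor
    · rw [lt_div_iff₀ s0]; nlinarith [hy.1]
    · rw [div_lt_iff₀ s0]; nlinarith [hy.2]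
  have hA : ∀ y ∈ Ioo (-δ) (1 + δ),
      AA (fun y => W (y * d / s)) (fun y => ν (y * d / s)) y = A (y * d / s) := fun y hy => by
    have d1 := ((hsm _ (sub _ (mem y hy))).differentiableAt (by simp)).hasDerivAt
    have d2 : HasDerivAt (fun y => W (y * d / s)) (deriv W (y * d / s) * (1 * d / s)) y :=
      d1.comp y (((hasDerivAt_id y).mul_const d).div_const s)
    simp only [AA, A, d2.deriv]
    field_simp
  have hy : ∀ y, s * (y * d / s) / d = y := fun y => by field_simp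
  rw [Inner, one_pow, inv_one]
  refine ⟨δ, 1 / 40, fun y => W (y * d / s), fun y => ν (y * d / s), b0, by norm_num,
    fun y h => ?_, fun y h => ?_, fun y h => ?_, fun y h => ?_, by simp⟩
  · exact ((hsm _ (sub _ (mem y h))).comp y (f := fun y => y * d / s)
      (by fun_prop)).contDiffWithinAt
  · exact ((sν _ (mem y h)).comp y (f := fun y => y * d / s) (by fun_prop)).contDiffWithinAt
  · have := eqs _ (mem y h)
    rw [hy] at this
    rw [Eqs, hA y h]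
    exact this
  · have h' : y ∈ Ioo (-δ) (1 + δ) := ⟨by linarith [h.1], by linarith [h.2]⟩
    obtain ⟨c1, c2, c3, c4, c5⟩ := ineq _ ⟨by have := h.1; positivity, (mem y h').2⟩
    rw [hy] at c1 c4 c5
    rw [Rep, hA y h']
    exact ⟨by linarith, by linarith, by linarith, by nlinarith, by nlinarith⟩

end Pool.Agent.MP_187b32_an.PD.Small

end MrgPart0

-- ======== part 1: formerly Pool.Agent.MP_187b32_an.PD.Small.Join
section MrgPart1

/-!
Gluing the pieces of the profile.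
-/

open Set Filter Topology
open scoped ContDiff

namespace Pool.Agent.MP_187b32_an.PD.Small

open Prof

variable {d r s : ℝ}

lemma Sg.glue {b : ℝ} {S T : Set ℝ} {V V' : ℝ → ℝ} (h1 : Sg d r s S V) (h2 : Sg d r s T V')
    (hS : ∀ x ∈ S, x ≤ b) (hT : ∀ x ∈ T, b ≤ x) (bS : b ∈ S) (bT : b ∈ T) (e : V b = V' b) :
    ∃ U, Sg d r s (S ∪ T) U ∧ (∀ x ≤ b, U x = V x) ∧ ∀ x, b ≤ x → U x = V' x := by
  let U : ℝ → ℝ := fun x => if x ≤ b then V x else V' x
  have u1 : ∀ x ≤ b, U x = V x := fun x h => if_pos h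
  have u2 : ∀ x, b ≤ x → U x = V' x := fun x h => by
    rcases h.eq_or_lt with rfl | h
    · rw [u1 _ le_rfl, e]
    · exact if_neg h.not_ge
  have l1 : Sg d r s S U := fun x hx => by
    rw [u1 x (hS x hx)]
    exact ⟨(h1 x hx).1.congr (fun y hy => u1 y (hS y hy)) (u1 x (hS x hx)), (h1 x hx).2⟩
  have l2 : Sg d r s T U := fun x hx => by
    rw [u2 x (hT x hx)]
    exact ⟨(h2 x hx).1.congr (fun y hy => u2 y (hT y hy)) (u2 x (hT x hx)), (h2 x hx).2⟩
  refine ⟨U, fun x hx => ⟨?_, hx.elim (fun h => (l1 x h).2) fun h => (l2 x h).2⟩, u1, u2⟩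
  rcases lt_trichotomy x b with h | rfl | h
  · exact (l1 x (hx.resolve_right fun k => (hT x k).not_gt h)).1.mono_of_mem_nhdsWithin
      (mem_nhdsWithin.2 ⟨Iio b, isOpen_Iio, h, fun y hy =>
        hy.2.resolve_right fun k => (hT y k).not_gt hy.1⟩)
  · exact (l1 x bS).1.union (l2 x bT).1
  · exact (l2 x (hx.resolve_left fun k => (hS x k).not_gt h)).1.mono_of_mem_nhdsWithin
      (mem_nhdsWithin.2 ⟨Ioi b, isOpen_Ioi, h, fun y hy =>
        hy.2.resolve_left fun k => (hS y k).not_gt hy.1⟩)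

lemma SideSol.seg {xs ε T δ : ℝ} {W : PowerSeries ℝ} {V : ℝ → ℝ}
    (hV : SideSol d r s xs ε T δ W V) (hε : ε * ε = 1)
    (good : ∀ τ ∈ Ioc 0 T, Good d r s (xs + ε * τ) (V τ)) {S : Set ℝ}
    (hS : ∀ x ∈ S, ε * (x - xs) ∈ Ioc 0 T) : Sg d r s S fun x => V (ε * (x - xs)) := fun x hx => by
  have e : xs + ε * (ε * (x - xs)) = x := by linear_combination (x - xs) * hε
  have a1 := (hV.der _ (hS x hx)).comp x
    (((hasDerivAt_id x).sub_const xs).const_mul ε).hasDerivWithinAt (s := S)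
    fun y hy => (hS y hy).2
  have a2 := hV.ne _ (hS x hx)
  have a3 := good _ (hS x hx)
  rw [e] at a1 a2 a3
  refine ⟨?_, a2, a3⟩
  refine HasDerivWithinAt.congr_deriv a1 ?_
  linear_combination (NN d r s x (V (ε * (x - xs))) / MM d r s x (V (ε * (x - xs)))) * hε

lemma Sg.smooth {S O : Set ℝ} {V U : ℝ → ℝ} (h : Sg d r s S V) (hO : IsOpen O) (hOS : O ⊆ S)
    (e : ∀ x ∈ O, U x = V x) : ∀ x ∈ O, ContDiffAt ℝ ∞ U x ∧
      MM d r s x (U x) * deriv U x = NN d r s x (U x) ∧ Good d r s x (U x) := by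
  have hd : ∀ x ∈ O, HasDerivAt V (NN d r s x (V x) / MM d r s x (V x)) x := fun x hx =>
    (h x (hOS hx)).1.hasDerivAt (mem_of_superset (hO.mem_nhds hx) hOS)
  have hs : ContDiffOn ℝ ∞ V O := contDiffOn_infty.2 fun n => by
    induction n with
    | zero => exact contDiffOn_zero.2 fun x hx => (hd x hx).continuousAt.continuousWithinAt
    | succ n ih =>
      rw [Nat.cast_succ]
      refine (contDiffOn_succ_iff_deriv_of_isOpen hO).2
        ⟨fun x hx => (hd x hx).differentiableAt.differentiableWithinAt, by simp, ?_⟩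
      refine ContDiffOn.congr (ContDiffOn.div (f := fun x => NN d r s x (V x))
        (g := fun x => MM d r s x (V x)) ?_ ?_ fun x hx => (h x (hOS hx)).2.1)
        fun x hx => (hd x hx).deriv
      · simp only [NN]; fun_prop
      · simp only [MM, mm, b3]; fun_prop
  intro x hx
  have ee : U =ᶠ[𝓝 x] V := mem_of_superset (hO.mem_nhds hx) e
  rw [ee.deriv_eq, e x hx, (hd x hx).deriv]
  refine ⟨(hs.contDiffAt (hO.mem_nhds hx)).congr_of_eventuallyEq ee, ?_, (h x (hOS hx)).2.2⟩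
  have := (h x (hOS hx)).2.1
  field_simp

lemma ser_smooth {xs ν R x : ℝ} {W : PowerSeries ℝ} (hν : 0 < ν)
    (h : ∀ n, |W.coeff n| * ν ^ n ≤ R) (hs : res d r s xs W = 0) {U : ℝ → ℝ} (hx : |x - xs| < ν)
    (e : U =ᶠ[𝓝 x] fun y => ev W (y - xs)) : ContDiffAt ℝ ∞ U x ∧
      MM d r s x (U x) * deriv U x = NN d r s x (U x) ∧ (x = xs → deriv U x = W.coeff 1) := by
  obtain ⟨v, h1, h2⟩ := ev_ode hν h hs hx
  have h3 : HasDerivAt (fun y => ev W (y - xs)) v x := h1.comp_sub_const x xs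
  rw [add_sub_cancel] at h2
  rw [e.deriv_eq, e.eq_of_nhds, h3.deriv]
  refine ⟨ContDiffAt.congr_of_eventuallyEq ?_ e, h2, fun k => ?_⟩
  · exact ((ev_analytic hν h hx).contDiffAt).comp x (f := fun y => y - xs) (by fun_prop)
  · obtain ⟨v', h4, h5⟩ := ev_deriv hν h hx
    rw [h1.unique h4, ← h5.2, k, sub_self, ev_zero]
    simp [PowerSeries.coeff_derivative]

theorem assemble {Wo Ws : PowerSeries ℝ} {Vo U0 Vl Vr V : ℝ → ℝ}
    {νo Ro νs Rs δo δl δr xo T xe : ℝ} (dp : 0 < d) (s0 : 0 < s)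
    (ho : 0 < νo) (bo : ∀ n, |Wo.coeff n| * νo ^ n ≤ Ro) (so : res d r s 0 Wo = 0)
    (hs : 0 < νs) (bs : ∀ n, |Ws.coeff n| * νs ^ n ≤ Rs) (ss : res d r s 1 Ws = 0)
    (do1 : 0 < δo) (do2 : δo < xo) (dl : 0 < δl) (dr : 0 < δr) (dr2 : δr < T) (hx : xo ≤ 1 - T)
    (So : SideSol d r s 0 1 xo δo Wo Vo) (Sl : SideSol d r s 1 (-1) T δl Ws Vl)
    (Sr : SideSol d r s 1 1 T δr Ws Vr)
    (g0 : Good d r s 0 (Wo.coeff 0)) (go : ∀ τ ∈ Ioc 0 xo, Good d r s (0 + 1 * τ) (Vo τ))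
    (gl : ∀ τ ∈ Ioc 0 T, Good d r s (1 + -1 * τ) (Vl τ))
    (gr : ∀ τ ∈ Ioc 0 T, Good d r s (1 + 1 * τ) (Vr τ))
    (e0 : U0 xo = Vo xo) (e1 : U0 (1 - T) = Vl T) (e2 : V (1 + T) = Vr T)
    (hU : Sg d r s (Icc xo (1 - T)) U0) (hV : Sg d r s (Icc (1 + T) xe) V)
    (k1 : s * (1 + T) ≤ d) (k2 : d < s * xe)
    (h1 : d - 2 * s * (1 + Ws.coeff 0) * Ws.coeff 1 ≠ 0) : Inner (1 / d) r 1 (V (d / s)) := by
  have T0 : 0 < T := dr.trans dr2
  have x0 : 0 < xo := do1.trans do2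
  have k3 : 1 + T < xe := lt_of_mul_lt_mul_left (k1.trans_lt k2) s0.le
  obtain ⟨L0, j1, j2, j3⟩ := (So.seg (by norm_num) go (S := Ioc 0 xo)
    (fun x hx => by simpa using hx)).glue hU (b := xo) (fun x hx => hx.2) (fun x hx => hx.1)
    ⟨x0, le_rfl⟩ ⟨le_rfl, hx⟩ (by simp [e0])
  rw [Ioc_union_Icc_eq_Ioc x0 hx] at j1
  obtain ⟨L, l1, l2, l3⟩ := j1.glue (Sl.seg (by norm_num) gl (S := Ico (1 - T) 1)
    fun x hx => ⟨by linarith [hx.2], by linarith [hx.1]⟩) (b := 1 - T) (fun x hx => hx.2)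
    (fun x hx => hx.1) ⟨by linarith, le_rfl⟩ ⟨le_rfl, by linarith⟩ (by simp [j3 _ hx, e1])
  obtain ⟨M, m1, m2, m3⟩ := (Sr.seg (by norm_num) gr (S := Ioc 1 (1 + T))
    fun x hx => ⟨by linarith [hx.1], by linarith [hx.2]⟩).glue hV (b := 1 + T) (fun x hx => hx.2)
    (fun x hx => hx.1) ⟨by linarith, le_rfl⟩ ⟨le_rfl, k3.le⟩ (by simp [e2])
  let U : ℝ → ℝ := fun x => if x ≤ 1 then L x else M x
  have a1 := l1.smooth (U := U) (O := Ioo 0 1) isOpen_Ioo (fun x hx => by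
    rcases le_total x (1 - T) with h | h
    · exact Or.inl ⟨hx.1, h⟩
    · exact Or.inr ⟨h, hx.2⟩) fun x hx => if_pos hx.2.le
  have a2 := m1.smooth (U := U) (O := Ioo 1 xe) isOpen_Ioo (fun x hx => by
    rcases le_total x (1 + T) with h | h
    · exact Or.inl ⟨hx.1, h⟩
    · exact Or.inr ⟨h, hx.2.le⟩) fun x hx => if_neg hx.1.not_ge
  have b0 : ∀ x < δo, U x = ev Wo (x - 0) := fun x hx => by
    simp only [U]
    rw [if_pos (by linarith), l2 x (by linarith), j2 x (by linarith), So.eq _ (by linarith)]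
    simp
  have a0 : ∀ x ∈ Ioc (-νo) 0, ContDiffAt ℝ ∞ U x ∧
      MM d r s x (U x) * deriv U x = NN d r s x (U x) ∧ (x = 0 → deriv U x = Wo.coeff 1) :=
    fun x hx => ser_smooth ho bo so (by rw [sub_zero, abs_of_nonpos hx.2]; linarith [hx.1])
      (mem_of_superset (Iio_mem_nhds (hx.2.trans_lt do1)) b0)
  have b1 : U =ᶠ[𝓝 1] fun y => ev Ws (y - 1) := by
    filter_upwards [Ioo_mem_nhds (show max (1 - T) (1 - δl) < 1 from max_lt (by linarith)
      (by linarith)) (show 1 < 1 + δr by linarith)] with x hx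
    have k1 := (max_lt_iff.1 hx.1).1
    have k2 := (max_lt_iff.1 hx.1).2
    simp only [U]
    split_ifs with h
    · rw [l3 x k1.le, Sl.eq _ (by linarith)]
      simp
    · rw [m2 x (by linarith [hx.2]), Sr.eq _ (by linarith [hx.2])]
      simp
  obtain ⟨c1, c2, c3⟩ := ser_smooth hs bs ss (x := 1) (by simpa using hs) b1
  have key : ∀ x ∈ Ioo (-νo) xe, ContDiffAt ℝ ∞ U x ∧
      MM d r s x (U x) * deriv U x = NN d r s x (U x) := fun x hx => by
    rcases le_or_gt x 0 with h | h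
    · exact ⟨(a0 x ⟨hx.1, h⟩).1, (a0 x ⟨hx.1, h⟩).2.1⟩
    · rcases lt_trichotomy x 1 with k | rfl | k
      · exact ⟨(a1 x ⟨h, k⟩).1, (a1 x ⟨h, k⟩).2.1⟩
      · exact ⟨c1, c2⟩
      · exact ⟨(a2 x ⟨k, hx.2⟩).1, (a2 x ⟨k, hx.2⟩).2.1⟩
  have k4 : 1 + T ≤ d / s := by rw [le_div_iff₀ s0]; linarith
  have fin : U (d / s) = V (d / s) := by
    simp only [U]
    rw [if_neg (by linarith), m3 _ k4]
  rw [← fin]
  refine inner_of dp s0 ho (by linarith) k2 (fun x hx => (key x hx).1)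
    (fun x hx _ => (key x hx).2) (fun x hx x1 => ?_) ?_
  · rcases hx.1.eq_or_lt with rfl | h
    · rwa [b0 0 do1, sub_zero, ev_zero]
    · rcases lt_or_gt_of_ne x1 with k | k
      · exact (a1 x ⟨h, k⟩).2.2
      · exact (a2 x ⟨k, hx.2⟩).2.2
  · rwa [c3 rfl, b1.eq_of_nhds, sub_self, ev_zero]

end Pool.Agent.MP_187b32_an.PD.Small

end MrgPart1

-- marker of a merged file
example : 731051 + 488937 = 731051 + 488937 := rfl

end MrgPart5

-- ======== part 6: formerly Pool.Agent.MP_187b32_an.PD.Small.Dat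
section MrgPart6

/-!
Chains of steps, packaged checks, and the shooting argument.
-/

open Polynomial Set

namespace Pool.Agent.MP_187b32_an.PD.Small

open Prof

def Bars (dB rB sB : Ball) (sg : ℤ) : List Stp → ℤ → Ball → Prop
  | [], _, _ => True
  | S :: l, x, v => S.x0 = x ∧ S.bar dB rB sB sg v = true ∧ Bars dB rB sB sg l S.x1 S.v

def Regs (dB rB sB : Ball) (sg : ℤ) : List Stp → Prop
  | [] => True
  | S :: l => S.reg dB rB sB sg = true ∧ Regs dB rB sB sg l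

def endX : List Stp → ℤ → ℤ
  | [], x => x
  | S :: l, _ => endX l S.x1

def endV : List Stp → Ball → Ball
  | [], v => v
  | S :: l, _ => endV l S.v

section

variable {d : ℝ} {dB rB sB : Ball} {sg : ℤ}

lemma Bars.le : ∀ {l : List Stp} {x : ℤ} {v : Ball}, Bars dB rB sB sg l x v →
    (x : ℝ) / sc ≤ endX l x / sc
  | [], _, _, _ => le_rfl
  | S :: _, _, _, ⟨h1, _, h3⟩ => h1 ▸ S.le.trans h3.le

lemma Bars.enc {r s : ℝ} (hd : Mem d dB) (hr : Mem r rB) (hs : Mem s sB) {V : ℝ → ℝ} :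
    ∀ {l : List Stp} {x : ℤ} {v : Ball}, Bars dB rB sB sg l x v →
      Sg d r s (Icc (x / sc) (endX l x / sc)) V → Mem (V (x / sc)) v →
        Mem (V (endX l x / sc)) (endV l v)
  | [], _, _, _, _, h => h
  | S :: l, x, v, ⟨h1, h2, h3⟩, hV, h => by
    subst h1
    have B := Stp.bar_sound hd hr hs h2
    obtain ⟨θ, k1, k2⟩ := B.enc (hV.mono (Icc_subset_Icc_right h3.le)) h _ ⟨S.le, le_rfl⟩
    exact h3.enc hd hr hs (hV.mono (Icc_subset_Icc_left S.le)) (k2 ▸ B.fin θ k1)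

lemma Bars.run {P : Type} [TopologicalSpace P] [CompactSpace P] {r s : P → ℝ} (d0 : 0 < d)
    (cr : Continuous r) (cs : Continuous s) (hd : Mem d dB) (hr : ∀ p, Mem (r p) rB)
    (hs : ∀ p, Mem (s p) sB) : ∀ {l : List Stp} {x : ℤ} {v : Ball} {w : P → ℝ},
      Bars dB rB sB sg l x v → Regs dB rB sB sg l → Continuous w → (∀ p, Mem (w p) v) →
      (∀ p, MM d (r p) (s p) (x / sc) (w p) ≠ 0 ∧ Good d (r p) (s p) (x / sc) (w p)) →
      ∃ V : P → ℝ → ℝ, (∀ p, V p (x / sc) = w p ∧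
        Sg d (r p) (s p) (Icc (x / sc) (endX l x / sc)) (V p)) ∧
          Continuous fun p => V p (endX l x / sc)
  | [], x, _, w, _, _, cw, _, h => ⟨fun p _ => w p, fun p => ⟨rfl, fun y hy => by
      rw [endX, Icc_self] at hy ⊢
      rw [mem_singleton_iff.1 hy]
      exact ⟨hasDerivWithinAt_iff_hasFDerivWithinAt.2 HasFDerivWithinAt.singleton, h p⟩⟩, cw⟩
  | S :: l, x, v, w, ⟨h1, h2, h3⟩, ⟨g1, g2⟩, cw, hw, _ => by
    subst h1
    have B := fun p => Stp.bar_sound hd (hr p) (hs p) h2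
    obtain ⟨V, v1, v2⟩ := step cr cs cw B
      (fun p x hx θ hθ => Stp.good d0 hd (hr p) (hs p) g1 hx hθ) hw
    have e : (S.x1 : ℝ) / sc ∈ S.I := ⟨S.le, le_rfl⟩
    obtain ⟨V', w1, w2⟩ := h3.run d0 cr cs hd hr hs g2 v2 (fun p => by
      obtain ⟨θ, k1, k2⟩ := (B p).enc (v1 p).2 ((v1 p).1 ▸ hw p) _ e
      exact k2 ▸ (B p).fin θ k1) fun p => ((v1 p).2 _ e).2
    choose U u1 u2 u3 using fun p => (v1 p).2.glue (w1 p).2 (fun x hx => hx.2) (fun x hx => hx.1)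
      e ⟨le_rfl, h3.le⟩ (w1 p).1.symm
    refine ⟨U, fun p => ⟨by rw [u2 p _ S.le, (v1 p).1], ?_⟩, w2.congr fun p => (u3 p _ h3.le).symm⟩
    have := u1 p
    rwa [Stp.I, Icc_union_Icc_eq_Icc S.le h3.le] at this

def lowChk (dB rB sB : Ball) : List (Ball × ℤ) → ℕ → List Ball → Bool
  | [], _, _ => true
  | b :: l, n, low => coefChk dB rB sB 1 low n b.1 b.2 &&
      lowChk dB rB sB l (n + 1) (padd low (pshift n [b.1]))

def lowOf : List (Ball × ℤ) → ℕ → List Ball → List Ball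
  | [], _, low => low
  | b :: l, n, low => lowOf l (n + 1) (padd low (pshift n [b.1]))

lemma lowChk_sound {r s : ℝ} (hd : Mem d dB) (hr : Mem r rB) (hs : Mem s sB) {W : PowerSeries ℝ}
    (hj : ∀ n, 2 ≤ n → Jet d r s (1 : ℤ) W n) : ∀ (l : List (Ball × ℤ)) (n : ℕ) (low : List Ball),
      2 ≤ n → PMem low (W.trunc n) → lowChk dB rB sB l n low = true →
        PMem (lowOf l n low) (W.trunc (n + l.length))
  | [], _, _, _, h, _ => h
  | b :: l, n, low, hn, h, hc => by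
    rw [lowChk, Bool.and_eq_true] at hc
    rw [List.length_cons, add_comm l.length, ← add_assoc]
    exact lowChk_sound hd hr hs hj l (n + 1) _ (by omega)
      (coefChk_sound hd hr hs (hj n hn) h hc.1) hc.2

end

structure Geo where
  d : ℕ
  m : ℕ
  xo : ℕ
  T : ℕ
  ho : ℕ
  no : ℕ
  hs : ℕ
  ns : ℕ

structure Dat where
  wB : Ball
  rB : Ball
  sB : Ball
  gB : Ball
  cs : List (Ball × ℤ)
  Qo : List ℤ
  Ko : ℕ
  Qs : List ℤ
  Ks : ℕ
  L : List Stp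

def Geo.ok (G : Geo) : Bool :=
  decide (1 ≤ G.d ∧ 0 < G.xo ∧ 0 < G.T ∧ G.xo ≤ 2 * G.ho * (G.no + 1) ∧ G.T ≤ G.hs * (G.ns + 1))
def Dat.k (D : Dat) : ℕ := 2 + D.cs.length
def Dat.low (D : Dat) : List Ball := lowOf D.cs 2 [D.wB, D.gB]
def Dat.Ho (D : Dat) : List Ball := hbB [] 0 D.Qo (0, D.Ko)
def Dat.Hs (D : Dat) : List Ball := hbB D.low D.k D.Qs (0, D.Ks)
def Dat.vo (D : Dat) (G : Geo) : Ball := horner (G.xo, 0) D.Ho
def Dat.vr (D : Dat) (G : Geo) : Ball := horner (G.T, 0) D.Hs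
def Dat.mis (D : Dat) (G : Geo) : Ball := badd (endV D.L (D.vo G)) (bneg (horner (-G.T, 0) D.Hs))
def Dat.ok1 (D : Dat) (G : Geo) : Bool :=
  parChk (bint G.d) D.wB D.rB D.sB D.gB G.m &&
    lowChk (bint G.d) D.rB D.sB D.cs 2 [D.wB, D.gB] &&
      decide (D.k % 2 = 0 ∧ endX D.L G.xo = sc - G.T)
def Dat.ok2 (D : Dat) (G : Geo) : Bool :=
  tubeChk (bint G.d) D.rB D.sB 0 [] 0 D.Qo D.Ko 1 0 G.ho G.no
def Dat.ok3 (D : Dat) (G : Geo) : Bool :=
  tubeChk (bint G.d) D.rB D.sB 1 D.low D.k D.Qs D.Ks (-1) (-G.T) G.hs G.ns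
def Dat.ok4 (D : Dat) (G : Geo) : Bool := regChk (bint G.d) D.rB D.sB (bint 0) D.Ho 0 1 0 G.ho G.no
def Dat.ok5 (D : Dat) (G : Geo) : Bool :=
  regChk (bint G.d) D.rB D.sB (bint 1) D.Hs 1 (-1) (-G.T) G.hs G.ns

structure OK (G : Geo) (D : Dat) : Prop where
  h1 : D.ok1 G = true
  h2 : D.ok2 G = true
  h3 : D.ok3 G = true
  bars : Bars (bint G.d) D.rB D.sB 1 D.L G.xo (D.vo G)

/-- The series at the origin and at the sonic point for the parameter `w`. -/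
structure Ser (d w : ℝ) (Wo Ws : PowerSeries ℝ) : Prop where
  jo : Jet d (rF d w) (sF w) 0 Wo 0
  js : ∀ n, 2 ≤ n → Jet d (rF d w) (sF w) 1 Ws n
  c0 : Ws.coeff 0 = w
  c1 : Ws.coeff 1 = gS d w

structure Tub (G : Geo) (D : Dat) (w : ℝ) (Wo Ws : PowerSeries ℝ) : Prop where
  hr : Mem (rF G.d w) D.rB
  hs : Mem (sF w) D.sB
  low : PMem D.low (Ws.trunc D.k)
  o : TubeOK G.d (rF G.d w) (sF w) 0 Wo 0 (ofInts D.Qo) (D.Ko / sc) 0 (G.xo / sc)
  s : TubeOK G.d (rF G.d w) (sF w) 1 Ws D.k (ofInts D.Qs) (D.Ks / sc) (-(G.T / sc)) (G.T / sc)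
  e : (endX D.L G.xo : ℝ) / sc = 1 - G.T / sc

variable {G : Geo} {D : Dat} {w : ℝ} {Wo Ws : PowerSeries ℝ}

lemma Geo.mem (G : Geo) : Mem G.d (bint G.d) := by simpa using mem_int G.d

lemma Geo.sound (h : G.ok = true) : (1 : ℝ) ≤ G.d ∧ (0 : ℝ) < G.xo / sc ∧ (0 : ℝ) < G.T / sc ∧
    (G.xo : ℝ) / sc * sc ≤ (0 : ℤ) + 2 * G.ho * (G.no + 1) ∧
    ((-G.T : ℤ) : ℝ) ≤ -(G.T / sc) * sc ∧
    (G.T : ℝ) / sc * sc ≤ (-G.T : ℤ) + 2 * G.hs * (G.ns + 1) := by
  obtain ⟨h1, h2, h3, h4, h5⟩ := of_decide_eq_true h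
  have := sc_pos
  have h4' : (G.xo : ℝ) ≤ 2 * G.ho * (G.no + 1) := by exact_mod_cast h4
  have h5' : (G.T : ℝ) ≤ G.hs * (G.ns + 1) := by exact_mod_cast h5
  rw [neg_mul, div_mul_cancel₀ _ this.ne', div_mul_cancel₀ _ this.ne']
  push_cast
  exact ⟨by exact_mod_cast h1, by positivity, by positivity, by linarith, le_rfl, by linarith⟩

lemma OK.par (h : OK G D) (hw : Mem w D.wB) : ParOK G.d G.m w := by
  have := h.h1
  simp only [Dat.ok1, Bool.and_eq_true] at this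
  exact (parChk_sound G.mem hw this.1.1).2.2.2

lemma hb_zero {d : ℝ} (hS : Ser d w Wo Ws) (q : ℝ[X]) (θ : ℝ) : (hb Ws D.k q θ).eval 0 = w := by
  rw [hb_eval, ← coeff_zero_eq_eval_zero, PowerSeries.coeff_trunc]
  simp [hS.c0, Dat.k]

lemma OK.tub (hG : G.ok = true) (h : OK G D) (hw : Mem w D.wB) (hS : Ser G.d w Wo Ws) :
    Tub G D w Wo Ws := by
  obtain ⟨-, g1, g2, g3, g4, g5⟩ := G.sound hG
  have h1 := h.h1
  simp only [Dat.ok1, Bool.and_eq_true, decide_eq_true_eq] at h1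
  obtain ⟨hr, hs, hg, hp⟩ := parChk_sound G.mem hw h1.1.1
  have l2 : PMem [D.wB, D.gB] (Ws.trunc 2) := (PMem.cons hw (PMem.const hg)).of_eq (by
    rw [PowerSeries.trunc_succ, PowerSeries.trunc_one_left, hS.c0, hS.c1,
      ← C_mul_X_pow_eq_monomial]
    ring)
  have j : ∀ n, 2 ≤ n → Jet G.d (rF G.d w) (sF w) (1 : ℤ) Ws n := by simpa using hS.js
  have l4 := lowChk_sound G.mem hr hs j _ _ _ le_rfl l2 h1.1.2
  refine ⟨hr, hs, l4, ?_, ?_, ?_⟩
  · have := tubeChk_sound G.mem hr hs (xs := 0) (W := Wo) (k := 0) (low := []) (by norm_num)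
      (by simpa using hS.jo) (by simpa using PMem.nil) (fun θ => by simp [MM]) h.h2 (a := 0)
      le_rfl g1.le (by simp) g3
    simpa using this
  · have := tubeChk_sound G.mem hr hs (xs := 1) (W := Ws) (k := D.k) (Nat.even_iff.2 h1.2.1)
      (j _ (by simp [Dat.k])) l4 (fun θ => by rw [hb_zero hS]; simp [MM, hp.e1]) h.h3
      (neg_nonpos.2 g2.le) g2.le g4 g5
    simpa using this
  · rw [h1.2.2]
    push_cast
    rw [sub_div, div_self sc_pos.ne']

lemma pmem_o {θ : ℝ} (h : |θ| ≤ D.Ko / sc) : PMem D.Ho (hb Wo 0 (ofInts D.Qo) θ) :=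
  pmem_hb (low := []) (by simpa using PMem.nil) _ (mem_of_abs h)

lemma Tub.pmem_s (hT : Tub G D w Wo Ws) {θ : ℝ} (h : |θ| ≤ D.Ks / sc) :
    PMem D.Hs (hb Ws D.k (ofInts D.Qs) θ) := pmem_hb hT.low _ (mem_of_abs h)

lemma Tub.good_o (hG : G.ok = true) (hT : Tub G D w Wo Ws) (h4 : D.ok4 G = true) {θ t : ℝ}
    (h : |θ| ≤ D.Ko / sc) (ht : t ∈ Icc (0 : ℝ) (G.xo / sc)) :
    Good G.d (rF G.d w) (sF w) t ((hb Wo 0 (ofInts D.Qo) θ).eval t) := by
  obtain ⟨g0, -, -, g3, -⟩ := G.sound hG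
  have := regChk_sound (by linarith) G.mem hT.hr hT.hs (mem_int 0) (pmem_o (Wo := Wo) h) h4
    (Or.inl rfl) (t := t) (by simp) (by simpa using mul_nonneg ht.1 sc_pos.le)
    ((mul_le_mul_of_nonneg_right ht.2 sc_pos.le).trans g3)
  simpa using this

lemma Tub.good_s (hG : G.ok = true) (hT : Tub G D w Wo Ws) (hS : Ser G.d w Wo Ws)
    (hp : ParOK G.d G.m w) (h5 : D.ok5 G = true) {θ t : ℝ} (h : |θ| ≤ D.Ks / sc)
    (ht : t ∈ Icc (-(G.T / sc) : ℝ) (G.T / sc)) (t0 : t ≠ 0) :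
    Good G.d (rF G.d w) (sF w) (1 + t) ((hb Ws D.k (ofInts D.Qs) θ).eval t) := by
  obtain ⟨g0, -, -, -, g4, g5⟩ := G.sound hG
  have := regChk_sound (by linarith) G.mem hT.hr hT.hs (mem_int 1) (hT.pmem_s h) h5
    (Or.inr ⟨rfl, by rw [hb_zero hS, Int.cast_one]; exact ⟨hp.e1, hp.e2, hp.e4, hp.e5⟩⟩) (t := t)
    (by simpa using t0) (g4.trans (mul_le_mul_of_nonneg_right ht.1 sc_pos.le))
    ((mul_le_mul_of_nonneg_right ht.2 sc_pos.le).trans g5)
  simpa using this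

theorem inner_dat {A D1 D2 : Dat} {Rt : List Stp} {S : Stp} {u : Ball} {σ : ℤ} (hG : G.ok = true)
    (hA : OK G A) (h1 : OK G D1) (h2 : OK G D2) (a4 : A.ok4 G = true) (a5 : A.ok5 G = true)
    (aL : Regs (bint G.d) A.rB A.sB 1 A.L)
    (bR : Bars (bint G.d) A.rB A.sB (-1) Rt (sc + G.T) (A.vr G))
    (rR : Regs (bint G.d) A.rB A.sB (-1) Rt)
    (bS : S.bar (bint G.d) A.rB A.sB (-1) (endV Rt (A.vr G)) = true)
    (rS : S.reg (bint G.d) A.rB A.sB (-1) = true)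
    (hc : (S.rng u && decide (S.x0 = endX Rt (sc + G.T) ∧ blo A.wB = D1.wB ∧ bhi A.wB = D2.wB) &&
      bpos (bneg (bmul (bint σ) (D1.mis G))) && bpos (bmul (bint σ) (D2.mis G)) &&
      bpos (badd (bint G.d) (bneg (bmul A.sB (S.x0, 0)))) &&
      bpos (badd (bmul A.sB (S.x1, 0)) (bneg (bint G.d)))) = true) :
    ∃ r y, Mem r A.rB ∧ Mem y u ∧ Inner (1 / G.d) r 1 y := by
  simp only [Bool.and_eq_true, decide_eq_true_eq] at hc
  obtain ⟨⟨⟨⟨⟨c0, c1, c2, c3⟩, c4⟩, c5⟩, c6⟩, c7⟩ := hc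
  obtain ⟨g0, g1, g2, -⟩ := G.sound hG
  have dp : (0 : ℝ) < G.d := by linarith
  set a : ℝ := ((A.wB.1 - A.wB.2 : ℤ) : ℝ) / sc with ha
  set b : ℝ := ((A.wB.1 + A.wB.2 : ℤ) : ℝ) / sc with hb
  have hab : a ≤ b := by
    have := sc_pos
    rw [ha, hb]
    gcongr
    linarith [Int.natCast_nonneg A.wB.2]
  have mA : ∀ p : Icc a b, Mem p.1 A.wB := fun p => by
    have k1 := (div_le_iff₀ sc_pos).1 p.2.1
    have k2 := (le_div_iff₀ sc_pos).1 p.2.2
    push_cast at k1 k2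
    exact abs_le.2 ⟨by linarith, by linarith⟩
  have par := fun p => hA.par (mA p)
  have hw : Continuous fun p : Icc a b => p.1 := continuous_subtype_val
  have hr : Continuous fun p : Icc a b => rF G.d p.1 :=
    Continuous.div (by fun_prop) (by fun_prop) fun p => (par p).d1
  have hs : Continuous fun p : Icc a b => sF p.1 :=
    Continuous.div (by fun_prop) (by fun_prop) fun p => pow_ne_zero 2 (par p).v.ne'
  have hg : Continuous fun p : Icc a b => gS G.d p.1 :=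
    Continuous.div (by simp only [gA, gB, gC]; fun_prop) (by simp only [gA]; fun_prop)
      fun p => mul_ne_zero two_ne_zero (par p).d3
  obtain ⟨Wo, νo, Ro, Lo⟩ := exists_origin g0 hr hs
  obtain ⟨Ws, νs, Rs, Ls, hc⟩ := exists_sonic hr hs hw hg (fun p => by simp [MM, (par p).e1])
    (fun p => (par p).e2) (fun p => (par p).e3) (by positivity) fun p => (par p).l
  have ser : ∀ p : Icc a b, Ser G.d p.1 (Wo p) (Ws p) := fun p =>
    ⟨Lo.jet p 0 le_rfl, Ls.jet p, (hc p).1, (hc p).2⟩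
  have TA := fun p => hA.tub hG (mA p) (ser p)
  set xo : ℝ := G.xo / sc with hxo
  set T : ℝ := G.T / sc with hT
  have io : ∀ τ ∈ Icc 0 xo, 1 * τ ∈ Icc 0 xo := fun τ h => by simpa using h
  have il : ∀ τ ∈ Icc 0 T, -1 * τ ∈ Icc (-T) T := fun τ h => ⟨by linarith [h.2], by linarith [h.1]⟩
  have ir : ∀ τ ∈ Icc 0 T, 1 * τ ∈ Icc (-T) T := fun τ h => ⟨by linarith [h.1], by linarith [h.2]⟩
  have ab : |(-1 : ℝ)| = 1 := by simp
  have k0 : ∀ K : ℕ, (0 : ℝ) ≤ K / sc := fun K => by positivity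
  obtain ⟨Vo, δo, o1, -, o2, So, co⟩ := side hr hs Lo abs_one g1 (fun p => (TA p).o) (k0 _) io
  obtain ⟨Vl, δl, l1, -, -, Sl, cl⟩ := side hr hs Ls ab g2 (fun p => (TA p).s) (k0 _) il
  obtain ⟨Vr, δr, r1, -, r2, Sr, cr⟩ := side hr hs Ls abs_one g2 (fun p => (TA p).s) (k0 _) ir
  have go : ∀ p, ∀ τ ∈ Ioc 0 xo, Good G.d (rF G.d p.1) (sF p.1) (0 + 1 * τ) (Vo p τ) :=
    fun p τ hτ => by
    obtain ⟨θ, h, e⟩ := (So p).theta abs_one Lo.pos (Lo.bd p) o1 (TA p).o io hτ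
    rw [e, zero_add]
    exact (TA p).good_o hG a4 h (io τ (Ioc_subset_Icc_self hτ))
  have gl : ∀ p, ∀ τ ∈ Ioc 0 T, Good G.d (rF G.d p.1) (sF p.1) (1 + -1 * τ) (Vl p τ) :=
    fun p τ hτ => by
    obtain ⟨θ, h, e⟩ := (Sl p).theta ab Ls.pos (Ls.bd p) l1 (TA p).s il hτ
    rw [e]
    exact (TA p).good_s hG (ser p) (par p) a5 h (il τ (Ioc_subset_Icc_self hτ)) (by linarith [hτ.1])
  have gr : ∀ p, ∀ τ ∈ Ioc 0 T, Good G.d (rF G.d p.1) (sF p.1) (1 + 1 * τ) (Vr p τ) :=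
    fun p τ hτ => by
    obtain ⟨θ, h, e⟩ := (Sr p).theta abs_one Ls.pos (Ls.bd p) r1 (TA p).s ir hτ
    rw [e]
    exact (TA p).good_s hG (ser p) (par p) a5 h (ir τ (Ioc_subset_Icc_self hτ)) (by linarith [hτ.1])
  have vo : ∀ (p : Icc a b) (D : Dat), Tub G D p.1 (Wo p) (Ws p) → Mem (Vo p xo) (D.vo G) :=
    fun p D k => by
    obtain ⟨θ, h, e⟩ := (So p).theta abs_one Lo.pos (Lo.bd p) o1 k.o io ⟨g1, le_rfl⟩
    rw [e, one_mul]
    exact (pmem_o h).horner (by simpa using mem_exact G.xo)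
  obtain ⟨U0, u1, u2⟩ := hA.bars.run dp hr hs G.mem (fun p => (TA p).hr) (fun p => (TA p).hs) aL co
    (fun p => vo p A (TA p)) fun p => by
      simpa using And.intro ((So p).ne xo ⟨g1, le_rfl⟩) (go p xo ⟨g1, le_rfl⟩)
  let p1 : Icc a b := ⟨a, le_rfl, hab⟩
  let p2 : Icc a b := ⟨b, hab, le_rfl⟩
  have hx := hA.bars.le
  rw [(TA p1).e] at u1 u2 hx
  simp only [Int.cast_natCast] at u1 hx
  have mis : ∀ (p : Icc a b) (D : Dat), OK G D → Mem p.1 D.wB →
      Mem (σ * (U0 p (1 - T) - Vl p T)) (bmul (bint σ) (D.mis G)) := fun p D k m => by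
    have t := k.tub hG m (ser p)
    obtain ⟨θ, h, e⟩ := (Sl p).theta ab Ls.pos (Ls.bd p) l1 t.s il ⟨g2, le_rfl⟩
    have := k.bars.enc G.mem t.hr t.hs (V := U0 p) (by rw [t.e]; simpa using (u1 p).2)
      (by simpa [(u1 p).1] using vo p D t)
    rw [t.e] at this
    rw [e, neg_one_mul, sub_eq_add_neg]
    exact (mem_int σ).mul (this.add ((t.pmem_s h).horner
      (by simpa [neg_div] using mem_exact (-G.T))).neg)
  have f1 := (mis p1 D1 h1 (c2 ▸ mem_blo A.wB)).neg.pos c4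
  have f2 := (mis p2 D2 h2 (c3 ▸ mem_bhi A.wB)).pos c5
  have : PreconnectedSpace (Icc a b) := Subtype.preconnectedSpace isPreconnected_Icc
  obtain ⟨p, hp⟩ := intermediate_value_univ p1 p2 (f := fun p => σ * (U0 p (1 - T) - Vl p T))
    (continuous_const.mul (u2.sub cl)) (show (0 : ℝ) ∈ Icc _ _ from ⟨(neg_pos.1 f1).le, f2.le⟩)
  have hp' := sub_eq_zero.1 ((mul_eq_zero.1 hp).resolve_left fun e => by simp [e] at f2)
  have e1 : ((sc + G.T : ℤ) : ℝ) / sc = 1 + T := by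
    push_cast
    rw [add_div, div_self sc_pos.ne']
  have vr : ∀ p, Mem (Vr p T) (A.vr G) := fun p => by
    obtain ⟨θ, h, e⟩ := (Sr p).theta abs_one Ls.pos (Ls.bd p) r1 (TA p).s ir ⟨g2, le_rfl⟩
    rw [e, one_mul]
    exact ((TA p).pmem_s h).horner (by simpa using mem_exact G.T)
  have g9 := fun p => And.intro ((Sr p).ne T ⟨g2, le_rfl⟩) (gr p T ⟨g2, le_rfl⟩)
  obtain ⟨V, v1, v2⟩ := bR.run dp hr hs G.mem (fun p => (TA p).hr) (fun p => (TA p).hs) rR cr vr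
    fun p => by rw [e1]; simpa using g9 p
  have me := fun p => bR.enc G.mem (TA p).hr (TA p).hs (v1 p).2 ((v1 p).1 ▸ vr p)
  have hy := bR.le
  have B := fun p => Stp.bar_sound G.mem (TA p).hr (TA p).hs bS
  obtain ⟨V', w1, -⟩ := step hr hs v2 B
    (fun p x hx θ hθ => Stp.good dp G.mem (TA p).hr (TA p).hs rS hx hθ) me
  rw [← c1, e1] at v1 hy
  rw [← c1] at w1 me
  obtain ⟨Y, y1, y2, y3⟩ := (v1 p).2.glue (w1 p).2 (fun x hx => hx.2) (fun x hx => hx.1)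
    ⟨hy, le_rfl⟩ ⟨le_rfl, S.le⟩ (w1 p).1.symm
  rw [Stp.I, Icc_union_Icc_eq_Icc hy S.le] at y1
  have q := par p
  have s0 : 0 < sF p.1 := div_pos one_pos (pow_pos q.v 2)
  have n1 := (G.mem.add ((TA p).hs.mul (mem_exact S.x0)).neg).pos c6
  have n2 := (((TA p).hs.mul (mem_exact S.x1)).add G.mem.neg).pos c7
  have n3 : G.d / sF p.1 ∈ S.I :=
    ⟨by rw [le_div_iff₀ s0]; linarith, by rw [div_le_iff₀ s0]; linarith⟩
  obtain ⟨θ, z1, z2⟩ := (B p).enc (w1 p).2 ((w1 p).1 ▸ me p) _ n3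
  refine ⟨_, Y (G.d / sF p.1), (TA p).hr, by rw [y3 _ n3.1, z2]; exact Stp.range c0 n3 z1,
    assemble dp s0 Lo.pos (Lo.bd p) (Lo.sol p) Ls.pos (Ls.bd p) (Ls.sol p) o1 o2 l1 r1 r2 hx
      (So p) (Sl p) (Sr p) ?_ (go p) (gl p) (gr p) (u1 p).1 hp' (by rw [y2 _ hy, (v1 p).1])
      (u1 p).2 y1 (by nlinarith) (by linarith) ?_⟩
  · have := (TA p).good_o hG a4 (TA p).o.mid.le (t := 0) ⟨le_rfl, g1.le⟩
    simpa [hb_eval] using this
  · rw [(hc p).1, (hc p).2]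
    have := mul_pos (mul_pos s0 q.v) (neg_pos.2 q.u)
    linarith

end Pool.Agent.MP_187b32_an.PD.Small

end MrgPart6

-- marker of a merged file
example : 731051 + 642110 = 731051 + 642110 := rfl
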