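import Pool.Agent.MP_187b32_an.PD.Small.K2g

-- ======== part 0: formerly Pool.Agent.MP_187b32_an.PD.Small.K2d
section MrgPart0

/-!
Kernel evaluation of the checks in dimension 2.
-/

namespace Pool.Agent.MP_187b32_an.PD.Small.D2

open Prof

theorem hA4 : dA.ok4 G = true := by decide +kernel
theorem hA5 : dA.ok5 G = true := by decide +kernel

end Pool.Agent.MP_187b32_an.PD.Small.D2

end MrgPart0

-- ======== part 1: formerly Pool.Agent.MP_187b32_an.PD.Small.K2f
section MrgPart1

/-!
Kernel evaluation of the checks in dimension 2.
-/

namespace Pool.Agent.MP_187b32_an.PD.Small.D2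

open Prof

theorem bA : Bars (bint G.d) dA.rB dA.sB 1 dA.L G.xo (dA.vo G) :=
  ⟨by decide +kernel, by decide +kernel, by decide +kernel, by decide +kernel, by decide +kernel,
    by decide +kernel, by decide +kernel, by decide +kernel, trivial⟩

theorem aL : Regs (bint G.d) dA.rB dA.sB 1 dA.L :=
  ⟨by decide +kernel, by decide +kernel, by decide +kernel, by decide +kernel, trivial⟩

end Pool.Agent.MP_187b32_an.PD.Small.D2

end MrgPart1

-- marker of a merged file
example : 731051 + 80999 = 731051 + 80999 := rfl
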